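import Pool.Agent.Helper78.FL.SDR

/-!
Abstract topological assembly for MP_1b2618_al.
-/

open Topology Filter

namespace Flawed

theorem lemmaQ {Z T : Type} [TopologicalSpace Z] [TopologicalSpace T] (R : Z → Z → Prop)
    (Mn : Set Z) (htot : ∀ x, ∃ m, R x m) (hMn : ∀ x m, R x m → m ∈ Mn)
    (hcl : IsClosed {p : Z × Z | R p.1 p.2})
    (hprop : ∀ x : Z, ∃ U ∈ 𝓝 x, ∃ C : Set Z, IsCompact C ∧ ∀ y ∈ U, ∀ m, R y m → m ∈ C)
    (f : Z → T) (hf : ContinuousOn f Mn) (huniq : ∀ x m m', R x m → R x m' → f m = f m') :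
    ∃ F : Z → T, Continuous F ∧ ∀ x m, R x m → F x = f m := by
  choose m hm using htot
  refine ⟨fun x => f (m x), ?_, fun x m' h => huniq x _ _ (hm x) h⟩
  rw [continuous_iff_continuousAt]
  intro x
  rw [ContinuousAt, tendsto_iff_ultrafilter]
  intro u hu
  obtain ⟨U, hU, C, hC, hUC⟩ := hprop x
  have hUu : U ∈ u := hu hU
  have hCu : C ∈ u.map m := by
    rw [Ultrafilter.mem_map]
    exact mem_of_superset hUu fun y hy => hUC y hy _ (hm y)
  obtain ⟨m0, hm0, hle⟩ := hC.ultrafilter_le_nhds' (u.map m) hCu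
  have ht : Tendsto m u (𝓝 m0) := hle
  have hid : Tendsto (fun y : Z => y) u (𝓝 x) := hu
  have hR : R x m0 := by
    have := hcl.mem_of_tendsto (hid.prodMk_nhds ht) (Eventually.of_forall fun y => hm y)
    exact this
  have h0 : f (m x) = f m0 := huniq x _ _ (hm x) hR
  rw [h0]
  have h1 : Tendsto m u (𝓝[Mn] m0) :=
    tendsto_nhdsWithin_iff.2 ⟨ht, Eventually.of_forall fun y => hMn _ _ (hm y)⟩
  exact (hf m0 (hMn _ _ hR)).tendsto.comp h1

/-- the data of the assembly -/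
structure AsmData {Z Y : Type} [TopologicalSpace Z] [TopologicalSpace Y]
    (sZ : Setoid Z) (sY : Setoid Y) (P Mn : Set Z) (j : Y → Z) (R E : Z → Z → Prop)
    (D : Z → ℝ → Z) : Prop where
  openZ : ∀ U : Set Z, IsOpen U → IsOpen {z | ∃ u ∈ U, sZ.r u z}
  openY : ∀ U : Set Y, IsOpen U → IsOpen {z | ∃ u ∈ U, sY.r u z}
  satP : ∀ x y, sZ.r x y → x ∈ P → y ∈ P
  jemb : IsEmbedding j
  jrel : ∀ y y', sY.r y y' → sZ.r (j y) (j y')
  jMn : ∀ y, j y ∈ Mn
  MnP : Mn ⊆ P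
  Rtot : ∀ x, ∃ m, R x m
  RMn : ∀ x m, R x m → m ∈ Mn
  Rself : ∀ m ∈ Mn, R m m
  Rcl : IsClosed {p : Z × Z | R p.1 p.2}
  Rprop : ∀ x : Z, ∃ U ∈ 𝓝 x, ∃ C : Set Z, IsCompact C ∧ ∀ y ∈ U, ∀ m, R y m → m ∈ C
  Rrel : ∀ x x' m, sZ.r x x' → R x m → R x' m
  RP : ∀ x m, x ∈ P → R x m → sZ.r x m
  RE : ∀ x m m', R x m → R x m' → E m m'
  EZ : ∀ x y, E x y → sZ.r x y
  EY : ∀ y y', E (j y) (j y') → sY.r y y'
  Dcont : ContinuousOn (fun p : Z × ℝ => D p.1 p.2) (Mn ×ˢ Set.Icc 0 1)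
  D0 : ∀ m ∈ Mn, D m 0 = m
  D1 : ∀ m ∈ Mn, ∃ y, D m 1 = j y
  DE : ∀ m ∈ Mn, ∀ m' ∈ Mn, E m m' → ∀ t ∈ Set.Icc (0 : ℝ) 1, E (D m t) (D m' t)
  Dj : ∀ y, ∀ t ∈ Set.Icc (0 : ℝ) 1, D (j y) t = j y

/-- orbit space of the points of `P` -/
abbrev QP {Z : Type} (sZ : Setoid Z) (P : Set Z) : Type := Quotient (sZ.comap (Subtype.val : P → Z))

theorem isOpenQuotientMap_mk {Z : Type} [TopologicalSpace Z] (sZ : Setoid Z)
    (openZ : ∀ U : Set Z, IsOpen U → IsOpen {z | ∃ u ∈ U, sZ.r u z}) :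
    IsOpenQuotientMap (Quotient.mk sZ) := by
  refine ⟨Quotient.mk_surjective, continuous_quot_mk, ?_⟩
  intro U hU
  have : (Quotient.mk sZ) ⁻¹' ((Quotient.mk sZ) '' U) = {z | ∃ u ∈ U, sZ.r u z} := by
    ext z
    constructor
    · rintro ⟨u, hu, huz⟩
      exact ⟨u, hu, (Quotient.eq (r := sZ)).1 huz⟩
    · rintro ⟨u, hu, huz⟩
      exact ⟨u, hu, Quotient.sound huz⟩
  have h2 : IsOpen ((Quotient.mk sZ) ⁻¹' ((Quotient.mk sZ) '' U)) := by
    rw [this]; exact openZ U hU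
  exact h2

theorem isOpenQuotientMap_QP {Z : Type} [TopologicalSpace Z] (sZ : Setoid Z) (P : Set Z)
    (openZ : ∀ U : Set Z, IsOpen U → IsOpen {z | ∃ u ∈ U, sZ.r u z})
    (satP : ∀ x y, sZ.r x y → x ∈ P → y ∈ P) :
    IsOpenQuotientMap (Quotient.mk (sZ.comap (Subtype.val : P → Z))) := by
  apply isOpenQuotientMap_mk
  rintro U ⟨V, hV, rfl⟩
  refine ⟨_, openZ V hV, ?_⟩
  ext z
  constructor
  · rintro ⟨u, hu, huz⟩
    exact ⟨⟨u, satP _ _ (sZ.symm huz) z.2⟩, hu, huz⟩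
  · rintro ⟨u, hu, huz⟩
    exact ⟨u.1, hu, huz⟩

theorem sdr_of_data {Z Y : Type} [TopologicalSpace Z] [TopologicalSpace Y]
    {sZ : Setoid Z} {sY : Setoid Y} {P Mn : Set Z} {j : Y → Z} {R E : Z → Z → Prop}
    {D : Z → ℝ → Z} (h : AsmData sZ sY P Mn j R E D) (i : Quotient sY → QP sZ P)
    (hi : ∀ y, i (Quotient.mk sY y) =
      Quotient.mk (sZ.comap (Subtype.val : P → Z)) ⟨j y, h.MnP (h.jMn y)⟩) :
    IsSDR i := by
  classical
  set q : P → QP sZ P := Quotient.mk (sZ.comap (Subtype.val : P → Z)) with hq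
  have hqo : IsOpenQuotientMap q := isOpenQuotientMap_QP sZ P h.openZ h.satP
  have hqY : IsOpenQuotientMap (Quotient.mk sY) := isOpenQuotientMap_mk sY h.openY
  have hqeq : ∀ x y : P, q x = q y ↔ sZ.r x.1 y.1 := fun x y =>
    ⟨fun hxy => (Quotient.eq (r := sZ.comap (Subtype.val : P → Z))).1 hxy,
      fun hxy => Quotient.sound hxy⟩
  -- the map `Z → QP` on the minimal set
  rcases isEmpty_or_nonempty P with hP | hP
  · -- no points at all
    have hZ : IsEmpty Z := ⟨fun x => by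
      obtain ⟨m, hm⟩ := h.Rtot x
      exact hP.false ⟨m, h.MnP (h.RMn x m hm)⟩⟩
    have hY : IsEmpty Y := ⟨fun y => hZ.false (j y)⟩
    have hQY : IsEmpty (Quotient sY) := ⟨fun y => by
      obtain ⟨y, rfl⟩ := Quotient.mk_surjective y; exact hY.false y⟩
    have hQZ : IsEmpty (QP sZ P) := ⟨fun y => by
      obtain ⟨y, rfl⟩ := hqo.surjective y; exact hP.false y⟩
    refine ⟨continuous_of_const fun x => (hQY.false x).elim, fun x => (hQZ.false x).elim,
      continuous_of_const fun x => (hQZ.false x).elim, fun y => (hQY.false y).elim,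
      fun x => (hQZ.false x.1).elim, continuous_of_const fun x => (hQZ.false x.1).elim,
      fun x => (hQZ.false x).elim, fun x => (hQZ.false x).elim,
      fun y => (hQY.false y).elim⟩
  let p0 : P := Classical.choice hP
  let toP : Z → P := fun z => if hz : z ∈ P then ⟨z, hz⟩ else p0
  have htoP : ∀ z (hz : z ∈ P), toP z = ⟨z, hz⟩ := fun z hz => by simp [toP, hz]
  have htoPc : ContinuousOn toP P := by
    rw [continuousOn_iff_continuous_domRestrict]
    have : P.domRestrict toP = id := by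
      funext z
      exact htoP z.1 z.2
    rw [this]; exact continuous_id
  let f0 : Z → QP sZ P := fun z => q (toP z)
  have hf0 : ContinuousOn f0 Mn :=
    hqo.continuous.comp_continuousOn (htoPc.mono h.MnP)
  have hf0u : ∀ x m m', R x m → R x m' → f0 m = f0 m' := by
    intro x m m' hm hm'
    have h1 := h.MnP (h.RMn _ _ hm)
    have h2 := h.MnP (h.RMn _ _ hm')
    simp only [f0, htoP m h1, htoP m' h2]
    exact (hqeq _ _).2 (h.EZ _ _ (h.RE _ _ _ hm hm'))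
  obtain ⟨π, hπ, hπf⟩ := lemmaQ R Mn h.Rtot h.RMn h.Rcl h.Rprop f0 hf0 hf0u
  have hπP : ∀ x (hx : x ∈ P), π x = q ⟨x, hx⟩ := by
    intro x hx
    obtain ⟨m, hm⟩ := h.Rtot x
    have h1 := h.MnP (h.RMn _ _ hm)
    rw [hπf x m hm]
    simp only [f0, htoP m h1]
    exact (hqeq _ _).2 (sZ.symm (h.RP x m hx hm))
  have hπrel : ∀ x x', sZ.r x x' → π x = π x' := by
    intro x x' hx
    obtain ⟨m, hm⟩ := h.Rtot x
    rw [hπf x m hm, hπf x' m (h.Rrel _ _ _ hx hm)]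
  -- the retraction
  have hYne : Nonempty Y := by
    obtain ⟨m, hm⟩ := h.Rtot p0.1
    obtain ⟨y, -⟩ := h.D1 m (h.RMn _ _ hm)
    exact ⟨y⟩
  let y0 : Y := Classical.choice hYne
  let g : Z → Y := fun m => if hm : ∃ y, D m 1 = j y then hm.choose else y0
  have hg : ∀ m ∈ Mn, j (g m) = D m 1 := by
    intro m hm
    have := h.D1 m hm
    simp only [g, this, dif_pos]
    exact this.choose_spec.symm
  have hD1c : ContinuousOn (fun m => D m 1) Mn := by
    have h1 : ContinuousOn (fun m : Z => ((m, 1) : Z × ℝ)) Mn := by fun_prop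
    exact h.Dcont.comp h1 fun m hm => ⟨hm, by norm_num, le_refl _⟩
  have hgc : ContinuousOn g Mn := by
    rw [h.jemb.isInducing.continuousOn_iff]
    exact hD1c.congr fun m hm => hg m hm
  have hgu : ∀ x m m', R x m → R x m' → (Quotient.mk sY (g m)) = Quotient.mk sY (g m') := by
    intro x m m' hm hm'
    have h1 := h.RMn _ _ hm
    have h2 := h.RMn _ _ hm'
    apply Quotient.sound
    apply h.EY
    rw [hg m h1, hg m' h2]
    exact h.DE m h1 m' h2 (h.RE _ _ _ hm hm') 1 (by norm_num)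
  obtain ⟨r0, hr0, hr0f⟩ := lemmaQ R Mn h.Rtot h.RMn h.Rcl h.Rprop
    (fun m => Quotient.mk sY (g m)) (hqY.continuous.comp_continuousOn hgc) hgu
  have hr0rel : ∀ x x', sZ.r x x' → r0 x = r0 x' := by
    intro x x' hx
    obtain ⟨m, hm⟩ := h.Rtot x
    rw [hr0f x m hm, hr0f x' m (h.Rrel _ _ _ hx hm)]
  let rr : QP sZ P → Quotient sY := Quotient.lift (fun x : P => r0 x.1)
    (fun x x' hx => hr0rel _ _ hx)
  have hrr : ∀ x : P, rr (q x) = r0 x.1 := fun x => rfl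
  have hrrc : Continuous rr := hqo.isQuotientMap.continuous_iff.2 (hr0.comp continuous_subtype_val)
  -- the homotopy
  let R' : Z × unitInterval → Z × unitInterval → Prop := fun a b => R a.1 b.1 ∧ a.2 = b.2
  have hF := lemmaQ (Z := Z × unitInterval) (T := QP sZ P) R' (Mn ×ˢ Set.univ)
    (by
      rintro ⟨x, t⟩
      obtain ⟨m, hm⟩ := h.Rtot x
      exact ⟨(m, t), hm, rfl⟩)
    (by
      rintro ⟨x, t⟩ ⟨m, t'⟩ ⟨h1, h2⟩
      exact ⟨h.RMn _ _ h1, trivial⟩)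
    (by
      have h1 : IsClosed {p : (Z × unitInterval) × (Z × unitInterval) | R p.1.1 p.2.1} := by
        have hc : Continuous (fun p : (Z × unitInterval) × (Z × unitInterval) =>
          (p.1.1, p.2.1)) := by fun_prop
        exact h.Rcl.preimage hc
      have h2 : IsClosed {p : (Z × unitInterval) × (Z × unitInterval) | p.1.2 = p.2.2} :=
        isClosed_eq (by fun_prop) (by fun_prop)
      exact h1.inter h2)
    (by
      rintro ⟨x, t⟩
      obtain ⟨U, hU, C, hC, hUC⟩ := h.Rprop x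
      refine ⟨U ×ˢ Set.univ, prod_mem_nhds hU univ_mem, C ×ˢ Set.univ,
        hC.prod isCompact_univ, ?_⟩
      rintro ⟨y, s⟩ ⟨hy, -⟩ ⟨m, s'⟩ ⟨h1, -⟩
      exact ⟨hUC y hy m h1, trivial⟩)
    (fun a => π (D a.1 a.2))
    (by
      have h1 : ContinuousOn (fun a : Z × unitInterval => ((a.1, (a.2 : ℝ)) : Z × ℝ))
        (Mn ×ˢ Set.univ) := by fun_prop
      have h2 : ContinuousOn (fun a : Z × unitInterval => D a.1 a.2) (Mn ×ˢ Set.univ) :=
        h.Dcont.comp h1 fun a ha => ⟨ha.1, a.2.2⟩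
      exact hπ.comp_continuousOn h2)
    (by
      rintro ⟨x, t⟩ ⟨m, s⟩ ⟨m', s'⟩ ⟨h1, h2⟩ ⟨h3, h4⟩
      simp only at h1 h2 h3 h4
      subst h2
      subst h4
      exact hπrel _ _ (h.EZ _ _ (h.DE m (h.RMn _ _ h1) m' (h.RMn _ _ h3)
        (h.RE _ _ _ h1 h3) t t.2)))
  obtain ⟨F, hFc, hFf⟩ := hF
  have hFrel : ∀ x x' t, sZ.r x x' → F (x, t) = F (x', t) := by
    intro x x' t hx
    obtain ⟨m, hm⟩ := h.Rtot x
    rw [hFf (x, t) (m, t) ⟨hm, rfl⟩, hFf (x', t) (m, t) ⟨h.Rrel _ _ _ hx hm, rfl⟩]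
  let H : QP sZ P × unitInterval → QP sZ P := fun a =>
    Quotient.lift (fun x : P => F (x.1, a.2)) (fun x x' hx => hFrel _ _ _ hx) a.1
  have hHq : ∀ (x : P) t, H (q x, t) = F (x.1, t) := fun x t => rfl
  have hHc : Continuous H := by
    have hq2 : IsOpenQuotientMap (Prod.map q (id : unitInterval → unitInterval)) :=
      hqo.prodMap IsOpenQuotientMap.id
    rw [hq2.isQuotientMap.continuous_iff]
    have h1 : Continuous (fun a : P × unitInterval => (((a.1 : Z), a.2) : Z × unitInterval)) := by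
      fun_prop
    exact hFc.comp h1
  have hic : Continuous i := by
    rw [hqY.isQuotientMap.continuous_iff]
    have h1 : i ∘ Quotient.mk sY = fun y => q ⟨j y, h.MnP (h.jMn y)⟩ := funext hi
    rw [h1]
    exact hqo.continuous.comp (h.jemb.continuous.subtype_mk _)
  refine ⟨hic, rr, hrrc, ?_, H, hHc, ?_, ?_, ?_⟩
  · intro y
    obtain ⟨y, rfl⟩ := Quotient.mk_surjective y
    rw [hi, hrr]
    rw [hr0f _ _ (h.Rself _ (h.jMn y))]
    congr 1
    apply h.jemb.injective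
    rw [hg _ (h.jMn y), h.Dj y 1 (by norm_num)]
  · intro x
    obtain ⟨x, rfl⟩ := hqo.surjective x
    rw [hHq]
    obtain ⟨m, hm⟩ := h.Rtot x.1
    rw [hFf (x.1, 0) (m, 0) ⟨hm, rfl⟩]
    have h1 := h.RMn _ _ hm
    simp only [Set.Icc.coe_zero]
    rw [h.D0 m h1, hπP m (h.MnP h1)]
    exact (hqeq _ _).2 (sZ.symm (h.RP _ _ x.2 hm))
  · intro x
    obtain ⟨x, rfl⟩ := hqo.surjective x
    rw [hHq, hrr]
    obtain ⟨m, hm⟩ := h.Rtot x.1
    rw [hFf (x.1, 1) (m, 1) ⟨hm, rfl⟩, hr0f _ _ hm]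
    have h1 := h.RMn _ _ hm
    simp only [Set.Icc.coe_one]
    rw [hi, ← hg m h1, hπP _ (h.MnP (h.jMn _))]
  · intro y t
    obtain ⟨y, rfl⟩ := Quotient.mk_surjective y
    rw [hi, hHq, hFf (j y, t) (j y, t) ⟨h.Rself _ (h.jMn y), rfl⟩]
    simp only
    rw [h.Dj y t t.2, hπP _ (h.MnP (h.jMn y))]

end Flawed
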