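import Pool.Agent.Helper78.FL.Basic

/-!
Statements of the modules for MP_1b2618_al.  A module proves `theorem X (h1 : StA) ... : StX`.
-/

open Matrix MeasureTheory
open scoped ComplexConjugate ComplexOrder

namespace Flawed

/-- FL01. A polynomial in the entries of `exp (z ξ)`, `ξ` Hermitian, is an exponential sum with
real frequencies bounded by `deg · ‖ξ‖`. -/
def StExpPoly : Prop :=
  ∀ (n : ℕ) (f : MvPolynomial (Fin n × Fin n) ℂ) (ξ : Mat n) (hξ : ξ.IsHermitian) (B : ℝ),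
    (∀ i, |hξ.eigenvalues i| ≤ B) →
    ∃ (F : Finset ℝ) (q : ℝ → ℂ), (∀ c ∈ F, |c| ≤ f.totalDegree * B) ∧
      ∀ z : ℂ, pev f (NormedSpace.exp (z • ξ)) = ∑ c ∈ F, q c * Complex.exp (z * c)

/-- FL02. Vandermonde. -/
def StVand : Prop :=
  ∀ (F : Finset ℝ) (q : ℝ → ℂ) (ζ : ℂ),
    Set.InjOn (fun c : ℝ => Complex.exp (ζ * c)) (F : Set ℝ) →
    (∀ m : ℕ, ∑ c ∈ F, q c * Complex.exp (m * ζ * c) = 0) → ∀ c ∈ F, q c = 0

/-- FL02. -/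
def StE1 : Prop :=
  ∀ (n : ℕ) (G : Subgroup (GLn n)), IsAlgebraic G →
    ∀ ξ : Mat n, ξ.IsHermitian → ex ξ ∈ G → InLie G ξ

/-- FL02. -/
def StE2 : Prop :=
  ∀ (n : ℕ) (G : Subgroup (GLn n)), IsAlgebraic G → ∃ δ : ℝ, 0 < δ ∧
    ∀ (H : Mat n) (hH : H.IsHermitian), (∀ i, |hH.eigenvalues i| ≤ δ) →
      ex (Complex.I • H) ∈ G → InLie G H

/-- FL03. Logarithm of positive definite matrices. -/
def StLog : Prop :=
  ∀ n : ℕ, (∀ ξ : Mat n, ξ.IsHermitian → (NormedSpace.exp ξ).PosDef) ∧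
    ∃ L : Mat n → Mat n,
      (∀ p : Mat n, p.PosDef → (L p).IsHermitian ∧ NormedSpace.exp (L p) = p) ∧
      (∀ ξ : Mat n, ξ.IsHermitian → L (NormedSpace.exp ξ) = ξ) ∧
      ContinuousOn L {p | p.PosDef} ∧
      (∀ p : Mat n, p.PosDef → ∀ x : Mat n, Commute x p → Commute x (L p))

/-- FL04. Small logarithm of a unitary matrix close to `1`. -/
def StULog : Prop :=
  ∀ (n : ℕ) (δ : ℝ), 0 < δ → ∃ η : ℝ, 0 < η ∧
    ∀ u : GLn n, u ∈ UU n → nm ((u : Mat n) - 1) ≤ η →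
      ∃ (H : Mat n) (hH : H.IsHermitian), (∀ i, |hH.eigenvalues i| ≤ δ) ∧
        u = ex (Complex.I • H)

/-- FL05. The action of `exp (z ξ)`, `ξ` Hermitian, diagonalised. -/
def StWeights : Prop :=
  ∀ (n : ℕ) (ι : Type) [Fintype ι] (v : ι → Mat n) (ξ : Mat n) (hξ : ξ.IsHermitian),
    ∃ (μ : ι × Fin n × Fin n → ℝ) (w : ι × Fin n × Fin n → ℂ),
      (∀ z : ℂ, ip (act (ex (z • ξ)) v) v = ∑ j, Complex.exp (z * μ j) * (‖w j‖ ^ 2 : ℝ)) ∧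
      (∀ z : ℂ, nsq (act (ex (z • ξ)) v) = ∑ j, Real.exp (2 * z.re * μ j) * ‖w j‖ ^ 2) ∧
      (∀ z : ℂ, nsq (act (ex (z • ξ)) v - v) =
        ∑ j, ‖Complex.exp (z * μ j) - 1‖ ^ 2 * ‖w j‖ ^ 2) ∧
      ∀ B : ℝ, (∀ i, |hξ.eigenvalues i| ≤ B) → ∀ j, |μ j| ≤ 2 * B

/-- FL06. Convexity of the norm along `exp (t ξ)`. -/
def StConvex : Prop :=
  ∀ (n : ℕ) (ι : Type) [Fintype ι] (v : ι → Mat n) (ξ : Mat n), ξ.IsHermitian →
    ∀ t : ℝ, 0 ≤ t → t ≤ 1 →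
      nsq (act (ex ((t : ℂ) • ξ)) v) ≤ (1 - t) * nsq v + t * nsq (act (ex ξ) v)

/-- FL06. If the norm is minimal at `v` along `exp (t ξ) v` and `exp ξ v` is not longer than `v`,
then `v` is fixed by `exp (z ξ)` for all complex `z`. -/
def StAlong : Prop :=
  ∀ (n : ℕ) (ι : Type) [Fintype ι] (v : ι → Mat n) (ξ : Mat n), ξ.IsHermitian →
    (∀ t : ℝ, nsq v ≤ nsq (act (ex ((t : ℂ) • ξ)) v)) → nsq (act (ex ξ) v) ≤ nsq v →
    ∀ z : ℂ, act (ex (z • ξ)) v = v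

/-- FL06. Phase bound. -/
def StPhaseHerm : Prop :=
  ∀ (n : ℕ) (ι : Type) [Fintype ι] (v : ι → Mat n) (H : Mat n) (hH : H.IsHermitian) (B : ℝ),
    (∀ i, |hH.eigenvalues i| ≤ B) → B ≤ 1 →
    (∀ t : ℝ, nsq v ≤ nsq (act (ex ((t : ℂ) • H)) v)) →
    |(ip (act (ex (Complex.I • H)) v) v).im| ≤ B * nsq (act (ex (Complex.I • H)) v - v)

/-- FL07. Polar decomposition in `G`. -/
def StPolar : Prop :=
  ∀ (n : ℕ) (G : Subgroup (GLn n)), SA G → ∀ g ∈ G,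
    ∃ k ∈ KK G, ∃ ξ : Mat n, ξ.IsHermitian ∧ InLie G ξ ∧ g = k * ex ξ

/-- FL08. -/
def StMinOrb : Prop :=
  ∀ (n : ℕ) (ι : Type) [Fintype ι] (G : Subgroup (GLn n)), SA G → ∀ v : ι → Mat n, IsMin G v →
    ∀ g ∈ G, nsq (act g v) ≤ nsq v →
      (∃ k ∈ KK G, act g v = act k v) ∧ (act g v = v → act (star g) v = v)

/-- FL09. Compactness facts. -/
def StCpt : Prop :=
  (∀ (n : ℕ) (G : Subgroup (GLn n)), IsAlgebraic G → IsClosed (G : Set (GLn n))) ∧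
  (∀ (n : ℕ) (C : ℝ),
    IsCompact {g : GLn n | nm (g : Mat n) ≤ C ∧ nm ((g⁻¹ : GLn n) : Mat n) ≤ C}) ∧
  (∀ n : ℕ, IsCompact (UU n : Set (GLn n))) ∧
  (∀ (n : ℕ) (G : Subgroup (GLn n)), IsAlgebraic G → IsCompact (KK G : Set (GLn n))) ∧
  (∀ (n : ℕ) (ι : Type) [Fintype ι] (C : ℝ), IsCompact {v : ι → Mat n | nsq v ≤ C})

/-- FL10. Haar measure. -/
def StHaar : Prop :=
  ∀ (n : ℕ) (K : Subgroup (GLn n)), IsCompact (K : Set (GLn n)) → ∃ μ : Measure (GLn n), IsHaar K μ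

/-- FL11. Polynomial lower bound for the volume of the near-stabiliser. -/
def StVol : Prop :=
  ∀ (n : ℕ) (ι : Type) [Fintype ι] (K : Subgroup (GLn n)) (μ : Measure (GLn n)), K ≤ UU n →
    IsHaar K μ → ∀ v : ι → Mat n, ∃ (c : ℝ) (D : ℕ), 0 < c ∧ ∀ ρ : ℝ, 0 < ρ → ρ ≤ 1 →
      ENNReal.ofReal (c * ρ ^ D) ≤ μ {k | nsq (act k⁻¹ v - v) ≤ ρ ^ 2}

/-- FL12. Divergence of the resolvent integral. -/
def StDiv : Prop :=
  ∀ (Ω : Type) [MeasurableSpace Ω] (μ : Measure Ω) [IsProbabilityMeasure μ] (w : Ω → ℂ)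
    (d : Ω → ℝ) (a c : ℝ) (D : ℕ), Measurable w → Measurable d → (∀ x, 0 ≤ d x) → 0 < c →
    (∀ᵐ x ∂μ, (w x).re = a - d x ^ 2 / 2) →
    (∀ ε : ℝ, 0 < ε → ∃ δ : ℝ, 0 < δ ∧ ∀ᵐ x ∂μ, d x ≤ δ → |(w x).im| ≤ ε * d x ^ 2) →
    (∀ ρ : ℝ, 0 < ρ → ρ ≤ 1 → ENNReal.ofReal (c * ρ ^ D) ≤ μ {x | d x ≤ ρ}) →
    ∀ p : ℕ, D < 2 * p → ∀ B : ℝ, ∃ s₀ : ℝ, a < s₀ ∧ ∀ s : ℝ, a < s → s < s₀ →
      B < ‖∫ x, (((s : ℂ) - w x) ^ p)⁻¹ ∂μ‖

/-- FL13. Phase control near the stabiliser of a minimal vector. -/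
def StPhase : Prop :=
  ∀ (n : ℕ) (ι : Type) [Fintype ι] (G : Subgroup (GLn n)), SA G → ∀ m : ι → Mat n, IsMin G m →
    ∀ ε : ℝ, 0 < ε → ∃ δ : ℝ, 0 < δ ∧ ∀ k ∈ KK G, nsq (act k m - m) ≤ δ →
      |(ip (act k m) m).im| ≤ ε * nsq (act k m - m)

/-- FL14. Separation of minimal vectors by the invariants. -/
def StSep : Prop :=
  ∀ (n : ℕ) (ι : Type) [Fintype ι] (G : Subgroup (GLn n)) (μ : Measure (GLn n)), SA G →
    IsHaar (KK G) μ → ∀ m m' : ι → Mat n, IsMin G m → IsMin G m' → nsq m' ≤ nsq m →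
    (∀ d : ℕ, ∫ k, ip (act k⁻¹ m) m ^ d ∂μ = ∫ k, ip (act k⁻¹ m') m ^ d ∂μ) →
    ∃ k ∈ KK G, m' = act k m

/-- the regular functions on `GL_n(ℂ)` -/
noncomputable def Reg (n : ℕ) : Subalgebra ℂ (GLn n → ℂ) :=
  Algebra.adjoin ℂ
    (Set.range (fun (p : Fin n × Fin n) (g : GLn n) => (g : Mat n) p.1 p.2) ∪
     Set.range (fun (p : Fin n × Fin n) (g : GLn n) => ((g⁻¹ : GLn n) : Mat n) p.1 p.2))

/-- FL15. Regular functions vanishing on a Zariski dense subgroup vanish. -/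
def StReg : Prop :=
  ∀ (n : ℕ) (K G : Subgroup (GLn n)), IsZariskiDense K G → ∀ f ∈ Reg n, (∀ k ∈ K, f k = 0) →
    ∀ g ∈ G, f g = 0

/-- FL16. The averaged powers of the matrix coefficients are polynomials. -/
def StPoly : Prop :=
  ∀ (n : ℕ) (ι : Type) [Fintype ι] (K : Subgroup (GLn n)) (μ : Measure (GLn n)),
    IsCompact (K : Set (GLn n)) → IsHaar K μ → ∀ (w : ι → Mat n) (d : ℕ),
    ∃ Q : MvPolynomial (ι × Fin n × Fin n) ℂ, ∀ v : ι → Mat n,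
      ∫ k, ip (act k⁻¹ v) w ^ d ∂μ = MvPolynomial.eval (fun p => v p.1 p.2.1 p.2.2) Q

/-- FL17. The averaged powers of the matrix coefficients are `G`-invariant and continuous. -/
def StInv : Prop :=
  ∀ (n : ℕ) (ι : Type) [Fintype ι] (K G : Subgroup (GLn n)) (μ : Measure (GLn n)),
    IsCompact (K : Set (GLn n)) → IsHaar K μ → IsZariskiDense K G → ∀ (w : ι → Mat n) (d : ℕ),
    (Continuous fun v : ι → Mat n => ∫ k, ip (act k⁻¹ v) w ^ d ∂μ) ∧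
    ∀ g ∈ G, ∀ v : ι → Mat n,
      ∫ k, ip (act k⁻¹ (act g v)) w ^ d ∂μ = ∫ k, ip (act k⁻¹ v) w ^ d ∂μ

/-- FL18. Every orbit closure contains minimal vectors, unique up to `K`, depending on the
point in a closed way. -/
def StLim : Prop :=
  ∀ (n : ℕ) (ι : Type) [Fintype ι] (G : Subgroup (GLn n)), SA G → IsZariskiDense (KK G) G →
    (∀ v : ι → Mat n, ∃ m, Lim G v m) ∧
    (∀ v m : ι → Mat n, Lim G v m → nsq m ≤ nsq v) ∧
    (∀ v m m' : ι → Mat n, Lim G v m → Lim G v m' → ∃ k ∈ KK G, m' = act k m) ∧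
    IsClosed {p : (ι → Mat n) × (ι → Mat n) | Lim G p.1 p.2}

/-- FL19. Orbits of minimal vectors are closed. -/
def StClosedOrb : Prop :=
  ∀ (n : ℕ) (ι : Type) [Fintype ι] (G : Subgroup (GLn n)), SA G → ∀ m : ι → Mat n, IsMin G m →
    IsClosed (Orb G m)

/-- FL20. Uniqueness of the minimiser of `FF A B` over the positive definite elements of `G`. -/
def StMinUniq : Prop :=
  ∀ (n : ℕ) (G : Subgroup (GLn n)), SA G → ∀ A B : Mat n, A.PosDef → B.PosDef →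
    ∀ g ∈ G, ∀ g' ∈ G, (g : Mat n).PosDef → (g' : Mat n).PosDef →
    (∀ h ∈ G, (h : Mat n).PosDef → FF A B g ≤ FF A B h) → FF A B g' ≤ FF A B g → g' = g

/-- FL21. Existence, continuity and equivariance of the minimiser. -/
def StMinA : Prop :=
  ∀ (n : ℕ) (G : Subgroup (GLn n)), SA G → ∃ hm : Mat n → Mat n → GLn n,
    (∀ A B : Mat n, A.PosDef → B.PosDef → hm A B ∈ G ∧ ((hm A B : GLn n) : Mat n).PosDef ∧
      (∀ h ∈ G, (h : Mat n).PosDef → FF A B (hm A B) ≤ FF A B h) ∧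
      (∀ h ∈ G, (h : Mat n).PosDef → FF A B h ≤ FF A B (hm A B) → h = hm A B)) ∧
    ContinuousOn (fun p : Mat n × Mat n => hm p.1 p.2) {p | p.1.PosDef ∧ p.2.PosDef} ∧
    (∀ A B : Mat n, A.PosDef → B.PosDef → ∀ g ∈ G,
      hm ((g : Mat n)ᴴ * A * g) (((g⁻¹ : GLn n) : Mat n) * B * ((g⁻¹ : GLn n) : Mat n)ᴴ) =
        g⁻¹ * hm A B * (star g)⁻¹)

/-- FL22. First stage of the deformation: make the central element unitary. -/
def StStage1 : Prop :=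
  ∀ (n r : ℕ) (N : Fin r → ℕ) (G : Subgroup (GLn n)), 0 < r → (∀ i, 0 < N i) → SA G →
    ∃ S : (Fin r → GLn n) → ℝ → (Fin r → GLn n),
      ContinuousOn (fun p : (Fin r → GLn n) × ℝ => S p.1 p.2)
        ({x | x ∈ TT N G ∧ IsMin G (emb x)} ×ˢ Set.Icc 0 1) ∧
      ∀ x ∈ TT N G, IsMin G (emb x) →
        (∀ s : ℝ, S x s ∈ TT N G) ∧ S x 0 = x ∧ (∀ i, S x 1 i ^ N i ∈ UU n) ∧
        (∀ k ∈ KK G, ∀ s : ℝ, S (cjt k x) s = cjt k (S x s)) ∧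
        ((∀ i, x i ∈ UU n) → ∀ s : ℝ, S x s = x)

/-- FL23. Second stage of the deformation: make all the generators unitary. -/
def StStage2 : Prop :=
  ∀ (n r : ℕ) (N : Fin r → ℕ) (G : Subgroup (GLn n)), 0 < r → (∀ i, 0 < N i) → SA G →
    ∃ S : (Fin r → GLn n) → ℝ → (Fin r → GLn n),
      ContinuousOn (fun p : (Fin r → GLn n) × ℝ => S p.1 p.2)
        ({x | x ∈ TT N G ∧ ∀ i, x i ^ N i ∈ UU n} ×ˢ Set.Icc 0 1) ∧
      ∀ x ∈ TT N G, (∀ i, x i ^ N i ∈ UU n) →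
        (∀ s : ℝ, S x s ∈ TT N G) ∧ S x 0 = x ∧ (∀ i, S x 1 i ∈ UU n) ∧
        (∀ k ∈ KK G, ∀ s : ℝ, S (cjt k x) s = cjt k (S x s)) ∧
        ((∀ i, x i ∈ UU n) → ∀ s : ℝ, S x s = x)

/-- FL24. The whole deformation, and minimality of unitary tuples. -/
def StDeform : Prop :=
  ∀ (n r : ℕ) (N : Fin r → ℕ) (G : Subgroup (GLn n)), 0 < r → (∀ i, 0 < N i) → SA G →
    ∃ S : (Fin r → GLn n) → ℝ → (Fin r → GLn n),
      ContinuousOn (fun p : (Fin r → GLn n) × ℝ => S p.1 p.2)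
        ({x | x ∈ TT N G ∧ IsMin G (emb x)} ×ˢ Set.Icc 0 1) ∧
      ∀ x ∈ TT N G, IsMin G (emb x) →
        (∀ s ∈ Set.Icc (0 : ℝ) 1, S x s ∈ TT N G) ∧ S x 0 = x ∧ (∀ i, S x 1 i ∈ UU n) ∧
        (∀ k ∈ KK G, ∀ s ∈ Set.Icc (0 : ℝ) 1, S (cjt k x) s = cjt k (S x s)) ∧
        ((∀ i, x i ∈ UU n) → ∀ s ∈ Set.Icc (0 : ℝ) 1, S x s = x)

/-- FL25. Tuples of unitary matrices are minimal. -/
def StKMin : Prop :=
  ∀ (n r : ℕ) (G : Subgroup (GLn n)) (x : Fin r → GLn n), (∀ i, x i ∈ UU n) → IsMin G (emb x)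

/-- FL26. Unitary trick. -/
def StUTrick : Prop :=
  ∀ (n : ℕ) (K : Subgroup (GLn n)), IsCompact (K : Set (GLn n)) →
    ∃ b : GLn n, ∀ k ∈ K, b * k * b⁻¹ ∈ UU n

/-- FL27. -/
def StSelfAdj : Prop :=
  ∀ (n : ℕ) (K G : Subgroup (GLn n)), IsAlgebraic G → IsZariskiDense K G → K ≤ UU n →
    ∀ g ∈ G, star g ∈ G

/-- FL28. -/
def StRealForm : Prop :=
  ∀ (n : ℕ) (K G : Subgroup (GLn n)), IsCompact (K : Set (GLn n)) → IsZariskiDense K G →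
    K ≤ UU n → KK G ≤ K

/-- FL29. Compact subgroups of `G` are conjugate in `G` to subgroups of `KK G`. -/
def StCartan : Prop :=
  ∀ (n : ℕ) (G L : Subgroup (GLn n)), SA G → L ≤ G → IsCompact (L : Set (GLn n)) →
    ∃ g ∈ G, ∀ l ∈ L, g * l * g⁻¹ ∈ UU n

end Flawed
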