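import Pool.Agent.Helper78.FL.FinalDefs
import Pool.Agent.Helper78.FL.AsmTop
import Pool.Agent.Helper78.FL.Statements

/-!
The main assembly for MP_1b2618_al: the strong deformation retraction for a group which is
conjugate to a self-adjoint one.
-/

open Matrix Topology Filter
open scoped ComplexConjugate ComplexOrder

namespace Flawed

variable {n r : ℕ}

/-! ### the embedding `emb` -/

theorem emb_cjt (g : GLn n) (x : Fin r → GLn n) : emb (cjt g x) = act g (emb x) := by
  ext1 i
  rcases i with i | i
  · simp [emb, cjt, act]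
  · simp [emb, cjt, act, _root_.mul_inv_rev, mul_assoc]

theorem emb_injective : Function.Injective (emb : (Fin r → GLn n) → Fin r ⊕ Fin r → Mat n) := by
  intro x y h
  ext1 i
  apply Units.ext
  exact congrFun h (Sum.inl i)

theorem continuous_emb : Continuous (emb : (Fin r → GLn n) → Fin r ⊕ Fin r → Mat n) := by
  refine continuous_pi fun i => ?_
  rcases i with i | i
  · have h : Continuous (fun x : Fin r → GLn n => x i) := continuous_apply i
    have h2 := Units.continuous_val.comp h
    exact h2
  · have h : Continuous (fun x : Fin r → GLn n => x i) := continuous_apply i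
    have h2 := Units.continuous_val.comp (continuous_inv.comp h)
    exact h2

theorem isInducing_emb : IsInducing (emb : (Fin r → GLn n) → Fin r ⊕ Fin r → Mat n) := by
  let Ψ : (Fin r ⊕ Fin r → Mat n) → (Fin r → Mat n × (Mat n)ᵐᵒᵖ) :=
    fun v i => (v (Sum.inl i), MulOpposite.op (v (Sum.inr i)))
  have hΨ : Continuous Ψ := by
    refine continuous_pi fun i => ?_
    have h1 : Continuous (fun v : Fin r ⊕ Fin r → Mat n => v (Sum.inl i)) := continuous_apply _
    have h2 : Continuous (fun v : Fin r ⊕ Fin r → Mat n => v (Sum.inr i)) := continuous_apply _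
    exact h1.prodMk (MulOpposite.continuous_op.comp h2)
  have h : IsInducing (Ψ ∘ emb) := by
    have h3 : IsInducing (Pi.map fun (_ : Fin r) (g : GLn n) => Units.embedProduct (Mat n) g) :=
      IsInducing.piMap fun _ => Units.isEmbedding_embedProduct.isInducing
    exact h3
  exact IsInducing.of_comp continuous_emb hΨ h

theorem isClosed_range_emb :
    IsClosed (Set.range (emb : (Fin r → GLn n) → Fin r ⊕ Fin r → Mat n)) := by
  have : Set.range (emb : (Fin r → GLn n) → Fin r ⊕ Fin r → Mat n) =
      {v | ∀ i, v (Sum.inl i) * v (Sum.inr i) = 1 ∧ v (Sum.inr i) * v (Sum.inl i) = 1} := by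
    ext v
    constructor
    · rintro ⟨x, rfl⟩ i
      simp [emb]
    · intro h
      refine ⟨fun i => ⟨v (Sum.inl i), v (Sum.inr i), (h i).1, (h i).2⟩, ?_⟩
      ext1 i
      rcases i with i | i
      · rfl
      · rfl
  rw [this]
  simp only [Set.ofPred_forall]
  refine isClosed_iInter fun i => ?_
  have h1 : Continuous (fun v : Fin r ⊕ Fin r → Mat n => v (Sum.inl i)) := continuous_apply _
  have h2 : Continuous (fun v : Fin r ⊕ Fin r → Mat n => v (Sum.inr i)) := continuous_apply _
  exact (isClosed_eq (h1.matrix_mul h2) continuous_const).inter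
    (isClosed_eq (h2.matrix_mul h1) continuous_const)

theorem isClosedEmbedding_emb :
    IsClosedEmbedding (emb : (Fin r → GLn n) → Fin r ⊕ Fin r → Mat n) :=
  ⟨⟨isInducing_emb, emb_injective⟩, isClosed_range_emb⟩

/-! ### the evaluation on the generators -/

/-- the subgroup `b G b⁻¹` -/
def cjG (b : GLn n) (G : Subgroup (GLn n)) : Subgroup (GLn n) :=
  G.map (MulAut.conj b).toMonoidHom

theorem mem_cjG {b : GLn n} {G : Subgroup (GLn n)} {g : GLn n} :
    g ∈ cjG b G ↔ b⁻¹ * g * b ∈ G := by
  constructor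
  · rintro ⟨h, hh, rfl⟩
    simpa [mul_assoc] using hh
  · intro h
    exact ⟨b⁻¹ * g * b, h, by simp [mul_assoc]⟩

theorem conj_mem_cjG {b : GLn n} {G : Subgroup (GLn n)} {g : GLn n} (hg : g ∈ G) :
    b * g * b⁻¹ ∈ cjG b G := by
  rw [mem_cjG]
  simpa [mul_assoc] using hg

section

variable {N : Fin r → ℕ}

/-- images of the generators, conjugated by `b` -/
def ev (b : GLn n) {G : Subgroup (GLn n)} (ρ : Rep (torusGens N) G) : Fin r → GLn n :=
  fun i => b * (ρ.hom (torusGens N i) : GLn n) * b⁻¹

theorem rep_continuous_ev0 (G : Subgroup (GLn n)) :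
    IsInducing (fun (ρ : Rep (torusGens N) G) (i : Fin r) => ρ.hom (torusGens N i)) := ⟨rfl⟩

theorem isInducing_conj_val (b : GLn n) (G : Subgroup (GLn n)) :
    IsInducing (fun g : G => b * (g : GLn n) * b⁻¹) := by
  have h1 : IsInducing (fun g : GLn n => b * g * b⁻¹) := by
    have h2 := ((Homeomorph.mulLeft b).trans (Homeomorph.mulRight b⁻¹)).isInducing
    exact h2
  exact h1.comp IsInducing.subtypeVal

theorem isInducing_ev (b : GLn n) (G : Subgroup (GLn n)) :
    IsInducing (ev b : Rep (torusGens N) G → Fin r → GLn n) := by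
  have h1 : IsInducing (Pi.map fun (_ : Fin r) (g : G) => b * (g : GLn n) * b⁻¹) :=
    IsInducing.piMap fun _ => isInducing_conj_val b G
  exact h1.comp (rep_continuous_ev0 G)

theorem rep_ext {H : Type} [Group H] {ρ σ : Rep (torusGens N) H}
    (h : ∀ i, ρ.hom (torusGens N i) = σ.hom (torusGens N i)) : ρ = σ := by
  have : ρ.hom = σ.hom := PresentedGroup.ext h
  exact this

theorem ev_injective (b : GLn n) (G : Subgroup (GLn n)) :
    Function.Injective (ev b : Rep (torusGens N) G → Fin r → GLn n) := by
  intro ρ σ h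
  apply rep_ext
  intro i
  have h1 := congrFun h i
  simp only [ev] at h1
  apply Subtype.ext
  exact mul_left_cancel (mul_right_cancel h1)

theorem hom_relation {H : Type} [Group H] (ρ : Rep (torusGens N) H) (i j : Fin r) :
    ρ.hom (torusGens N i) ^ N i = ρ.hom (torusGens N j) ^ N j := by
  rw [← map_pow, ← map_pow]
  congr 1
  have : (PresentedGroup.mk {w : FreeGroup (Fin r) |
    ∃ i j, w = FreeGroup.of i ^ N i * (FreeGroup.of j ^ N j)⁻¹})
      (FreeGroup.of i ^ N i * (FreeGroup.of j ^ N j)⁻¹) = 1 :=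
    PresentedGroup.one_of_mem ⟨i, j, rfl⟩
  rw [map_mul, map_inv, map_pow, map_pow, mul_inv_eq_one] at this
  exact this

theorem mkRep_aux {H : Type} [Group H] (x : Fin r → H) (hx : ∀ i j, x i ^ N i = x j ^ N j) :
    ∀ w ∈ {w : FreeGroup (Fin r) | ∃ i j, w = FreeGroup.of i ^ N i * (FreeGroup.of j ^ N j)⁻¹},
      FreeGroup.lift x w = 1 := by
  rintro w ⟨i, j, rfl⟩
  simp [hx i j]

/-- a tuple satisfying the relations defines a homomorphism -/
noncomputable def mkRep {H : Type} [Group H] (x : Fin r → H)
    (hx : ∀ i j, x i ^ N i = x j ^ N j) : Rep (torusGens N) H :=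
  (PresentedGroup.toGroup (mkRep_aux x hx) : TorusKnotGroup N →* H)

theorem mkRep_apply {H : Type} [Group H] (x : Fin r → H)
    (hx : ∀ i j, x i ^ N i = x j ^ N j) (i : Fin r) :
    (mkRep x hx).hom (torusGens N i) = x i :=
  PresentedGroup.toGroup.of (mkRep_aux x hx)

theorem range_ev (b : GLn n) (G : Subgroup (GLn n)) :
    Set.range (ev b : Rep (torusGens N) G → Fin r → GLn n) = TT N (cjG b G) := by
  ext x
  constructor
  · rintro ⟨ρ, rfl⟩
    refine ⟨fun i => conj_mem_cjG (ρ.hom (torusGens N i)).2, fun i j => ?_⟩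
    have := congrArg (Subtype.val) (hom_relation ρ i j)
    simp only [SubmonoidClass.coe_pow] at this
    simp only [ev, conj_pow, this]
  · rintro ⟨h1, h2⟩
    refine ⟨mkRep (fun i => ⟨b⁻¹ * x i * b, mem_cjG.1 (h1 i)⟩) ?_, ?_⟩
    · intro i j
      apply Subtype.ext
      simp only [SubmonoidClass.coe_pow]
      have h3 : ∀ i, (b⁻¹ * x i * b) ^ N i = b⁻¹ * x i ^ N i * b := by
        intro i
        have := conj_pow (i := N i) (a := b⁻¹) (b := x i)
        simpa using this
      rw [h3, h3, h2 i j]
    · ext1 i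
      simp only [ev, mkRep_apply]
      simp [mul_assoc]

theorem ev_conjRep (b : GLn n) {G : Subgroup (GLn n)} (g : G) (ρ : Rep (torusGens N) G) :
    ev b (conjRep g ρ) = cjt (b * (g : GLn n) * b⁻¹) (ev b ρ) := by
  ext1 i
  have : (conjRep g ρ).hom (torusGens N i) = g * ρ.hom (torusGens N i) * g⁻¹ := rfl
  simp only [ev, cjt, this]
  simp [mul_assoc, _root_.mul_inv_rev]

theorem continuous_conjRep {H : Type} [Group H] [TopologicalSpace H] [IsTopologicalGroup H]
    {Γ : Type} [Group Γ] {a : Fin r → Γ} (h : H) :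
    Continuous (conjRep h : Rep a H → Rep a H) := by
  have h0 : IsInducing (fun (ρ : Rep a H) (i : Fin r) => ρ.hom (a i)) := ⟨rfl⟩
  rw [h0.continuous_iff]
  refine continuous_pi fun i => ?_
  have h1 : Continuous (fun ρ : Rep a H => ρ.hom (a i)) :=
    (continuous_apply i).comp h0.continuous
  have h2 : Continuous (fun ρ : Rep a H => h * ρ.hom (a i) * h⁻¹) :=
    (continuous_const.mul h1).mul continuous_const
  exact h2

theorem open_saturation {H : Type} [Group H] [TopologicalSpace H] [IsTopologicalGroup H]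
    {Γ : Type} [Group Γ] {a : Fin r → Γ} (U : Set (Rep a H)) (hU : IsOpen U) :
    IsOpen {z | ∃ u ∈ U, (repSetoid a H).r u z} := by
  have : {z | ∃ u ∈ U, (repSetoid a H).r u z} = ⋃ h : H, (conjRep h) ⁻¹' U := by
    ext z
    simp only [Set.mem_iUnion, Set.mem_preimage]
    constructor
    · rintro ⟨u, hu, h⟩
      obtain ⟨h, h1⟩ := (repSetoid a H).symm h
      exact ⟨h, by rw [← h1]; exact hu⟩
    · rintro ⟨h, hz⟩
      exact ⟨conjRep h z, hz, (repSetoid a H).symm ⟨h, rfl⟩⟩
  rw [this]
  exact isOpen_iUnion fun h => hU.preimage (continuous_conjRep h)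

theorem orbRep_eq {H : Type} [Group H] {Γ : Type} [Group Γ] {a : Fin r → Γ} {ρ σ : Rep a H}
    (h : σ ∈ orbRep ρ) : orbRep σ = orbRep ρ := by
  ext τ
  constructor
  · intro hτ
    exact (repSetoid a H).trans (show (repSetoid a H).r ρ σ from h) hτ
  · intro hτ
    exact (repSetoid a H).trans ((repSetoid a H).symm (show (repSetoid a H).r ρ σ from h)) hτ

/-- the main assembly -/
theorem coreSDR (hlim : StLim) (hco : StClosedOrb) (hdef : StDeform) (hkm : StKMin)
    (hcpt : StCpt) (hr : 0 < r) (hN : ∀ i, 0 < N i) (G K : Subgroup (GLn n)) (hKG : K ≤ G)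
    (b : GLn n) (hSA : SA (cjG b G)) (hZ : IsZariskiDense (KK (cjG b G)) (cjG b G))
    (hK : ∀ g ∈ G, g ∈ K ↔ b * g * b⁻¹ ∈ UU n) :
    ∃ hcl : ∀ ρ : Rep (torusGens N) K, inclRep hKG ρ ∈ closedReps (torusGens N) G,
      IsSDR (iG hKG (torusGens N) hcl) := by
  classical
  set G' := cjG b G with hG'
  obtain ⟨hcl1, -, -, -, hcpt5⟩ := hcpt
  obtain ⟨hL1, hL2, hL3, hL4⟩ := hlim n (Fin r ⊕ Fin r) G' hSA hZ
  have hG'cl : IsClosed (G' : Set (GLn n)) := hcl1 n G' hSA.alg
  -- `ev` is a closed embedding
  have hTT : IsClosed (TT N G') := by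
    have : TT N G' = (⋂ i, {x | x i ∈ (G' : Set (GLn n))}) ∩
        ⋂ i, ⋂ j, {x : Fin r → GLn n | x i ^ N i = x j ^ N j} := by
      ext x; simp [TT]
    rw [this]
    refine (isClosed_iInter fun i => hG'cl.preimage (continuous_apply i)).inter
      (isClosed_iInter fun i => isClosed_iInter fun j => ?_)
    exact isClosed_eq ((continuous_apply i).pow _) ((continuous_apply j).pow _)
  have hev : IsClosedEmbedding (ev b : Rep (torusGens N) G → Fin r → GLn n) :=
    ⟨⟨isInducing_ev b G, ev_injective b G⟩, by rw [range_ev]; exact hTT⟩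
  set e : Rep (torusGens N) G → (Fin r ⊕ Fin r → Mat n) := fun ρ => emb (ev b ρ) with he
  have hecl : IsClosedEmbedding e := isClosedEmbedding_emb.comp hev
  have heconj : ∀ (g : G) (ρ : Rep (torusGens N) G),
      e (conjRep g ρ) = act (b * (g : GLn n) * b⁻¹) (e ρ) := by
    intro g ρ
    simp only [he]
    rw [ev_conjRep, emb_cjt]
  have hmemG' : ∀ g : G, b * (g : GLn n) * b⁻¹ ∈ G' := fun g => conj_mem_cjG g.2
  have hOrb : ∀ ρ : Rep (torusGens N) G, Orb G' (e ρ) = e '' orbRep ρ := by
    intro ρ
    ext w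
    constructor
    · rintro ⟨g, hg, rfl⟩
      refine ⟨conjRep ⟨b⁻¹ * g * b, mem_cjG.1 hg⟩ ρ, ⟨_, rfl⟩, ?_⟩
      rw [heconj]
      simp [mul_assoc]
    · rintro ⟨σ, ⟨g, rfl⟩, rfl⟩
      exact ⟨_, hmemG' g, heconj g ρ⟩
  have hOrbcl : ∀ ρ : Rep (torusGens N) G, IsClosed (orbRep ρ) ↔ IsClosed (Orb G' (e ρ)) := by
    intro ρ
    rw [hOrb]
    exact hecl.isClosed_iff_image_isClosed
  -- homomorphisms to `K`
  have hjmin : ∀ ρ : Rep (torusGens N) K, IsMin G' (e (inclRep hKG ρ)) := by
    intro ρ
    refine hkm n r G' _ fun i => ?_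
    have h1 : ((inclRep hKG ρ).hom (torusGens N i) : GLn n) = (ρ.hom (torusGens N i) : GLn n) :=
      rfl
    simp only [ev, h1]
    exact (hK _ (hKG (ρ.hom (torusGens N i)).2)).1 (ρ.hom (torusGens N i)).2
  have hjU : ∀ ρ : Rep (torusGens N) K, ∀ i, ev b (inclRep hKG ρ) i ∈ UU n := by
    intro ρ i
    have h1 : ((inclRep hKG ρ).hom (torusGens N i) : GLn n) = (ρ.hom (torusGens N i) : GLn n) :=
      rfl
    simp only [ev, h1]
    exact (hK _ (hKG (ρ.hom (torusGens N i)).2)).1 (ρ.hom (torusGens N i)).2
  have hcl : ∀ ρ : Rep (torusGens N) K, inclRep hKG ρ ∈ closedReps (torusGens N) G := by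
    intro ρ
    exact (hOrbcl _).2 (hco n _ G' hSA _ (hjmin ρ))
  refine ⟨hcl, ?_⟩
  -- the deformation
  obtain ⟨S, hSc, hS⟩ := hdef n r N G' hr hN hSA
  have hevTT : ∀ ρ : Rep (torusGens N) G, ev b ρ ∈ TT N G' := by
    intro ρ
    rw [hG', ← range_ev]
    exact ⟨ρ, rfl⟩
  have hpre : ∀ (ρ : Rep (torusGens N) G) (t : ℝ), ∃ σ : Rep (torusGens N) G,
      (IsMin G' (e ρ) ∧ t ∈ Set.Icc (0 : ℝ) 1) → ev b σ = S (ev b ρ) t := by
    intro ρ t
    by_cases h : IsMin G' (e ρ) ∧ t ∈ Set.Icc (0 : ℝ) 1
    · have h1 := (hS _ (hevTT ρ) h.1).1 t h.2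
      rw [hG', ← range_ev] at h1
      obtain ⟨σ, hσ⟩ := h1
      exact ⟨σ, fun _ => hσ⟩
    · exact ⟨ρ, fun h' => (h h').elim⟩
  choose D hD using hpre
  let Mn : Set (Rep (torusGens N) G) := {ρ | IsMin G' (e ρ)}
  let E : Rep (torusGens N) G → Rep (torusGens N) G → Prop :=
    fun ρ σ => ∃ k : G, (k : GLn n) ∈ K ∧ σ = conjRep k ρ
  have hKK : ∀ k : G, (k : GLn n) ∈ K → b * (k : GLn n) * b⁻¹ ∈ KK G' := fun k hk =>
    ⟨hmemG' k, (hK _ k.2).1 hk⟩
  have hdata : AsmData (repSetoid (torusGens N) G) (repSetoid (torusGens N) K)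
      (closedReps (torusGens N) G) Mn (inclRep hKG) (fun ρ σ => Lim G' (e ρ) (e σ)) E D :=
    { openZ := fun U hU => open_saturation U hU
      openY := fun U hU => open_saturation U hU
      satP := by
        intro x y hxy hx
        change IsClosed (orbRep y)
        rw [orbRep_eq (show y ∈ orbRep x from hxy)]
        exact hx
      jemb := by
        have h0 : IsInducing (fun (ρ : Rep (torusGens N) G) (i : Fin r) =>
          ρ.hom (torusGens N i)) := ⟨rfl⟩
        have h0K : IsInducing (fun (ρ : Rep (torusGens N) K) (i : Fin r) =>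
          ρ.hom (torusGens N i)) := ⟨rfl⟩
        have h1 : IsInducing (Subgroup.inclusion hKG) := by
          have h2 : IsInducing ((Subtype.val : G → GLn n) ∘ Subgroup.inclusion hKG) :=
            IsInducing.subtypeVal
          exact (IsInducing.subtypeVal.of_comp_iff).1 h2
        have h3 : IsInducing (Pi.map fun (_ : Fin r) (k : K) => Subgroup.inclusion hKG k) :=
          IsInducing.piMap fun _ => h1
        refine ⟨(h0.of_comp_iff).1 (h3.comp h0K), ?_⟩
        intro ρ σ h
        apply rep_ext
        intro i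
        have h4 : (inclRep hKG ρ).hom (torusGens N i) = (inclRep hKG σ).hom (torusGens N i) := by
          rw [h]
        exact Subgroup.inclusion_injective hKG h4
      jrel := by
        rintro y y' ⟨k, rfl⟩
        exact ⟨Subgroup.inclusion hKG k, rfl⟩
      jMn := hjmin
      MnP := fun ρ hρ => (hOrbcl _).2 (hco n _ G' hSA _ hρ)
      Rtot := by
        intro ρ
        obtain ⟨m, hm⟩ := hL1 (e ρ)
        have h1 : m ∈ Set.range e := by
          have h2 : closure (Orb G' (e ρ)) ⊆ Set.range e := by
            apply closure_minimal _ hecl.isClosed_range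
            rw [hOrb]
            exact Set.image_subset_range _ _
          exact h2 hm.2
        obtain ⟨σ, rfl⟩ := h1
        exact ⟨σ, hm⟩
      RMn := fun x m h => h.1
      Rself := fun m hm => lim_self hm
      Rcl := by
        have h1 : Continuous (fun p : Rep (torusGens N) G × Rep (torusGens N) G =>
            (e p.1, e p.2)) :=
          (hecl.continuous.comp continuous_fst).prodMk (hecl.continuous.comp continuous_snd)
        exact hL4.preimage h1
      Rprop := by
        intro x
        refine ⟨{y | nsq (e y) < nsq (e x) + 1}, ?_, e ⁻¹' {v | nsq v ≤ nsq (e x) + 1}, ?_, ?_⟩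
        · refine IsOpen.mem_nhds ?_ ?_
          · have h1 : Continuous (fun y => nsq (e y)) := continuous_nsq.comp hecl.continuous
            exact isOpen_lt h1 continuous_const
          · change nsq (e x) < nsq (e x) + 1
            linarith
        · exact hecl.isProperMap.isCompact_preimage (hcpt5 n _ _)
        · intro y hy m hm
          exact (hL2 _ _ hm).trans (le_of_lt hy)
      Rrel := by
        rintro x x' m ⟨g, rfl⟩ hm
        rw [heconj, lim_act (hmemG' g)]
        exact hm
      RP := by
        intro x m hx hm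
        have h1 : e m ∈ Orb G' (e x) := by
          have h2 := hm.2
          rwa [((hOrbcl x).1 hx).closure_eq] at h2
        rw [hOrb] at h1
        obtain ⟨σ, hσ, h3⟩ := h1
        rw [← hecl.injective h3]
        exact hσ
      RE := by
        intro x m m' hm hm'
        obtain ⟨k, hk, h1⟩ := hL3 _ _ _ hm hm'
        refine ⟨⟨b⁻¹ * k * b, mem_cjG.1 (mem_KK.1 hk).1⟩, ?_, ?_⟩
        · rw [hK _ (mem_cjG.1 (mem_KK.1 hk).1)]
          simpa [mul_assoc] using (mem_KK.1 hk).2
        · apply hecl.injective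
          rw [heconj, h1]
          simp [mul_assoc]
      EZ := by
        rintro x y ⟨k, -, rfl⟩
        exact ⟨k, rfl⟩
      EY := by
        rintro y y' ⟨k, hk, h1⟩
        refine ⟨⟨k, hk⟩, ?_⟩
        apply rep_ext
        intro i
        apply Subgroup.inclusion_injective hKG
        have h2 : (inclRep hKG y').hom (torusGens N i) =
          (conjRep k (inclRep hKG y)).hom (torusGens N i) := by rw [h1]
        exact h2
      Dcont := by
        rw [(isInducing_ev b G).continuousOn_iff]
        have h1 : Continuous (fun p : Rep (torusGens N) G × ℝ => ((ev b p.1, p.2) :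
            (Fin r → GLn n) × ℝ)) :=
          ((isInducing_ev b G).continuous.comp continuous_fst).prodMk continuous_snd
        have h2 : ContinuousOn (fun p : Rep (torusGens N) G × ℝ => S (ev b p.1) p.2)
            (Mn ×ˢ Set.Icc 0 1) := by
          have h3 := hSc.comp h1.continuousOn (s := Mn ×ˢ Set.Icc 0 1)
            (fun p hp => ⟨⟨hevTT p.1, hp.1⟩, hp.2⟩)
          exact h3
        exact h2.congr fun p hp => hD p.1 p.2 hp
      D0 := by
        intro m hm
        apply ev_injective b G
        rw [hD m 0 ⟨hm, by norm_num⟩]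
        exact (hS _ (hevTT m) hm).2.1
      D1 := by
        intro m hm
        have h1 := hD m 1 ⟨hm, by norm_num⟩
        have h2 := (hS _ (hevTT m) hm).2.2.1
        have h3 : ∀ i, (((D m 1).hom (torusGens N i) : G) : GLn n) ∈ K := by
          intro i
          rw [hK _ ((D m 1).hom (torusGens N i)).2]
          have h4 := h2 i
          rw [← h1] at h4
          exact h4
        refine ⟨mkRep (fun i => ⟨_, h3 i⟩) ?_, ?_⟩
        · intro i j
          apply Subtype.ext
          simp only [SubmonoidClass.coe_pow]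
          have h5 := congrArg Subtype.val (hom_relation (D m 1) i j)
          simpa only [SubmonoidClass.coe_pow] using h5
        · apply rep_ext
          intro i
          apply Subtype.ext
          have h6 : ((inclRep hKG (mkRep (N := N) (fun i => (⟨_, h3 i⟩ : K)) (by
            intro i j
            apply Subtype.ext
            simp only [SubmonoidClass.coe_pow]
            have h5 := congrArg Subtype.val (hom_relation (D m 1) i j)
            simpa only [SubmonoidClass.coe_pow] using h5))).hom (torusGens N i) : GLn n) =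
            ((mkRep (N := N) (fun i => (⟨_, h3 i⟩ : K)) (by
            intro i j
            apply Subtype.ext
            simp only [SubmonoidClass.coe_pow]
            have h5 := congrArg Subtype.val (hom_relation (D m 1) i j)
            simpa only [SubmonoidClass.coe_pow] using h5)).hom (torusGens N i) : GLn n) := rfl
          rw [h6, mkRep_apply]
      DE := by
        rintro m hm m' hm' ⟨k, hk, rfl⟩ t ht
        refine ⟨k, hk, ?_⟩
        apply ev_injective b G
        rw [hD _ t ⟨hm', ht⟩, ev_conjRep, ev_conjRep, hD m t ⟨hm, ht⟩]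
        exact (hS _ (hevTT m) hm).2.2.2.1 _ (hKK k hk) t ht
      Dj := by
        intro y t ht
        apply ev_injective b G
        rw [hD _ t ⟨hjmin y, ht⟩]
        exact (hS _ (hevTT _) (hjmin y)).2.2.2.2 (hjU y) t ht }
  exact sdr_of_data hdata _ (fun y => rfl)

end

end Flawed
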