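import Pool.Agent.Helper78.FL.AsmCore

/-!
Reduction of the general case to `coreSDR`.
-/

open Matrix Topology Filter
open scoped ComplexConjugate ComplexOrder

namespace Flawed

variable {n r : ℕ}

/-- substitute `b x b⁻¹` in a polynomial -/
noncomputable def subP (b : GLn n) (f : MvPolynomial (Fin n × Fin n) ℂ) :
    MvPolynomial (Fin n × Fin n) ℂ :=
  MvPolynomial.bind₁ (fun p : Fin n × Fin n => ∑ k, ∑ l,
    MvPolynomial.C ((b : Mat n) p.1 k * ((b⁻¹ : GLn n) : Mat n) l p.2) *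
      MvPolynomial.X (k, l)) f

theorem pev_subP (b : GLn n) (f : MvPolynomial (Fin n × Fin n) ℂ) (x : Mat n) :
    pev (subP b f) x = pev f ((b : Mat n) * x * ((b⁻¹ : GLn n) : Mat n)) := by
  induction f using MvPolynomial.induction_on with
  | C a => simp [pev, subP]
  | add p q hp hq =>
    simp only [pev, subP, map_add] at *
    rw [hp, hq]
  | mul_X p i hp =>
    simp only [pev, subP, map_mul] at *
    rw [hp]
    congr 1
    simp only [MvPolynomial.bind₁_X_right, map_sum, map_mul, MvPolynomial.eval_C,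
      MvPolynomial.eval_X, Matrix.mul_apply, Finset.sum_mul]
    rw [Finset.sum_comm]
    refine Finset.sum_congr rfl fun k _ => Finset.sum_congr rfl fun l _ => ?_
    ring

theorem IsAlgebraic.cjG {G : Subgroup (GLn n)} (h : IsAlgebraic G) (b : GLn n) :
    IsAlgebraic (cjG b G) := by
  obtain ⟨S, hS⟩ := h
  refine ⟨subP b⁻¹ '' S, fun g => ?_⟩
  rw [mem_cjG, hS]
  constructor
  · rintro h f ⟨f, hf, rfl⟩
    rw [pev_subP]
    have := h f hf
    simpa using this
  · intro h f hf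
    have := h _ ⟨f, hf, rfl⟩
    rw [pev_subP] at this
    simpa using this

theorem IsZariskiDense.cjG {K G : Subgroup (GLn n)} (h : IsZariskiDense K G) (b : GLn n) :
    IsZariskiDense (cjG b K) (cjG b G) := by
  refine ⟨Subgroup.map_mono h.1, fun f hf g hg => ?_⟩
  rw [mem_cjG] at hg
  have h1 := h.2 (subP b f) (fun k hk => by
    rw [pev_subP]
    have := hf _ (conj_mem_cjG (b := b) hk)
    simpa using this) _ hg
  rw [pev_subP] at h1
  have h2 : (b : Mat n) * ((b⁻¹ * g * b : GLn n) : Mat n) * ((b⁻¹ : GLn n) : Mat n) =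
      (g : Mat n) := by
    rw [← Units.val_mul, ← Units.val_mul]
    congr 1
    simp [mul_assoc]
  rwa [h2] at h1

theorem isCompact_cjG {K : Subgroup (GLn n)} (h : IsCompact (K : Set (GLn n))) (b : GLn n) :
    IsCompact (cjG b K : Set (GLn n)) := by
  have h1 : (cjG b K : Set (GLn n)) = (fun g => b * g * b⁻¹) '' (K : Set (GLn n)) := rfl
  rw [h1]
  exact h.image ((continuous_const.mul continuous_id).mul continuous_const)

theorem cjG_mul (g b : GLn n) (G : Subgroup (GLn n)) : cjG (g * b) G = cjG g (cjG b G) := by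
  ext x
  rw [mem_cjG, mem_cjG, mem_cjG]
  simp [mul_assoc]

theorem cjG_self {g : GLn n} {G : Subgroup (GLn n)} (hg : g ∈ G) : cjG g G = G := by
  ext x
  rw [mem_cjG]
  constructor
  · intro h
    have := G.mul_mem (G.mul_mem hg h) (G.inv_mem hg)
    simpa [mul_assoc] using this
  · intro h
    exact G.mul_mem (G.mul_mem (G.inv_mem hg) h) hg

theorem flawed_of (hlim : StLim) (hco : StClosedOrb) (hdef : StDeform) (hkm : StKMin)
    (hcpt : StCpt) (hut : StUTrick) (hsa : StSelfAdj) (hrf : StRealForm) (hca : StCartan)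
    (N : Fin r → ℕ) (hr : 1 ≤ r) (hN : ∀ i, 1 ≤ N i) : IsFlawed (torusGens N) := by
  intro n G K hG hK
  obtain ⟨halg, K₀, hK₀c, hK₀d⟩ := hG
  obtain ⟨b, hb⟩ := hut n K₀ hK₀c
  have halg' : IsAlgebraic (cjG b G) := halg.cjG b
  have hd' : IsZariskiDense (cjG b K₀) (cjG b G) := hK₀d.cjG b
  have hKU : cjG b K₀ ≤ UU n := by
    rintro g ⟨k, hk, rfl⟩
    exact hb k hk
  have hSA : SA (cjG b G) := ⟨halg', hsa n _ _ halg' hd' hKU⟩
  have hKK : KK (cjG b G) = cjG b K₀ :=
    le_antisymm (hrf n _ _ (isCompact_cjG hK₀c b) hd' hKU) (le_inf hd'.1 hKU)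
  have hd2 : IsZariskiDense (KK (cjG b G)) (cjG b G) := by rw [hKK]; exact hd'
  obtain ⟨g, hg, hgU⟩ := hca n (cjG b G) (cjG b K) hSA (Subgroup.map_mono hK.le)
    (isCompact_cjG hK.cpt b)
  have hG2 : cjG (g * b) G = cjG b G := by rw [cjG_mul, cjG_self hg]
  have hKU2 : ∀ k ∈ K, g * b * k * (g * b)⁻¹ ∈ UU n := by
    intro k hk
    have := hgU _ (conj_mem_cjG (b := b) hk)
    simpa [mul_assoc, _root_.mul_inv_rev] using this
  refine coreSDR hlim hco hdef hkm hcpt hr hN G K hK.le (g * b) (by rwa [hG2]) (by rwa [hG2]) ?_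
  intro x hx
  constructor
  · exact hKU2 x
  · intro hxU
    -- the compact subgroup of the elements of `G` which become unitary
    have hLc : IsCompact (cjG (g * b)⁻¹ (KK (cjG b G)) : Set (GLn n)) :=
      isCompact_cjG (hcpt.2.2.2.1 n _ halg') _
    have hmem : ∀ y : GLn n, y ∈ cjG (g * b)⁻¹ (KK (cjG b G)) ↔
        y ∈ G ∧ g * b * y * (g * b)⁻¹ ∈ UU n := by
      intro y
      rw [mem_cjG, inv_inv, mem_KK]
      rw [← hG2, mem_cjG]
      simp [mul_assoc]
    have hL := hK.max (cjG (g * b)⁻¹ (KK (cjG b G)))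
      (fun k hk => (hmem k).2 ⟨hK.le hk, hKU2 k hk⟩) (fun y hy => ((hmem y).1 hy).1) hLc
    rw [← hL]
    exact (hmem x).2 ⟨hx, hxU⟩

end Flawed
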