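import Mathlib

/-!
Linear algebraic groups over `ℂ` (MP_1b2618_al).
-/

namespace Flawed

/-- complex `n × n` matrices -/
abbrev Mat (n : ℕ) := Matrix (Fin n) (Fin n) ℂ

/-- `GL_n(ℂ)`, with its usual topology -/
abbrev GLn (n : ℕ) := GL (Fin n) ℂ

/-- the value at the matrix `x` of a polynomial in the `n ^ 2` matrix entries -/
noncomputable def pev {n : ℕ} (f : MvPolynomial (Fin n × Fin n) ℂ) (x : Mat n) : ℂ :=
  MvPolynomial.eval (fun p => x p.1 p.2) f

/-- `G` is a Zariski closed subgroup of `GL_n(ℂ)` -/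
def IsAlgebraic {n : ℕ} (G : Subgroup (GLn n)) : Prop :=
  ∃ S : Set (MvPolynomial (Fin n × Fin n) ℂ),
    ∀ g : GLn n, g ∈ G ↔ ∀ f ∈ S, pev f (g : Mat n) = 0

/-- `K` is contained in `G` and Zariski dense in it -/
def IsZariskiDense {n : ℕ} (K G : Subgroup (GLn n)) : Prop :=
  K ≤ G ∧ ∀ f : MvPolynomial (Fin n × Fin n) ℂ,
    (∀ k ∈ K, pev f (k : Mat n) = 0) → ∀ g ∈ G, pev f (g : Mat n) = 0

end Flawed
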