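import Pool.Agent.Helper78.FL.Defs

open Matrix MeasureTheory
open scoped ComplexConjugate

namespace Flawed

variable {ι : Type} [Fintype ι] {n : ℕ}

/-! ### norms and inner products -/

theorem nm_eq_trace (x : Mat n) : (nm x : ℂ) = Matrix.trace (x * xᴴ) := by
  simp only [nm, Matrix.trace, Matrix.diag, Matrix.mul_apply, Matrix.conjTranspose_apply]
  push_cast
  refine Finset.sum_congr rfl fun a _ => Finset.sum_congr rfl fun b _ => ?_
  rw [RCLike.star_def, Complex.mul_conj, Complex.normSq_eq_norm_sq]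
  push_cast
  rfl

theorem ip_eq_trace (v w : ι → Mat n) : ip v w = ∑ i, Matrix.trace (v i * (w i)ᴴ) := by
  simp only [ip, Matrix.trace, Matrix.diag, Matrix.mul_apply, Matrix.conjTranspose_apply]
  rfl

theorem ip_self (v : ι → Mat n) : ip v v = (nsq v : ℂ) := by
  rw [ip_eq_trace, nsq]
  push_cast
  exact Finset.sum_congr rfl fun i _ => (nm_eq_trace _).symm

theorem nm_nonneg (x : Mat n) : 0 ≤ nm x :=
  Finset.sum_nonneg fun _ _ => Finset.sum_nonneg fun _ _ => by positivity

theorem nsq_nonneg (v : ι → Mat n) : 0 ≤ nsq v := Finset.sum_nonneg fun _ _ => nm_nonneg _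

theorem nm_eq_zero {x : Mat n} : nm x = 0 ↔ x = 0 := by
  constructor
  · intro h
    ext a b
    rw [nm, Finset.sum_eq_zero_iff_of_nonneg
      (fun _ _ => Finset.sum_nonneg fun _ _ => by positivity)] at h
    have h1 := h a (Finset.mem_univ _)
    rw [Finset.sum_eq_zero_iff_of_nonneg (fun _ _ => by positivity)] at h1
    have h2 := h1 b (Finset.mem_univ _)
    simpa using h2
  · rintro rfl
    simp [nm]

theorem nsq_eq_zero {v : ι → Mat n} : nsq v = 0 ↔ v = 0 := by
  constructor
  · intro h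
    rw [nsq, Finset.sum_eq_zero_iff_of_nonneg (fun _ _ => nm_nonneg _)] at h
    ext1 i
    exact nm_eq_zero.1 (h i (Finset.mem_univ _))
  · rintro rfl
    simp [nsq, nm]

theorem nm_le_nsq (v : ι → Mat n) (i : ι) : nm (v i) ≤ nsq v :=
  Finset.single_le_sum (f := fun i => nm (v i)) (fun _ _ => nm_nonneg _) (Finset.mem_univ i)

theorem norm_sq_entry_le_nm (x : Mat n) (a b : Fin n) : ‖x a b‖ ^ 2 ≤ nm x :=
  (Finset.single_le_sum (f := fun b => ‖x a b‖ ^ 2) (fun _ _ => by positivity)
    (Finset.mem_univ b)).trans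
    (Finset.single_le_sum (f := fun a => ∑ b, ‖x a b‖ ^ 2)
      (fun _ _ => Finset.sum_nonneg fun _ _ => by positivity) (Finset.mem_univ a))

theorem ip_conj (v w : ι → Mat n) : ip w v = conj (ip v w) := by
  simp only [ip, map_sum, map_mul, Complex.conj_conj]
  exact Finset.sum_congr rfl fun _ _ => Finset.sum_congr rfl fun _ _ =>
    Finset.sum_congr rfl fun _ _ => mul_comm _ _

theorem ip_add_left (v v' w : ι → Mat n) : ip (v + v') w = ip v w + ip v' w := by
  simp only [ip, Pi.add_apply, Matrix.add_apply, add_mul, Finset.sum_add_distrib]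

theorem ip_sub_left (v v' w : ι → Mat n) : ip (v - v') w = ip v w - ip v' w := by
  simp only [ip, Pi.sub_apply, Matrix.sub_apply, sub_mul, Finset.sum_sub_distrib]

theorem ip_sub_right (v w w' : ι → Mat n) : ip v (w - w') = ip v w - ip v w' := by
  simp only [ip, Pi.sub_apply, Matrix.sub_apply, map_sub, mul_sub, Finset.sum_sub_distrib]

theorem nsq_sub (v w : ι → Mat n) : nsq (v - w) = nsq v + nsq w - 2 * (ip v w).re := by
  have h : (nsq (v - w) : ℂ) = nsq v + nsq w - (ip v w + conj (ip v w)) := by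
    rw [← ip_self, ← ip_self, ← ip_self, ip_sub_left, ip_sub_right, ip_sub_right, ip_conj v w]
    ring
  have := congrArg Complex.re h
  simp only [Complex.ofReal_re, Complex.add_re, Complex.sub_re, Complex.conj_re] at this
  linarith

theorem nsq_sub_comm (v w : ι → Mat n) : nsq (v - w) = nsq (w - v) := by
  rw [nsq_sub, nsq_sub, ip_conj v w, Complex.conj_re]; ring

/-- Cauchy–Schwarz -/
theorem norm_ip_sq_le (v w : ι → Mat n) : ‖ip v w‖ ^ 2 ≤ nsq v * nsq w := by
  have h1 : ‖ip v w‖ ≤ ∑ p : ι × Fin n × Fin n, ‖v p.1 p.2.1 p.2.2‖ * ‖w p.1 p.2.1 p.2.2‖ := by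
    simp only [ip]
    rw [Fintype.sum_prod_type]
    refine (norm_sum_le _ _).trans (Finset.sum_le_sum fun i _ => ?_)
    rw [Fintype.sum_prod_type]
    refine (norm_sum_le _ _).trans (Finset.sum_le_sum fun a _ => ?_)
    refine (norm_sum_le _ _).trans (Finset.sum_le_sum fun b _ => ?_)
    rw [norm_mul, RCLike.norm_conj]
  have h2 := Finset.sum_mul_sq_le_sq_mul_sq (Finset.univ : Finset (ι × Fin n × Fin n))
    (fun p => ‖v p.1 p.2.1 p.2.2‖) (fun p => ‖w p.1 p.2.1 p.2.2‖)
  have h3 : ∀ v : ι → Mat n, ∑ p : ι × Fin n × Fin n, ‖v p.1 p.2.1 p.2.2‖ ^ 2 = nsq v := by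
    intro v
    rw [Fintype.sum_prod_type, nsq]
    refine Finset.sum_congr rfl fun i _ => ?_
    rw [Fintype.sum_prod_type, nm]
  rw [h3, h3] at h2
  exact (pow_le_pow_left₀ (norm_nonneg _) h1 2).trans h2

/-! ### the action -/

omit [Fintype ι] in
@[simp] theorem act_one (v : ι → Mat n) : act 1 v = v := by
  ext1 i; simp [act]

omit [Fintype ι] in
theorem act_mul (g h : GLn n) (v : ι → Mat n) : act (g * h) v = act g (act h v) := by
  ext1 i
  simp only [act, Units.val_mul, _root_.mul_inv_rev, mul_assoc]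

omit [Fintype ι] in
theorem act_inv_act (g : GLn n) (v : ι → Mat n) : act g⁻¹ (act g v) = v := by
  rw [← act_mul, inv_mul_cancel, act_one]

omit [Fintype ι] in
theorem act_act_inv (g : GLn n) (v : ι → Mat n) : act g (act g⁻¹ v) = v := by
  rw [← act_mul, mul_inv_cancel, act_one]

omit [Fintype ι] in
theorem act_sub (g : GLn n) (v w : ι → Mat n) : act g (v - w) = act g v - act g w := by
  ext1 i
  simp only [act, Pi.sub_apply, mul_sub, sub_mul]

theorem mem_UU {g : GLn n} : g ∈ UU n ↔ star g = g⁻¹ := Iff.rfl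

theorem mem_UU' {g : GLn n} : g ∈ UU n ↔ (g : Mat n)ᴴ = ((g⁻¹ : GLn n) : Mat n) := by
  rw [mem_UU, Units.ext_iff]
  rfl

theorem mem_KK {G : Subgroup (GLn n)} {g : GLn n} : g ∈ KK G ↔ g ∈ G ∧ g ∈ UU n := Iff.rfl

theorem ip_act {u : GLn n} (hu : u ∈ UU n) (v w : ι → Mat n) : ip (act u v) (act u w) = ip v w := by
  rw [ip_eq_trace, ip_eq_trace]
  refine Finset.sum_congr rfl fun i _ => ?_
  have h1 := mem_UU'.1 hu
  have h2 : (((u⁻¹ : GLn n) : Mat n))ᴴ = (u : Mat n) := by
    rw [← h1, conjTranspose_conjTranspose]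
  simp only [act, conjTranspose_mul, h1, h2]
  rw [show (u : Mat n) * v i * ((u⁻¹ : GLn n) : Mat n) *
      ((u : Mat n) * ((w i)ᴴ * ((u⁻¹ : GLn n) : Mat n))) =
      (u : Mat n) * v i * (((u⁻¹ : GLn n) : Mat n) * (u : Mat n)) *
      ((w i)ᴴ * ((u⁻¹ : GLn n) : Mat n)) by simp only [mul_assoc]]
  rw [Units.inv_mul, mul_one, ← mul_assoc, Matrix.trace_mul_comm, ← mul_assoc, ← mul_assoc,
    Units.inv_mul, one_mul]

theorem nsq_act {u : GLn n} (hu : u ∈ UU n) (v : ι → Mat n) : nsq (act u v) = nsq v := by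
  have := ip_act hu v v
  rw [ip_self, ip_self] at this
  exact_mod_cast this

/-! ### continuity -/

theorem continuous_nm : Continuous (nm : Mat n → ℝ) := by
  unfold nm; fun_prop

theorem continuous_nsq : Continuous (nsq : (ι → Mat n) → ℝ) := by
  refine continuous_finsetSum _ fun i _ => ?_
  have h : Continuous (fun v : ι → Mat n => v i) := continuous_apply i
  exact continuous_nm.comp h

omit [Fintype ι] in
theorem continuous_entry (i : ι) (a b : Fin n) : Continuous (fun v : ι → Mat n => v i a b) := by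
  have h : Continuous (fun v : ι → Mat n => v i) := continuous_apply i
  exact Continuous.matrix_elem h a b

theorem continuous_ip : Continuous (fun p : (ι → Mat n) × (ι → Mat n) => ip p.1 p.2) := by
  refine continuous_finsetSum _ fun i _ => continuous_finsetSum _ fun a _ =>
    continuous_finsetSum _ fun b _ => ?_
  exact ((continuous_entry i a b).comp continuous_fst).mul
    (Complex.continuous_conj.comp ((continuous_entry i a b).comp continuous_snd))

omit [Fintype ι] in
theorem continuous_act : Continuous (fun p : GLn n × (ι → Mat n) => act p.1 p.2) := by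
  refine continuous_pi fun i => ?_
  have h : Continuous (fun v : ι → Mat n => v i) := continuous_apply i
  have h1 : Continuous (fun p : GLn n × (ι → Mat n) => (p.1 : Mat n)) :=
    Units.continuous_val.comp continuous_fst
  have h2 : Continuous (fun p : GLn n × (ι → Mat n) => ((p.1⁻¹ : GLn n) : Mat n)) :=
    Units.continuous_val.comp (continuous_inv.comp continuous_fst)
  have h3 : Continuous (fun p : GLn n × (ι → Mat n) => p.2 i) := h.comp continuous_snd
  exact (h1.matrix_mul h3).matrix_mul h2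

omit [Fintype ι] in
theorem continuous_act_left (v : ι → Mat n) : Continuous (fun g : GLn n => act g v) := by
  have h : Continuous (fun g : GLn n => (g, v)) := continuous_id.prodMk continuous_const
  have h1 := (continuous_act (ι := ι) (n := n)).comp h
  exact h1

omit [Fintype ι] in
theorem continuous_act_right (g : GLn n) : Continuous (fun v : ι → Mat n => act g v) := by
  have h : Continuous (fun v : ι → Mat n => (g, v)) := continuous_const.prodMk continuous_id
  have h1 := (continuous_act (ι := ι) (n := n)).comp h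
  exact h1

/-! ### the exponential -/

@[simp] theorem ex_val (ξ : Mat n) : (ex ξ : Mat n) = NormedSpace.exp ξ := rfl

theorem ex_inv_val (ξ : Mat n) : ((ex ξ)⁻¹ : GLn n).val = NormedSpace.exp (-ξ) := rfl

theorem ex_inv (ξ : Mat n) : (ex ξ)⁻¹ = ex (-ξ) := Units.ext rfl

@[simp] theorem ex_zero : (ex (0 : Mat n)) = 1 := Units.ext NormedSpace.exp_zero

theorem ex_add {ξ η : Mat n} (h : Commute ξ η) : ex (ξ + η) = ex ξ * ex η :=
  Units.ext (Matrix.exp_add_of_commute _ _ h)

theorem ex_add_smul (s t : ℂ) (ξ : Mat n) : ex ((s + t) • ξ) = ex (s • ξ) * ex (t • ξ) := by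
  rw [add_smul]
  exact ex_add (((Commute.refl ξ).smul_left s).smul_right t)

theorem star_ex (ξ : Mat n) : star (ex ξ) = ex ξᴴ := by
  apply Units.ext
  exact (Matrix.exp_conjTranspose ξ).symm

theorem ex_conj (g : GLn n) (ξ : Mat n) :
    ex ((g : Mat n) * ξ * ((g⁻¹ : GLn n) : Mat n)) = g * ex ξ * g⁻¹ :=
  Units.ext (Matrix.exp_units_conj g ξ)

set_option backward.isDefEq.respectTransparency false in
theorem continuous_matExp : Continuous (NormedSpace.exp : Mat n → Mat n) :=
  open scoped Matrix.Norms.Operator in NormedSpace.exp_continuous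

theorem continuous_ex : Continuous (ex : Mat n → GLn n) := by
  rw [Units.continuous_iff]
  exact ⟨continuous_matExp, continuous_matExp.comp continuous_neg⟩

theorem ex_I_mem_UU {H : Mat n} (hH : H.IsHermitian) (t : ℝ) :
    ex ((t * Complex.I) • H) ∈ UU n := by
  rw [mem_UU, star_ex, ex_inv, conjTranspose_smul, hH.eq]
  congr 1
  rw [← neg_smul]
  congr 1
  simp

theorem InLie.smul {G : Subgroup (GLn n)} {ξ : Mat n} (h : InLie G ξ) (c : ℂ) :
    InLie G (c • ξ) := fun z => by
  rw [smul_smul]; exact h _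

theorem InLie.ex_mem {G : Subgroup (GLn n)} {ξ : Mat n} (h : InLie G ξ) : ex ξ ∈ G := by
  have := h 1
  rwa [one_smul] at this

/-! ### minimal vectors and orbits -/

theorem IsMin.act_KK {G : Subgroup (GLn n)} {v : ι → Mat n} (hv : IsMin G v) {k : GLn n}
    (hk : k ∈ KK G) : IsMin G (act k v) := by
  intro g hg
  rw [nsq_act (mem_KK.1 hk).2, ← act_mul]
  exact hv _ (G.mul_mem hg (mem_KK.1 hk).1)

theorem isClosed_isMin (G : Subgroup (GLn n)) : IsClosed {v : ι → Mat n | IsMin G v} := by
  have : {v : ι → Mat n | IsMin G v} = ⋂ g ∈ G, {v | nsq v ≤ nsq (act g v)} := by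
    ext v; simp [IsMin]
  rw [this]
  exact isClosed_biInter fun g _ =>
    isClosed_le continuous_nsq (continuous_nsq.comp (continuous_act_right g))

omit [Fintype ι] in
theorem mem_Orb_self (G : Subgroup (GLn n)) (v : ι → Mat n) : v ∈ Orb G v :=
  ⟨1, G.one_mem, by simp⟩

omit [Fintype ι] in
theorem Orb_act {G : Subgroup (GLn n)} {g : GLn n} (hg : g ∈ G) (v : ι → Mat n) :
    Orb G (act g v) = Orb G v := by
  ext w
  constructor
  · rintro ⟨h, hh, rfl⟩
    exact ⟨h * g, G.mul_mem hh hg, by rw [act_mul]⟩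
  · rintro ⟨h, hh, rfl⟩
    exact ⟨h * g⁻¹, G.mul_mem hh (G.inv_mem hg), by rw [act_mul, act_inv_act]⟩

omit [Fintype ι] in
theorem act_mem_closure_Orb {G : Subgroup (GLn n)} {g : GLn n} (hg : g ∈ G) {v m : ι → Mat n}
    (hm : m ∈ closure (Orb G v)) : act g m ∈ closure (Orb G v) := by
  refine map_mem_closure (continuous_act_right g) hm ?_
  rintro w ⟨h, hh, rfl⟩
  exact ⟨g * h, G.mul_mem hg hh, by rw [act_mul]⟩

theorem Lim.act_KK {G : Subgroup (GLn n)} {v m : ι → Mat n} (h : Lim G v m) {k : GLn n}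
    (hk : k ∈ KK G) : Lim G v (act k m) :=
  ⟨h.1.act_KK hk, act_mem_closure_Orb (mem_KK.1 hk).1 h.2⟩

theorem lim_self {G : Subgroup (GLn n)} {m : ι → Mat n} (h : IsMin G m) : Lim G m m :=
  ⟨h, subset_closure (mem_Orb_self G m)⟩

theorem lim_act {G : Subgroup (GLn n)} {v m : ι → Mat n} {g : GLn n} (hg : g ∈ G) :
    Lim G (act g v) m ↔ Lim G v m := by
  unfold Lim
  rw [Orb_act hg]

end Flawed
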