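import Pool.Agent.Helper78.FL.Base

/-!
Definitions for MP_1b2618_al (generalized torus knot groups are flawed).
-/

open Matrix MeasureTheory
open scoped ComplexConjugate

namespace Flawed

/-- the matrix exponential, as an invertible matrix -/
noncomputable def ex {n : ℕ} (ξ : Mat n) : GLn n where
  val := NormedSpace.exp ξ
  inv := NormedSpace.exp (-ξ)
  val_inv := by
    rw [← Matrix.exp_add_of_commute _ _ (Commute.refl ξ).neg_right, add_neg_cancel,
      NormedSpace.exp_zero]
  inv_val := by
    rw [← Matrix.exp_add_of_commute _ _ (Commute.refl ξ).neg_left, neg_add_cancel,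
      NormedSpace.exp_zero]

/-- the whole complex one-parameter group of `ξ` lies in `G` -/
def InLie {n : ℕ} (G : Subgroup (GLn n)) (ξ : Mat n) : Prop := ∀ z : ℂ, ex (z • ξ) ∈ G

/-- the unitary group, as a subgroup of `GL_n(ℂ)` -/
def UU (n : ℕ) : Subgroup (GLn n) where
  carrier := {g | star g = g⁻¹}
  mul_mem' := by
    intro a b ha hb
    change star (a * b) = (a * b)⁻¹
    rw [star_mul, show star a = a⁻¹ from ha, show star b = b⁻¹ from hb, _root_.mul_inv_rev]
  one_mem' := by
    change star (1 : GLn n) = 1⁻¹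
    simp
  inv_mem' := by
    intro a ha
    change star (a⁻¹) = (a⁻¹)⁻¹
    rw [star_inv, show star a = a⁻¹ from ha]

/-- the unitary elements of `G` -/
def KK {n : ℕ} (G : Subgroup (GLn n)) : Subgroup (GLn n) := G ⊓ UU n

/-- Zariski closed and closed under conjugate transpose -/
structure SA {n : ℕ} (G : Subgroup (GLn n)) : Prop where
  alg : IsAlgebraic G
  star_mem : ∀ g ∈ G, star g ∈ G

variable {ι : Type} [Fintype ι] {n : ℕ}

/-- squared Frobenius norm of a matrix -/
noncomputable def nm (x : Mat n) : ℝ := ∑ a, ∑ b, ‖x a b‖ ^ 2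

/-- squared Frobenius norm of a tuple of matrices -/
noncomputable def nsq (v : ι → Mat n) : ℝ := ∑ i, nm (v i)

/-- Hermitian inner product of tuples of matrices -/
noncomputable def ip (v w : ι → Mat n) : ℂ := ∑ i, ∑ a, ∑ b, v i a b * conj (w i a b)

/-- simultaneous conjugation -/
noncomputable def act (g : GLn n) (v : ι → Mat n) : ι → Mat n :=
  fun i => (g : Mat n) * v i * ((g⁻¹ : GLn n) : Mat n)

/-- minimal vectors (vectors of least norm in their orbit) -/
def IsMin (G : Subgroup (GLn n)) (v : ι → Mat n) : Prop :=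
  ∀ g ∈ G, nsq v ≤ nsq (act g v)

/-- the orbit of `v` under simultaneous conjugation by `G` -/
def Orb (G : Subgroup (GLn n)) (v : ι → Mat n) : Set (ι → Mat n) := {w | ∃ g ∈ G, w = act g v}

/-- `m` is a minimal vector in the closure of the orbit of `v` -/
def Lim (G : Subgroup (GLn n)) (v m : ι → Mat n) : Prop :=
  IsMin G m ∧ m ∈ closure (Orb G v)

noncomputable instance instMSGL (n : ℕ) : MeasurableSpace (GLn n) := borel _

instance instBSGL (n : ℕ) : BorelSpace (GLn n) := ⟨rfl⟩

/-- `μ` is a probability measure carried by `K` and invariant under left translation by `K` -/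
structure IsHaar (K : Subgroup (GLn n)) (μ : Measure (GLn n)) : Prop where
  prob : IsProbabilityMeasure μ
  supp : μ ((K : Set (GLn n))ᶜ) = 0
  inv : ∀ k ∈ K, μ.map (fun x => k * x) = μ

/-- `Re tr (h A) + Re tr (h⁻¹ B)` -/
noncomputable def FF (A B : Mat n) (h : GLn n) : ℝ :=
  (Matrix.trace ((h : Mat n) * A)).re + (Matrix.trace (((h⁻¹ : GLn n) : Mat n) * B)).re

/-- tuples in `G ^ r` satisfying the torus knot relations -/
def TT {r : ℕ} (N : Fin r → ℕ) (G : Subgroup (GLn n)) : Set (Fin r → GLn n) :=
  {x | (∀ i, x i ∈ G) ∧ ∀ i j, x i ^ N i = x j ^ N j}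

/-- `x ↦ (x, x⁻¹)` -/
noncomputable def emb {r : ℕ} (x : Fin r → GLn n) : Fin r ⊕ Fin r → Mat n :=
  Sum.elim (fun i => (x i : Mat n)) (fun i => ((x i)⁻¹ : GLn n))

/-- simultaneous conjugation of a tuple of invertible matrices -/
def cjt {r : ℕ} (g : GLn n) (x : Fin r → GLn n) : Fin r → GLn n := fun i => g * x i * g⁻¹

end Flawed
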