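import Pool.Agent.Helper78.FL.SDR
import Pool.Agent.Helper78.FL.Base

/-!
Definitions used in the final statement of MP_1b2618_al.
-/

namespace Flawed

/-- `G` is a reductive group: a Zariski closed subgroup of `GL_n(ℂ)` which contains a Zariski
dense compact subgroup. -/
def IsReductive {n : ℕ} (G : Subgroup (GLn n)) : Prop :=
  IsAlgebraic G ∧ ∃ K : Subgroup (GLn n), IsCompact (K : Set (GLn n)) ∧ IsZariskiDense K G

/-- `K` is a maximal compact subgroup of `G`. -/
structure IsMaximalCompact {n : ℕ} (K G : Subgroup (GLn n)) : Prop where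
  le : K ≤ G
  cpt : IsCompact (K : Set (GLn n))
  max : ∀ L : Subgroup (GLn n), K ≤ L → L ≤ G → IsCompact (L : Set (GLn n)) → L = K

section Rep

variable {Γ : Type} [Group Γ] {r : ℕ}

/-- `Hom(Γ, H)` (the generators `a` only enter through the topology, see below) -/
def Rep (_a : Fin r → Γ) (H : Type) [Group H] : Type := Γ →* H

/-- the homomorphism underlying a point of `Rep a H` -/
def Rep.hom {a : Fin r → Γ} {H : Type} [Group H] (ρ : Rep a H) : Γ →* H := ρ

/-- the topology of `Hom(Γ, H)`, induced by `ρ ↦ (ρ (a 1), …, ρ (a r)) ∈ H ^ r` -/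
instance (a : Fin r → Γ) (H : Type) [Group H] [TopologicalSpace H] :
    TopologicalSpace (Rep a H) :=
  TopologicalSpace.induced (fun (ρ : Rep a H) (i : Fin r) => ρ.hom (a i)) inferInstance

/-- conjugation of homomorphisms: `γ ↦ h ρ(γ) h⁻¹` -/
def conjRep {a : Fin r → Γ} {H : Type} [Group H] (h : H) (ρ : Rep a H) : Rep a H :=
  (MulAut.conj h).toMonoidHom.comp ρ.hom

/-- the conjugation orbit of `ρ` -/
def orbRep {a : Fin r → Γ} {H : Type} [Group H] (ρ : Rep a H) : Set (Rep a H) :=
  {σ | ∃ h : H, σ = conjRep h ρ}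

/-- two homomorphisms are equivalent when they are conjugate -/
def repSetoid (a : Fin r → Γ) (H : Type) [Group H] : Setoid (Rep a H) where
  r ρ σ := σ ∈ orbRep ρ
  iseqv := by
    refine ⟨fun ρ => ⟨1, MonoidHom.ext fun γ => ?_⟩, ?_, ?_⟩
    · change ρ.hom γ = 1 * ρ.hom γ * 1⁻¹
      simp
    · rintro ρ σ ⟨h, rfl⟩
      refine ⟨h⁻¹, MonoidHom.ext fun γ => ?_⟩
      change ρ.hom γ = h⁻¹ * (h * ρ.hom γ * h⁻¹) * h⁻¹⁻¹
      simp [mul_assoc]
    · rintro ρ σ τ ⟨h, rfl⟩ ⟨h', rfl⟩
      refine ⟨h' * h, MonoidHom.ext fun γ => ?_⟩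
      change h' * (h * ρ.hom γ * h⁻¹) * h'⁻¹ =
        (h' * h) * ρ.hom γ * (h' * h)⁻¹
      simp [mul_assoc]

/-- the homomorphisms whose conjugation orbit is closed -/
def closedReps (a : Fin r → Γ) (H : Type) [Group H] [TopologicalSpace H] : Set (Rep a H) :=
  {ρ | IsClosed (orbRep ρ)}

/-- `Hom(Γ, H) / H`, with the quotient topology -/
abbrev OrbSpace (a : Fin r → Γ) (H : Type) [Group H] [TopologicalSpace H] : Type :=
  Quotient (repSetoid a H)

/-- `X_Γ(H)`: the orbit space of the homomorphisms whose conjugation orbit is closed, with the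
quotient topology -/
abbrev CharVar (a : Fin r → Γ) (H : Type) [Group H] [TopologicalSpace H] : Type :=
  Quotient ((repSetoid a H).comap (Subtype.val : closedReps a H → Rep a H))

variable {n : ℕ} {K G : Subgroup (GLn n)}

/-- a homomorphism into `K`, regarded as a homomorphism into `G` -/
def inclRep (hKG : K ≤ G) {a : Fin r → Γ} (ρ : Rep a K) : Rep a G :=
  (Subgroup.inclusion hKG).comp ρ.hom

/-- the natural map `Hom(Γ, K) / K → X_Γ(G)`, `[ρ] ↦ [ρ]` (defined once one knows that the
homomorphisms into `K` have closed `G`-orbits) -/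
def iG (hKG : K ≤ G) (a : Fin r → Γ)
    (hcl : ∀ ρ : Rep a K, inclRep hKG ρ ∈ closedReps a G) : OrbSpace a K → CharVar a G :=
  Quotient.map' (s₁ := repSetoid a K) (fun ρ => ⟨inclRep hKG ρ, hcl ρ⟩) (by
    rintro ρ σ ⟨h, rfl⟩
    exact ⟨Subgroup.inclusion hKG h, rfl⟩)

/-- the group `Γ` with generators `a` is flawed: for every reductive group `G` with maximal
compact subgroup `K`, the homomorphisms into `K` have closed orbits and the natural map
`Hom(Γ, K) / K → X_Γ(G)` is (the inclusion of) a strong deformation retract -/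
def IsFlawed (a : Fin r → Γ) : Prop :=
  ∀ (n : ℕ) (G K : Subgroup (GLn n)), IsReductive G → ∀ hK : IsMaximalCompact K G,
    ∃ hcl : ∀ ρ : Rep a K, inclRep hK.le ρ ∈ closedReps a G, IsSDR (iG hK.le a hcl)

end Rep

/-- the generalized torus knot group: generators `a_1, …, a_r`, relations `a_i ^ n_i = a_j ^ n_j` -/
abbrev TorusKnotGroup {r : ℕ} (N : Fin r → ℕ) : Type :=
  PresentedGroup {w : FreeGroup (Fin r) |
    ∃ i j, w = FreeGroup.of i ^ N i * (FreeGroup.of j ^ N j)⁻¹}

/-- its standard generators -/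
def torusGens {r : ℕ} (N : Fin r → ℕ) (i : Fin r) : TorusKnotGroup N := PresentedGroup.of i

end Flawed
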