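import Pool.Agent.Helper78.FL.Statements

open Matrix MeasureTheory
open scoped ComplexConjugate

namespace Flawed

/-- FL06, convexity -/
theorem convex (hw : StWeights) : StConvex := by
  intro n ι _ v ξ hξ t ht0 ht1
  obtain ⟨μ, w, _, h2, _, _⟩ := hw n ι v ξ hξ
  have ht := h2 (t : ℂ)
  have h0 := h2 0
  have h1 := h2 1
  rw [zero_smul, ex_zero, act_one] at h0
  rw [one_smul] at h1
  rw [ht, h0, h1, Finset.mul_sum, Finset.mul_sum, ← Finset.sum_add_distrib]
  refine Finset.sum_le_sum fun j _ => ?_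
  have hc := convexOn_exp.2 (Set.mem_univ (0 : ℝ)) (Set.mem_univ (2 * μ j))
    (sub_nonneg.2 ht1) ht0 (by ring)
  simp only [smul_eq_mul, mul_zero, zero_add, Real.exp_zero, mul_one] at hc
  have hp : 0 ≤ ‖w j‖ ^ 2 := by positivity
  have e1 : 2 * (t : ℂ).re * μ j = t * (2 * μ j) := by simp; ring
  have e2 : 2 * (0 : ℂ).re * μ j = 0 := by simp
  have e3 : 2 * (1 : ℂ).re * μ j = 2 * μ j := by simp
  rw [e1, e2, e3, Real.exp_zero]
  nlinarith [mul_le_mul_of_nonneg_right hc hp]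

/-- FL06 -/
theorem along (hw : StWeights) : StAlong := by
  intro n ι _ v ξ hξ hmin h1 z
  obtain ⟨μ, w, _, h2, h3, _⟩ := hw n ι v ξ hξ
  have ht := h2 ((1 / 2 : ℝ) : ℂ)
  have hv := h2 0
  have hone := h2 1
  rw [zero_smul, ex_zero, act_one] at hv
  rw [one_smul] at hone
  have hhalf := hmin (1 / 2)
  rw [ht] at hhalf
  rw [hone] at h1
  have e1 : ∀ j, 2 * ((1 / 2 : ℝ) : ℂ).re * μ j = μ j := fun j => by
    rw [Complex.ofReal_re]; ring
  have e2 : ∀ j, 2 * (0 : ℂ).re * μ j = 0 := fun j => by simp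
  have e3 : ∀ j, 2 * (1 : ℂ).re * μ j = 2 * μ j := fun j => by simp
  simp only [e1] at hhalf
  simp only [e2, Real.exp_zero, one_mul] at hv
  simp only [e3] at h1
  have hsum : ∑ j, (Real.exp (μ j) - 1) ^ 2 * ‖w j‖ ^ 2 ≤ 0 := by
    have : ∑ j, (Real.exp (μ j) - 1) ^ 2 * ‖w j‖ ^ 2 =
        ∑ j, Real.exp (2 * μ j) * ‖w j‖ ^ 2 - 2 * ∑ j, Real.exp (μ j) * ‖w j‖ ^ 2 +
          ∑ j, ‖w j‖ ^ 2 := by
      rw [Finset.mul_sum, ← Finset.sum_sub_distrib, ← Finset.sum_add_distrib]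
      refine Finset.sum_congr rfl fun j _ => ?_
      have : Real.exp (2 * μ j) = Real.exp (μ j) ^ 2 := by
        rw [← Real.exp_nat_mul]; norm_num
      rw [this]; ring
    rw [this, ← hv]
    linarith
  have hnn : ∀ j ∈ Finset.univ, 0 ≤ (Real.exp (μ j) - 1) ^ 2 * ‖w j‖ ^ 2 := fun j _ => by
    positivity
  have hz := (Finset.sum_eq_zero_iff_of_nonneg hnn).1
    (le_antisymm hsum (Finset.sum_nonneg hnn))
  have hfin : nsq (act (ex (z • ξ)) v - v) = 0 := by
    rw [h3]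
    refine Finset.sum_eq_zero fun j hj => ?_
    rcases mul_eq_zero.1 (hz j hj) with h | h
    · have h4 : Real.exp (μ j) = 1 := by
        have := pow_eq_zero_iff (two_ne_zero) |>.1 h
        linarith
      have h5 : μ j = 0 := (Real.exp_eq_one_iff _).1 h4
      rw [h5]; simp
    · rw [h, mul_zero]
  exact sub_eq_zero.1 (nsq_eq_zero.1 hfin)

theorem mul_cos_le_sin {y : ℝ} (h0 : 0 ≤ y) (h2 : y ≤ 2) : y * Real.cos y ≤ Real.sin y := by
  have hpi := Real.pi_gt_three
  rcases lt_or_ge y (Real.pi / 2) with h | h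
  · have hc : 0 < Real.cos y := Real.cos_pos_of_mem_Ioo ⟨by linarith, h⟩
    have := Real.le_tan h0 h
    rw [Real.tan_eq_sin_div_cos, le_div_iff₀ hc] at this
    exact this
  · have hc : Real.cos y ≤ 0 := Real.cos_nonpos_of_pi_div_two_le_of_le h (by linarith)
    have hs : 0 ≤ Real.sin y := Real.sin_nonneg_of_nonneg_of_le_pi h0 (by linarith)
    nlinarith

theorem abs_sin_sub_le {x B : ℝ} (hx : |x| ≤ 2 * B) (hB : B ≤ 1) :
    |Real.sin x - x| ≤ B * (2 * (1 - Real.cos x)) := by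
  have key : ∀ y : ℝ, 0 ≤ y → y ≤ 2 * B → |Real.sin y - y| ≤ B * (2 * (1 - Real.cos y)) := by
    intro y h0 hy
    have h1 := mul_cos_le_sin h0 (by linarith)
    have h2 := Real.sin_le h0
    have h3 := Real.cos_le_one y
    rw [abs_of_nonpos (by linarith)]
    nlinarith
  rcases le_total 0 x with h | h
  · exact key x h (by rwa [abs_of_nonneg h] at hx)
  · have := key (-x) (by linarith) (by rwa [abs_of_nonpos h] at hx)
    rw [Real.sin_neg, Real.cos_neg] at this
    rwa [show -Real.sin x - -x = -(Real.sin x - x) by ring, abs_neg] at this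

theorem norm_exp_I_sub_sq (x : ℝ) :
    ‖Complex.exp (Complex.I * (x : ℂ)) - 1‖ ^ 2 = 2 * (1 - Real.cos x) := by
  rw [← Complex.normSq_eq_norm_sq, Complex.normSq_apply, mul_comm Complex.I, Complex.sub_re,
    Complex.sub_im, Complex.exp_ofReal_mul_I_re, Complex.exp_ofReal_mul_I_im, Complex.one_re, Complex.one_im]
  nlinarith [Real.sin_sq_add_cos_sq x]

/-- FL06, phase bound -/
theorem phaseHerm (hw : StWeights) : StPhaseHerm := by
  intro n ι _ v H hH B hB hB1 hmin
  obtain ⟨μ, w, h1, h2, h3, h4⟩ := hw n ι v H hH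
  have h5 := h4 B hB
  -- the first moment vanishes
  have hmom : ∑ j, 2 * μ j * ‖w j‖ ^ 2 = 0 := by
    have hder : HasDerivAt (fun t : ℝ => ∑ j, Real.exp (t * (2 * μ j)) * ‖w j‖ ^ 2)
        (∑ j, 2 * μ j * ‖w j‖ ^ 2) 0 := by
      have hj : ∀ j ∈ (Finset.univ : Finset (ι × Fin n × Fin n)),
          HasDerivAt (fun t : ℝ => Real.exp (t * (2 * μ j)) * ‖w j‖ ^ 2)
            (2 * μ j * ‖w j‖ ^ 2) 0 := by
        intro j _
        have h6 : HasDerivAt (fun t : ℝ => t * (2 * μ j)) (2 * μ j) 0 := by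
          simpa using (hasDerivAt_id (0 : ℝ)).mul_const (2 * μ j)
        have h7 := h6.exp.mul_const (‖w j‖ ^ 2)
        simpa using h7
      exact HasDerivAt.fun_sum hj
    have hloc : IsLocalMin (fun t : ℝ => ∑ j, Real.exp (t * (2 * μ j)) * ‖w j‖ ^ 2) 0 := by
      refine Filter.Eventually.of_forall fun t => ?_
      have h8 := h2 (t : ℂ)
      have h9 := h2 0
      rw [zero_smul, ex_zero, act_one] at h9
      have h10 := hmin t
      rw [h8, h9] at h10
      simp only [Complex.zero_re, mul_zero, zero_mul, Real.exp_zero, one_mul,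
        Complex.ofReal_re] at h10 ⊢
      refine h10.trans (le_of_eq (Finset.sum_congr rfl fun j _ => ?_))
      congr 2
      ring
    exact hloc.hasDerivAt_eq_zero hder
  have hmom' : ∑ j, μ j * ‖w j‖ ^ 2 = 0 := by
    have : ∑ j, 2 * μ j * ‖w j‖ ^ 2 = 2 * ∑ j, μ j * ‖w j‖ ^ 2 := by
      rw [Finset.mul_sum]
      exact Finset.sum_congr rfl fun j _ => by ring
    rw [this] at hmom
    linarith
  have him : (ip (act (ex (Complex.I • H)) v) v).im = ∑ j, (Real.sin (μ j) - μ j) * ‖w j‖ ^ 2 := by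
    rw [h1, Complex.im_sum]
    have e : ∀ j, (Complex.exp (Complex.I * (μ j : ℂ)) * ((‖w j‖ ^ 2 : ℝ) : ℂ)).im =
        Real.sin (μ j) * ‖w j‖ ^ 2 := by
      intro j
      rw [mul_comm Complex.I, Complex.im_mul_ofReal, Complex.exp_ofReal_mul_I_im]
    simp only [e, sub_mul, Finset.sum_sub_distrib, hmom', sub_zero]
  rw [him, h3, Finset.mul_sum]
  refine (Finset.abs_sum_le_sum_abs _ _).trans (Finset.sum_le_sum fun j _ => ?_)
  rw [abs_mul, abs_of_nonneg (by positivity : (0 : ℝ) ≤ ‖w j‖ ^ 2), norm_exp_I_sub_sq, ← mul_assoc]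
  exact mul_le_mul_of_nonneg_right (abs_sin_sub_le (h5 j) hB1) (by positivity)

end Flawed
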