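import Pool.Agent.Helper78.FL.Statements

/-!
FL29: compact subgroups of a self-adjoint algebraic group are conjugate to unitary ones.
-/

open Matrix MeasureTheory
open scoped ComplexConjugate ComplexOrder

namespace Flawed

namespace CartanAux

theorem integrable {n : ℕ} {K : Subgroup (GLn n)} {μ : Measure (GLn n)}
    (hμ : IsHaar K μ) (hK : IsCompact (K : Set (GLn n))) {f : GLn n → ℂ} (hf : Continuous f) :
    Integrable f μ := by
  have := hμ.prob
  have h1 : IntegrableOn f (K : Set (GLn n)) μ := hf.continuousOn.integrableOn_compact hK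
  have h2 : ∀ᵐ x ∂μ, x ∈ (K : Set (GLn n)) := by
    rw [ae_iff]
    exact hμ.supp
  rw [IntegrableOn, Measure.restrict_eq_self_of_ae_mem h2] at h1
  exact h1

/-- entrywise integral of a matrix valued function -/
noncomputable def MI {n : ℕ} (μ : Measure (GLn n)) (F : GLn n → Mat n) : Mat n :=
  Matrix.of fun a b => ∫ l, F l a b ∂μ

theorem MI_conj {n : ℕ} {K : Subgroup (GLn n)} {μ : Measure (GLn n)}
    (hμ : IsHaar K μ) (hK : IsCompact (K : Set (GLn n))) {F : GLn n → Mat n} (hF : Continuous F)
    (P Q : Mat n) : P * MI μ F * Q = MI μ (fun l => P * F l * Q) := by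
  have hc : ∀ a b, Continuous fun l => F l a b := fun a b => Continuous.matrix_elem hF a b
  ext a b
  have hi : ∀ e c, Integrable (fun l => P a c * F l c e * Q e b) μ := fun e c =>
    integrable hμ hK ((continuous_const.mul (hc c e)).mul continuous_const)
  have h1 : (MI μ fun l => P * F l * Q) a b =
      ∫ l, ∑ e, ∑ c, P a c * F l c e * Q e b ∂μ := by
    simp only [MI, Matrix.of_apply, Matrix.mul_apply, Finset.sum_mul]
  have h2 : (P * MI μ F * Q) a b = ∑ e, ∑ c, P a c * (∫ l, F l c e ∂μ) * Q e b := by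
    simp only [MI, Matrix.of_apply, Matrix.mul_apply, Finset.sum_mul]
  rw [h1, h2, integral_finsetSum _ fun e _ => integrable_finsetSum _ fun c _ => hi e c]
  refine Finset.sum_congr rfl fun e _ => ?_
  rw [integral_finsetSum _ fun c _ => hi e c]
  refine Finset.sum_congr rfl fun c _ => ?_
  rw [integral_mul_const, integral_const_mul]

theorem MI_inv {n : ℕ} {K : Subgroup (GLn n)} {μ : Measure (GLn n)}
    (hμ : IsHaar K μ) (hK : IsCompact (K : Set (GLn n))) {F : GLn n → Mat n} (hF : Continuous F)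
    {k : GLn n} (hk : k ∈ K) : MI μ (fun l => F (k * l)) = MI μ F := by
  have hc : ∀ a b, Continuous fun l => F l a b := fun a b => Continuous.matrix_elem hF a b
  ext a b
  simp only [MI, Matrix.of_apply]
  have hm : AEStronglyMeasurable (fun l : GLn n => F l a b) (μ.map fun x => k * x) := by
    rw [hμ.inv _ hk]
    exact (integrable hμ hK (hc a b)).aestronglyMeasurable
  have h7 := integral_map (μ := μ) (φ := fun x : GLn n => k * x)
    (continuous_const_mul k).measurable.aemeasurable hm
  rw [hμ.inv _ hk] at h7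
  exact h7.symm

theorem MI_posDef {n : ℕ} {K : Subgroup (GLn n)} {μ : Measure (GLn n)}
    (hμ : IsHaar K μ) (hK : IsCompact (K : Set (GLn n))) {F : GLn n → Mat n} (hF : Continuous F)
    (hpos : ∀ l, (F l).PosDef) : (MI μ F).PosDef := by
  have hprob := hμ.prob
  have hc : ∀ a b, Continuous fun l => F l a b := fun a b => Continuous.matrix_elem hF a b
  refine Matrix.PosDef.of_dotProduct_mulVec_pos ?_ ?_
  · ext a b
    simp only [MI, Matrix.conjTranspose_apply, Matrix.of_apply]
    rw [RCLike.star_def, ← integral_conj]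
    refine integral_congr_ae (Filter.Eventually.of_forall fun l => ?_)
    have h := congrFun (congrFun (hpos l).1 a) b
    rw [Matrix.conjTranspose_apply] at h
    exact h
  · intro x hx
    set f : GLn n → ℂ := fun l => star x ⬝ᵥ (F l *ᵥ x) with hf
    have hfc : Continuous f := by
      simp only [hf, dotProduct, Matrix.mulVec]
      refine continuous_finsetSum _ fun a _ => continuous_const.mul ?_
      exact continuous_finsetSum _ fun b _ => (hc a b).mul continuous_const
    have hi : ∀ a b, Integrable (fun l => F l a b * x b) μ := fun a b =>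
      integrable hμ hK ((hc a b).mul continuous_const)
    have hi2 : ∀ a, Integrable (fun l => star x a * ∑ b, F l a b * x b) μ := fun a =>
      (integrable_finsetSum _ fun b _ => hi a b).const_mul _
    have h1 : star x ⬝ᵥ (MI μ F *ᵥ x) = ∫ l, f l ∂μ := by
      have e1 : star x ⬝ᵥ (MI μ F *ᵥ x) =
          ∑ a, star x a * ∑ b, (∫ l, F l a b ∂μ) * x b := by
        simp only [dotProduct, Matrix.mulVec, MI, Matrix.of_apply]
      have e2 : ∫ l, f l ∂μ = ∫ l, ∑ a, star x a * ∑ b, F l a b * x b ∂μ := by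
        simp only [hf, dotProduct, Matrix.mulVec]
      rw [e1, e2, integral_finsetSum _ fun a _ => hi2 a]
      refine Finset.sum_congr rfl fun a _ => ?_
      rw [integral_const_mul, integral_finsetSum _ fun b _ => hi a b]
      congr 1
      refine Finset.sum_congr rfl fun b _ => ?_
      rw [integral_mul_const]
    have hfp : ∀ l, 0 < f l := fun l => (hpos l).dotProduct_mulVec_pos hx
    have h2 : ∀ l, f l = (((f l).re : ℝ) : ℂ) := by
      intro l
      have := (Complex.lt_def.1 (hfp l)).2
      apply Complex.ext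
      · simp
      · simp only [Complex.ofReal_im]
        exact this.symm
    have h3 : ∫ l, f l ∂μ = ((∫ l, (f l).re ∂μ : ℝ) : ℂ) := by
      have e3 : ∫ l, (((f l).re : ℝ) : ℂ) ∂μ = ((∫ l, (f l).re ∂μ : ℝ) : ℂ) := integral_ofReal
      rw [← e3]
      exact integral_congr_ae (Filter.Eventually.of_forall h2)
    have h4 : 0 < ∫ l, (f l).re ∂μ := by
      rw [integral_pos_iff_support_of_nonneg (fun l => ((Complex.lt_def.1 (hfp l)).1).le)
        (integrable hμ hK hfc).re]
      have h5 : Function.support (fun l => (f l).re) = Set.univ := by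
        refine Set.eq_univ_of_forall fun l => ?_
        exact ((Complex.lt_def.1 (hfp l)).1).ne'
      rw [h5, hprob.measure_univ]
      exact one_pos
    rw [h1, h3]
    exact Complex.zero_lt_real.2 h4

end CartanAux

open CartanAux in
/-- FL29 -/
theorem cartan (hM : StMinA) (hH : StHaar) (hL : StLog) (hE : StE1) : StCartan := by
  intro n G K hG hKG hK
  obtain ⟨μ, hμ⟩ := hH n K hK
  have hval : Continuous (fun g : GLn n => (g : Mat n)) := Units.continuous_val
  have hinv : Continuous (fun g : GLn n => ((g⁻¹ : GLn n) : Mat n)) :=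
    Units.continuous_val.comp continuous_inv
  set F1 : GLn n → Mat n := fun l => ((l⁻¹ : GLn n) : Mat n)ᴴ * ((l⁻¹ : GLn n) : Mat n) with hF1
  set F2 : GLn n → Mat n := fun l => (l : Mat n) * (l : Mat n)ᴴ with hF2
  have hF1c : Continuous F1 := hinv.matrix_conjTranspose.matrix_mul hinv
  have hF2c : Continuous F2 := hval.matrix_mul hval.matrix_conjTranspose
  have hF1p : ∀ l, (F1 l).PosDef := fun l => Matrix.PosDef.conjTranspose_mul_self _
    (Matrix.mulVec_injective_of_isUnit (l⁻¹).isUnit)
  have hF2p : ∀ l, (F2 l).PosDef := fun l => Matrix.PosDef.mul_conjTranspose_self _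
    (Matrix.vecMul_injective_of_isUnit l.isUnit)
  obtain ⟨hm, hm1, -, hm3⟩ := hM n G hG
  have hA := MI_posDef hμ hK hF1c hF1p
  have hB := MI_posDef hμ hK hF2c hF2p
  obtain ⟨hmG, hmP, -, -⟩ := hm1 _ _ hA hB
  set h : GLn n := hm (MI μ F1) (MI μ F2) with hh
  -- invariance
  have hinvar : ∀ l ∈ K, h = l * h * star l := by
    intro l hl
    have h1 := hm3 _ _ hA hB l⁻¹ (G.inv_mem (hKG hl))
    have h2 : ((l⁻¹ : GLn n) : Mat n)ᴴ * MI μ F1 * ((l⁻¹ : GLn n) : Mat n) = MI μ F1 := by
      rw [MI_conj hμ hK hF1c, ← MI_inv hμ hK hF1c hl]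
      congr 1
      funext x
      simp only [hF1, _root_.mul_inv_rev, Units.val_mul, Matrix.conjTranspose_mul, mul_assoc]
    have h3 : (((l⁻¹)⁻¹ : GLn n) : Mat n) * MI μ F2 * (((l⁻¹)⁻¹ : GLn n) : Mat n)ᴴ = MI μ F2 := by
      rw [inv_inv, MI_conj hμ hK hF2c, ← MI_inv hμ hK hF2c hl]
      congr 1
      funext x
      simp only [hF2, Units.val_mul, Matrix.conjTranspose_mul, mul_assoc]
    rw [h2, h3] at h1
    rw [← hh] at h1
    rw [inv_inv, star_inv, inv_inv] at h1
    exact h1
  obtain ⟨-, L, hL1, -, -, -⟩ := hL n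
  obtain ⟨hHerm, hexp⟩ := hL1 _ hmP
  set ℓ : Mat n := L (h : Mat n) with hℓ
  have hexl : ex ℓ = h := Units.ext hexp
  have hInl : InLie G ℓ := hE n G hG.alg ℓ hHerm (by rw [hexl]; exact hmG)
  have hξ : ((1 / 2 : ℂ) • ℓ).IsHermitian := by
    rw [Matrix.IsHermitian, conjTranspose_smul, hHerm.eq]
    congr 1
    simp
  set ξ : Mat n := (1 / 2 : ℂ) • ℓ with hξd
  have hInξ : InLie G ξ := hInl.smul _
  have hdbl : h = ex ξ * ex ξ := by
    rw [← hexl, ← ex_add (Commute.refl ξ), hξd, ← add_smul]
    norm_num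
  refine ⟨(ex ξ)⁻¹, G.inv_mem hInξ.ex_mem, fun l hl => ?_⟩
  have hst : star (ex ξ) = ex ξ := by rw [star_ex, hξ.eq]
  have h4 : star l = h⁻¹ * l⁻¹ * h := by
    have h5 := hinvar l hl
    have h6 : h⁻¹ * l⁻¹ * h = h⁻¹ * l⁻¹ * (l * h * star l) := by rw [← h5]
    rw [h6]
    simp [mul_assoc]
  rw [mem_UU, inv_inv, star_mul, star_mul, star_inv, hst, h4, hdbl]
  simp [mul_assoc]

end Flawed
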