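import Pool.Agent.Helper78.FL.Statements

/-!
FL19: orbits of minimal vectors are closed.
-/

open Matrix MeasureTheory Filter Topology
open scoped ComplexConjugate ComplexOrder

namespace Flawed

namespace CO

variable {n : ℕ}

theorem fcMat : FirstCountableTopology (Mat n) :=
  inferInstanceAs (FirstCountableTopology (Fin n → Fin n → ℂ))

theorem fcGL : FirstCountableTopology (GLn n) := by
  have h1 : FirstCountableTopology (Mat n) := fcMat
  have h2 : FirstCountableTopology (Mat n)ᵐᵒᵖ :=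
    (MulOpposite.opHomeomorph.symm.isInducing).firstCountableTopology
  exact (Units.isEmbedding_embedProduct (M := Mat n)).isInducing.firstCountableTopology

theorem nm_unitary_mul {u : GLn n} (hu : u ∈ UU n) (x : Mat n) : nm ((u : Mat n) * x) = nm x := by
  have h1 := mem_UU'.1 hu
  have h : (nm ((u : Mat n) * x) : ℂ) = nm x := by
    rw [nm_eq_trace, nm_eq_trace, conjTranspose_mul, h1]
    rw [show (u : Mat n) * x * (xᴴ * ((u⁻¹ : GLn n) : Mat n)) =
      (u : Mat n) * (x * xᴴ * ((u⁻¹ : GLn n) : Mat n)) by simp only [mul_assoc]]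
    rw [Matrix.trace_mul_comm, mul_assoc, mul_assoc, Units.inv_mul, mul_one]
  exact_mod_cast h

theorem nm_mul_unitary {u : GLn n} (hu : u ∈ UU n) (x : Mat n) : nm (x * (u : Mat n)) = nm x := by
  have h1 := mem_UU'.1 hu
  have h : (nm (x * (u : Mat n)) : ℂ) = nm x := by
    rw [nm_eq_trace, nm_eq_trace, conjTranspose_mul, h1]
    rw [show x * (u : Mat n) * (((u⁻¹ : GLn n) : Mat n) * xᴴ) =
      x * ((u : Mat n) * ((u⁻¹ : GLn n) : Mat n)) * xᴴ by simp only [mul_assoc]]
    rw [Units.mul_inv, mul_one]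
  exact_mod_cast h

theorem spectral (ξ : Mat n) (hξ : ξ.IsHermitian) :
    ∃ u : GLn n, u ∈ UU n ∧
      ξ = (u : Mat n) * diagonal (fun a => (hξ.eigenvalues a : ℂ)) * ((u⁻¹ : GLn n) : Mat n) := by
  refine ⟨Unitary.toUnits hξ.eigenvectorUnitary, ?_, ?_⟩
  · rw [mem_UU']
    rfl
  · have h := hξ.spectral_theorem
    rw [Unitary.conjStarAlgAut_apply] at h
    exact h

theorem nm_diagonal (v : Fin n → ℂ) : nm (diagonal v) = ∑ a, ‖v a‖ ^ 2 := by
  unfold nm
  refine Finset.sum_congr rfl fun a _ => ?_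
  rw [Finset.sum_eq_single a]
  · rw [diagonal_apply_eq]
  · intro b _ hb
    rw [diagonal_apply_ne _ (Ne.symm hb)]
    simp
  · intro h
    exact absurd (Finset.mem_univ a) h

theorem nm_herm (ξ : Mat n) (hξ : ξ.IsHermitian) : nm ξ = ∑ a, hξ.eigenvalues a ^ 2 := by
  obtain ⟨u, hu, h⟩ := spectral ξ hξ
  have hu' : u⁻¹ ∈ UU n := (UU n).inv_mem hu
  calc nm ξ = nm ((u : Mat n) * diagonal (fun a => (hξ.eigenvalues a : ℂ)) *
        ((u⁻¹ : GLn n) : Mat n)) := by rw [← h]
    _ = nm (diagonal (fun a => (hξ.eigenvalues a : ℂ))) := by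
        rw [nm_mul_unitary hu', nm_unitary_mul hu]
    _ = _ := by
        rw [nm_diagonal]
        refine Finset.sum_congr rfl fun a _ => ?_
        rw [Complex.norm_real, Real.norm_eq_abs, sq_abs]

theorem nm_exp (ξ : Mat n) (hξ : ξ.IsHermitian) (t : ℝ) :
    nm (NormedSpace.exp ((t : ℂ) • ξ)) = ∑ a, Real.exp (2 * t * hξ.eigenvalues a) := by
  obtain ⟨u, hu, h⟩ := spectral ξ hξ
  have hu' : u⁻¹ ∈ UU n := (UU n).inv_mem hu
  have h1 : (t : ℂ) • ξ = (u : Mat n) * ((t : ℂ) • diagonal (fun a => (hξ.eigenvalues a : ℂ))) *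
      ((u⁻¹ : GLn n) : Mat n) := by
    conv_lhs => rw [h]
    rw [Matrix.mul_smul, Matrix.smul_mul]
  have h2 : NormedSpace.exp ((t : ℂ) • ξ) = (u : Mat n) *
      NormedSpace.exp ((t : ℂ) • diagonal (fun a => (hξ.eigenvalues a : ℂ))) *
      ((u⁻¹ : GLn n) : Mat n) := by
    rw [h1]
    exact Matrix.exp_units_conj u _
  rw [h2, nm_mul_unitary hu', nm_unitary_mul hu, ← diagonal_smul, Matrix.exp_diagonal, nm_diagonal]
  refine Finset.sum_congr rfl fun a _ => ?_
  rw [Pi.coe_exp, ← Complex.exp_eq_exp_ℂ, Complex.norm_exp]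
  simp only [Pi.smul_apply, smul_eq_mul, Complex.mul_re, Complex.ofReal_re, Complex.ofReal_im,
    mul_zero, sub_zero]
  rw [← Real.exp_nat_mul]
  congr 1
  push_cast
  ring

/-- growth of `f(s) = nm (exp (s u)) + nm (exp (-s u))` -/
theorem growth (u : Mat n) (hu : u.IsHermitian) (h1 : nm u = 1) (s : ℝ) (hs : 1 ≤ s) :
    ((n : ℝ) + 2) * (nm (NormedSpace.exp (((s - 1 : ℝ) : ℂ) • u)) +
        nm (NormedSpace.exp (((-(s - 1) : ℝ) : ℂ) • u))) ≤
      n * (nm (NormedSpace.exp ((s : ℂ) • u)) + nm (NormedSpace.exp (((-s : ℝ) : ℂ) • u))) := by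
  have hf : ∀ t : ℝ, nm (NormedSpace.exp ((t : ℂ) • u)) + nm (NormedSpace.exp (((-t : ℝ) : ℂ) • u)) =
      2 * ∑ a, Real.cosh (2 * t * hu.eigenvalues a) := by
    intro t
    rw [nm_exp u hu, nm_exp u hu, ← Finset.sum_add_distrib, Finset.mul_sum]
    refine Finset.sum_congr rfl fun a _ => ?_
    rw [Real.cosh_eq]
    have : 2 * -t * hu.eigenvalues a = -(2 * t * hu.eigenvalues a) := by ring
    rw [this]
    ring
  rw [hf, hf]
  have hadd : ∀ a, Real.cosh (2 * (s - 1) * hu.eigenvalues a) * Real.cosh (2 * hu.eigenvalues a) ≤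
      Real.cosh (2 * s * hu.eigenvalues a) := by
    intro a
    have e : 2 * s * hu.eigenvalues a = 2 * (s - 1) * hu.eigenvalues a + 2 * hu.eigenvalues a := by
      ring
    rw [e, Real.cosh_add]
    have : 0 ≤ Real.sinh (2 * (s - 1) * hu.eigenvalues a) * Real.sinh (2 * hu.eigenvalues a) := by
      rcases le_total 0 (hu.eigenvalues a) with h | h
      · exact mul_nonneg (Real.sinh_nonneg_iff.2 (by
          have : 0 ≤ s - 1 := by linarith
          positivity)) (Real.sinh_nonneg_iff.2 (by linarith))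
      · refine mul_nonneg_of_nonpos_of_nonpos (Real.sinh_nonpos_iff.2 ?_)
          (Real.sinh_nonpos_iff.2 (by linarith))
        exact mul_nonpos_of_nonneg_of_nonpos (by linarith) h
    linarith
  have hmono : Monovary (fun a => Real.cosh (2 * (s - 1) * hu.eigenvalues a))
      (fun a => Real.cosh (2 * hu.eigenvalues a)) := by
    intro a b hab
    simp only at hab ⊢
    rw [Real.cosh_lt_cosh] at hab
    rw [Real.cosh_le_cosh]
    have h2 : |2 * (s - 1) * hu.eigenvalues a| = (s - 1) * |2 * hu.eigenvalues a| := by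
      rw [← abs_of_nonneg (by linarith : 0 ≤ s - 1), ← abs_mul, abs_of_nonneg (by linarith : 0 ≤ s - 1)]
      congr 1
      ring
    have h3 : |2 * (s - 1) * hu.eigenvalues b| = (s - 1) * |2 * hu.eigenvalues b| := by
      rw [← abs_of_nonneg (by linarith : 0 ≤ s - 1), ← abs_mul, abs_of_nonneg (by linarith : 0 ≤ s - 1)]
      congr 1
      ring
    rw [h2, h3]
    exact mul_le_mul_of_nonneg_left hab.le (by linarith)
  have hch := hmono.sum_mul_sum_le_card_mul_sum
  rw [Fintype.card_fin] at hch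
  have hlow : (n : ℝ) + 2 ≤ ∑ a, Real.cosh (2 * hu.eigenvalues a) := by
    have h4 : ∀ a, 1 + 2 * hu.eigenvalues a ^ 2 ≤ Real.cosh (2 * hu.eigenvalues a) := by
      intro a
      have h5 : |hu.eigenvalues a| ≤ |Real.sinh (hu.eigenvalues a)| := by
        rw [Real.abs_sinh]
        exact Real.self_le_sinh_iff.2 (abs_nonneg _)
      have h6 := sq_le_sq.2 h5
      have h7 := Real.cosh_sq (hu.eigenvalues a)
      rw [Real.cosh_two_mul]
      linarith
    calc (n : ℝ) + 2 = ∑ a, (1 + 2 * hu.eigenvalues a ^ 2) := by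
          rw [Finset.sum_add_distrib, ← Finset.mul_sum, ← nm_herm u hu, h1]
          simp
      _ ≤ _ := Finset.sum_le_sum fun a _ => h4 a
  have hpos : 0 ≤ ∑ a, Real.cosh (2 * (s - 1) * hu.eigenvalues a) :=
    Finset.sum_nonneg fun a _ => (Real.cosh_pos _).le
  have hfin : ∑ a, Real.cosh (2 * (s - 1) * hu.eigenvalues a) * Real.cosh (2 * hu.eigenvalues a) ≤
      ∑ a, Real.cosh (2 * s * hu.eigenvalues a) := Finset.sum_le_sum fun a _ => hadd a
  have hn : (0 : ℝ) ≤ n := Nat.cast_nonneg n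
  calc ((n : ℝ) + 2) * (2 * ∑ a, Real.cosh (2 * (s - 1) * hu.eigenvalues a))
      = 2 * ((∑ a, Real.cosh (2 * (s - 1) * hu.eigenvalues a)) * ((n : ℝ) + 2)) := by ring
    _ ≤ 2 * ((∑ a, Real.cosh (2 * (s - 1) * hu.eigenvalues a)) *
        ∑ a, Real.cosh (2 * hu.eigenvalues a)) := by gcongr
    _ ≤ 2 * (n * ∑ a, Real.cosh (2 * (s - 1) * hu.eigenvalues a) *
        Real.cosh (2 * hu.eigenvalues a)) := by gcongr
    _ ≤ 2 * (n * ∑ a, Real.cosh (2 * s * hu.eigenvalues a)) := by gcongr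
    _ = _ := by ring

section frob

open scoped Matrix.Norms.Frobenius

theorem nm_eq_frob (x : Mat n) : nm x = ‖x‖ ^ 2 := by
  rw [Matrix.frobenius_norm_def, ← Real.sqrt_eq_rpow, Real.sq_sqrt]
  · unfold nm
    refine Finset.sum_congr rfl fun a _ => Finset.sum_congr rfl fun b _ => ?_
    rw [← Real.rpow_natCast]
    norm_num
  · exact Finset.sum_nonneg fun _ _ => Finset.sum_nonneg fun _ _ => by positivity

theorem nm_mul_near (x e : Mat n) : nm (x * e) ≤ (1 + √(nm (e - 1))) ^ 2 * nm x := by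
  rw [nm_eq_frob, nm_eq_frob, nm_eq_frob, Real.sqrt_sq (norm_nonneg _), ← mul_pow]
  refine pow_le_pow_left₀ (norm_nonneg _) ?_ 2
  have h : x * e = x + x * (e - 1) := by
    rw [mul_sub, mul_one]; abel
  calc ‖x * e‖ = ‖x + x * (e - 1)‖ := by rw [← h]
    _ ≤ ‖x‖ + ‖x * (e - 1)‖ := norm_add_le _ _
    _ ≤ ‖x‖ + ‖x‖ * ‖e - 1‖ := by
        gcongr
        exact Matrix.frobenius_norm_mul _ _
    _ = (1 + ‖e - 1‖) * ‖x‖ := by ring

theorem nm_near_mul (x e : Mat n) : nm (e * x) ≤ (1 + √(nm (e - 1))) ^ 2 * nm x := by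
  rw [nm_eq_frob, nm_eq_frob, nm_eq_frob, Real.sqrt_sq (norm_nonneg _), ← mul_pow]
  refine pow_le_pow_left₀ (norm_nonneg _) ?_ 2
  have h : e * x = x + (e - 1) * x := by
    rw [sub_mul, one_mul]; abel
  calc ‖e * x‖ = ‖x + (e - 1) * x‖ := by rw [← h]
    _ ≤ ‖x‖ + ‖(e - 1) * x‖ := norm_add_le _ _
    _ ≤ ‖x‖ + ‖e - 1‖ * ‖x‖ := by
        gcongr
        exact Matrix.frobenius_norm_mul _ _
    _ = (1 + ‖e - 1‖) * ‖x‖ := by ring

end frob

theorem nm_smul (c : ℝ) (x : Mat n) : nm ((c : ℂ) • x) = c ^ 2 * nm x := by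
  unfold nm
  rw [Finset.mul_sum]
  refine Finset.sum_congr rfl fun a _ => ?_
  rw [Finset.mul_sum]
  refine Finset.sum_congr rfl fun b _ => ?_
  rw [Matrix.smul_apply, smul_eq_mul, norm_mul, Complex.norm_real, Real.norm_eq_abs, mul_pow, sq_abs]

/-- the size function -/
noncomputable def phi (g : GLn n) : ℝ := nm (g : Mat n) + nm ((g⁻¹ : GLn n) : Mat n)

theorem continuous_phi : Continuous (phi : GLn n → ℝ) := by
  have h1 : Continuous fun g : GLn n => nm (g : Mat n) := continuous_nm.comp Units.continuous_val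
  have h2 : Continuous fun g : GLn n => nm ((g⁻¹ : GLn n) : Mat n) :=
    continuous_nm.comp (Units.continuous_val.comp continuous_inv)
  exact h1.add h2

theorem exists_min_phi (hC : StCpt) {S : Set (GLn n)} (hS : IsClosed S) (hne : S.Nonempty) :
    ∃ g ∈ S, ∀ g' ∈ S, phi g ≤ phi g' := by
  obtain ⟨g₀, hg₀⟩ := hne
  set C := phi g₀
  have hK : IsCompact ({g : GLn n | nm (g : Mat n) ≤ C ∧ nm ((g⁻¹ : GLn n) : Mat n) ≤ C} ∩ S) :=
    (hC.2.1 n C).inter_right hS
  have hg₀' : g₀ ∈ {g : GLn n | nm (g : Mat n) ≤ C ∧ nm ((g⁻¹ : GLn n) : Mat n) ≤ C} ∩ S := by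
    refine ⟨⟨?_, ?_⟩, hg₀⟩
    · have := nm_nonneg ((g₀⁻¹ : GLn n) : Mat n)
      change nm (g₀ : Mat n) ≤ nm (g₀ : Mat n) + nm ((g₀⁻¹ : GLn n) : Mat n)
      linarith
    · have := nm_nonneg (g₀ : Mat n)
      change nm ((g₀⁻¹ : GLn n) : Mat n) ≤ nm (g₀ : Mat n) + nm ((g₀⁻¹ : GLn n) : Mat n)
      linarith
  obtain ⟨g, hg, hmin⟩ := hK.exists_isMinOn ⟨g₀, hg₀'⟩ continuous_phi.continuousOn
  refine ⟨g, hg.2, fun g' hg' => ?_⟩
  by_cases h : phi g' ≤ C
  · refine hmin ⟨⟨?_, ?_⟩, hg'⟩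
    · have := nm_nonneg ((g'⁻¹ : GLn n) : Mat n)
      refine le_trans ?_ h
      change nm (g' : Mat n) ≤ nm (g' : Mat n) + nm ((g'⁻¹ : GLn n) : Mat n)
      linarith
    · have := nm_nonneg (g' : Mat n)
      refine le_trans ?_ h
      change nm ((g'⁻¹ : GLn n) : Mat n) ≤ nm (g' : Mat n) + nm ((g'⁻¹ : GLn n) : Mat n)
      linarith
  · exact (hmin hg₀').trans (not_le.1 h).le

end CO

open CO

theorem closedOrb (hPol : StPolar) (_hMO : StMinOrb) (hAl : StAlong) (hCv : StConvex)
    (hC : StCpt) : StClosedOrb := by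
  intro n ι _ G hG m hm
  have fc1 : FirstCountableTopology (Mat n) := fcMat
  have fc2 : FirstCountableTopology (GLn n) := fcGL
  have hGc : IsClosed (G : Set (GLn n)) := hC.1 n G hG.alg
  refine isClosed_of_closure_subset fun y hy => ?_
  obtain ⟨w, hwm, hwt⟩ := mem_closure_iff_seq_limit.1 hy
  have hmin : ∀ j, ∃ g, (g ∈ G ∧ act g m = w j) ∧ ∀ g', (g' ∈ G ∧ act g' m = w j) → phi g ≤ phi g' := by
    intro j
    have hcl : IsClosed {g : GLn n | g ∈ G ∧ act g m = w j} := by
      have h1 : IsClosed {g : GLn n | act g m = w j} :=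
        isClosed_eq (continuous_act_left m) continuous_const
      exact hGc.inter h1
    obtain ⟨g, hg, hgm⟩ := hwm j
    obtain ⟨g, hg, hmin⟩ := exists_min_phi hC hcl ⟨g, hg, hgm.symm⟩
    exact ⟨g, hg, fun g' hg' => hmin g' hg'⟩
  choose g hg hgmin using hmin
  by_cases hb : ∃ C : ℝ, ∃ᶠ j in atTop, phi (g j) ≤ C
  · obtain ⟨C, hfr⟩ := hb
    obtain ⟨ψ, hψ, hψC⟩ := extraction_of_frequently_atTop hfr
    have hK : IsCompact ({g : GLn n | nm (g : Mat n) ≤ C ∧ nm ((g⁻¹ : GLn n) : Mat n) ≤ C} ∩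
        (G : Set (GLn n))) := (hC.2.1 n C).inter_right hGc
    have hmem : ∀ j, g (ψ j) ∈ {g : GLn n | nm (g : Mat n) ≤ C ∧ nm ((g⁻¹ : GLn n) : Mat n) ≤ C} ∩
        (G : Set (GLn n)) := by
      intro j
      have h1 := hψC j
      have h2 := nm_nonneg ((g (ψ j) : GLn n) : Mat n)
      have h3 := nm_nonneg (((g (ψ j))⁻¹ : GLn n) : Mat n)
      unfold phi at h1
      exact ⟨⟨by linarith, by linarith⟩, (hg (ψ j)).1⟩
    obtain ⟨gl, hgl, χ, hχ, hlim⟩ := hK.tendsto_subseq hmem
    refine ⟨gl, hgl.2, ?_⟩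
    have h1 : Tendsto (fun j => act (g (ψ (χ j))) m) atTop (𝓝 (act gl m)) :=
      ((continuous_act_left m).tendsto gl).comp hlim
    have h2 : Tendsto (fun j => act (g (ψ (χ j))) m) atTop (𝓝 y) := by
      have h3 : (fun j => act (g (ψ (χ j))) m) = fun j => w (ψ (χ j)) := by
        funext j
        exact (hg _).2
      rw [h3]
      exact hwt.comp (hψ.tendsto_atTop.comp hχ.tendsto_atTop)
    exact tendsto_nhds_unique h2 h1
  · exfalso
    push Not at hb
    have hP : ∀ j, ∃ k ∈ KK G, ∃ ξ : Mat n, ξ.IsHermitian ∧ InLie G ξ ∧ g j = k * ex ξ := fun j =>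
      hPol n G hG (g j) (hg j).1
    choose k hk ξ hξH hξL hgk using hP
    have hkU : ∀ j, k j ∈ UU n := fun j => (mem_KK.1 (hk j)).2
    -- value of phi
    have hphi : ∀ j, phi (g j) = nm (NormedSpace.exp (ξ j)) + nm (NormedSpace.exp (-ξ j)) := by
      intro j
      unfold phi
      rw [hgk j, _root_.mul_inv_rev, Units.val_mul, Units.val_mul, nm_unitary_mul (hkU j),
        nm_mul_unitary ((UU n).inv_mem (hkU j)), ex_inv_val, ex_val]
    set s : ℕ → ℝ := fun j => √(nm (ξ j)) with hs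
    have hsq : ∀ j, s j ^ 2 = nm (ξ j) := fun j => Real.sq_sqrt (nm_nonneg _)
    have hs0 : ∀ j, 0 ≤ s j := fun j => Real.sqrt_nonneg _
    -- s tends to infinity
    have hphile : ∀ j, phi (g j) ≤ 2 * (n * Real.exp (2 * s j)) := by
      intro j
      have h1 : ∀ t : ℝ, |t| = 1 → nm (NormedSpace.exp ((t : ℂ) • ξ j)) ≤ n * Real.exp (2 * s j) := by
        intro t ht
        rw [nm_exp (ξ j) (hξH j)]
        calc ∑ a, Real.exp (2 * t * (hξH j).eigenvalues a) ≤ ∑ _a : Fin n, Real.exp (2 * s j) := by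
              refine Finset.sum_le_sum fun a _ => Real.exp_le_exp.2 ?_
              have h2 : (hξH j).eigenvalues a ^ 2 ≤ s j ^ 2 := by
                rw [hsq, nm_herm (ξ j) (hξH j)]
                exact Finset.single_le_sum (f := fun a => (hξH j).eigenvalues a ^ 2)
                  (fun _ _ => sq_nonneg _) (Finset.mem_univ a)
              have h3 : |(hξH j).eigenvalues a| ≤ s j := abs_le_of_sq_le_sq h2 (hs0 j)
              have h4 : t * (hξH j).eigenvalues a ≤ |(hξH j).eigenvalues a| := by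
                calc t * (hξH j).eigenvalues a ≤ |t * (hξH j).eigenvalues a| := le_abs_self _
                  _ = |(hξH j).eigenvalues a| := by rw [abs_mul, ht, one_mul]
              nlinarith
          _ = n * Real.exp (2 * s j) := by simp
      have h2 := h1 1 (by norm_num)
      have h3 := h1 (-1) (by norm_num)
      rw [hphi j]
      have e1 : ((1 : ℝ) : ℂ) • ξ j = ξ j := by simp
      have e2 : ((-1 : ℝ) : ℂ) • ξ j = -ξ j := by simp
      rw [e1] at h2
      rw [e2] at h3
      linarith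
    have hstend : Tendsto s atTop atTop := by
      refine tendsto_atTop.2 fun b => ?_
      filter_upwards [hb (2 * (n * Real.exp (2 * b)))] with j hj
      by_contra hlt
      rw [not_le] at hlt
      have h1 := hphile j
      have h2 : Real.exp (2 * s j) ≤ Real.exp (2 * b) := Real.exp_le_exp.2 (by linarith)
      have h3 : (n : ℝ) * Real.exp (2 * s j) ≤ n * Real.exp (2 * b) := by gcongr
      linarith
    -- the directions
    set u : ℕ → Mat n := fun j => (((s j)⁻¹ : ℝ) : ℂ) • ξ j with hu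
    have hu1 : ∀ j, nm (u j) ≤ 1 := by
      intro j
      simp only [hu]
      rw [nm_smul, ← hsq, inv_pow]
      by_cases h0 : s j = 0
      · rw [h0]; norm_num
      · rw [inv_mul_cancel₀ (pow_ne_zero 2 h0)]
    have hcomp : IsCompact {x : Mat n | nm x ≤ 1} := by
      have h1 := (hC.2.2.2.2 n Unit 1).image (continuous_apply () : Continuous fun v : Unit → Mat n => v ())
      convert h1 using 1
      ext x
      constructor
      · intro hx
        refine ⟨fun _ => x, ?_, rfl⟩
        simpa [nsq] using hx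
      · rintro ⟨v, hv, rfl⟩
        simpa [nsq] using hv
    obtain ⟨U, hU1, ψ, hψ, hlim⟩ := hcomp.tendsto_subseq (x := u) hu1
    have hUlim : Tendsto (fun j => u (ψ j)) atTop (𝓝 U) := hlim
    have hsψ : Tendsto (fun j => s (ψ j)) atTop atTop := hstend.comp hψ.tendsto_atTop
    have huH : ∀ j, (u j).IsHermitian := by
      intro j
      simp only [hu]
      unfold Matrix.IsHermitian
      rw [conjTranspose_smul, (hξH j).eq]
      simp
    have huG : ∀ j (t : ℝ), ex ((t : ℂ) • u j) ∈ G := by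
      intro j t
      simp only [hu]
      rw [smul_smul]
      exact hξL j _
    have hUH : U.IsHermitian := by
      have h1 : Tendsto (fun j => (u (ψ j))ᴴ) atTop (𝓝 Uᴴ) :=
        ((continuous_id.matrix_conjTranspose).tendsto U).comp hUlim
      have h2 : (fun j => (u (ψ j))ᴴ) = fun j => u (ψ j) := by
        funext j
        exact (huH (ψ j)).eq
      rw [h2] at h1
      exact tendsto_nhds_unique h1 hUlim
    have hext : ∀ t : ℝ, Tendsto (fun j => ex ((t : ℂ) • u (ψ j))) atTop (𝓝 (ex ((t : ℂ) • U))) := by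
      intro t
      have h1 : Tendsto (fun j => (t : ℂ) • u (ψ j)) atTop (𝓝 ((t : ℂ) • U)) := hUlim.const_smul _
      exact (continuous_ex.tendsto _).comp h1
    have hUG : ∀ t : ℝ, ex ((t : ℂ) • U) ∈ G := by
      intro t
      exact hGc.mem_of_tendsto (hext t) (Eventually.of_forall fun j => huG (ψ j) t)
    -- the limit direction does not increase the norm
    have hle : nsq (act (ex U) m) ≤ nsq m := by
      have h1 : Tendsto (fun j => nsq (act (ex (u (ψ j))) m)) atTop (𝓝 (nsq (act (ex U) m))) := by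
        have h2 := hext 1
        simp only [Complex.ofReal_one, one_smul] at h2
        have h3 : Continuous fun g : GLn n => nsq (act g m) := by
          have h4 := (continuous_nsq (ι := ι) (n := n)).comp (continuous_act_left m)
          exact h4
        exact (h3.tendsto _).comp h2
      have h2 : Tendsto (fun j => (1 - (s (ψ j))⁻¹) * nsq m + (s (ψ j))⁻¹ * nsq (w (ψ j))) atTop
          (𝓝 ((1 - 0) * nsq m + 0 * nsq y)) := by
        have h3 : Tendsto (fun j => (s (ψ j))⁻¹) atTop (𝓝 0) := tendsto_inv_atTop_zero.comp hsψ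
        have h4 : Tendsto (fun j => nsq (w (ψ j))) atTop (𝓝 (nsq y)) :=
          (continuous_nsq.tendsto y).comp (hwt.comp hψ.tendsto_atTop)
        exact ((tendsto_const_nhds.sub h3).mul tendsto_const_nhds).add (h3.mul h4)
      have h3 : (1 - 0) * nsq m + 0 * nsq y = nsq m := by ring
      rw [h3] at h2
      refine le_of_tendsto_of_tendsto h1 h2 ?_
      filter_upwards [hsψ.eventually_ge_atTop 1] with j hj
      have hpos : 0 < s (ψ j) := by linarith
      have h4 := hCv n ι m (ξ (ψ j)) (hξH (ψ j)) (s (ψ j))⁻¹ (inv_nonneg.2 hpos.le)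
        (inv_le_one_of_one_le₀ hj)
      have h5 : nsq (act (ex (ξ (ψ j))) m) = nsq (w (ψ j)) := by
        rw [← (hg (ψ j)).2, hgk (ψ j), act_mul, nsq_act (hkU (ψ j))]
      rw [h5] at h4
      exact h4
    have hfix := hAl n ι m U hUH (fun t => hm _ (hUG t)) hle
    have hneg : ex (-U) ∈ G ∧ act (ex (-U)) m = m := by
      constructor
      · have := hUG (-1)
        simpa using this
      · have := hfix (-1)
        simpa using this
    -- the comparison
    have hcmp : ∀ j, phi (g j) ≤ phi (g j * ex (-U)) := by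
      intro j
      refine hgmin j _ ⟨G.mul_mem (hg j).1 hneg.1, ?_⟩
      rw [act_mul, hneg.2, (hg j).2]
    set E : ℕ → Mat n := fun j => NormedSpace.exp (u j) * NormedSpace.exp (-U) with hE
    set E' : ℕ → Mat n := fun j => NormedSpace.exp U * NormedSpace.exp (-u j) with hE'
    have hexpt : Tendsto (fun j => NormedSpace.exp (u (ψ j))) atTop (𝓝 (NormedSpace.exp U)) :=
      (continuous_matExp.tendsto _).comp hUlim
    have hexpt' : Tendsto (fun j => NormedSpace.exp (-u (ψ j))) atTop (𝓝 (NormedSpace.exp (-U))) :=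
      (continuous_matExp.tendsto _).comp hUlim.neg
    have hinv1 : (NormedSpace.exp U : Mat n) * NormedSpace.exp (-U) = 1 := (ex U).val_inv
    have hEt : Tendsto (fun j => nm (E (ψ j) - 1)) atTop (𝓝 0) := by
      have h1 : Tendsto (fun j => E (ψ j)) atTop (𝓝 (NormedSpace.exp U * NormedSpace.exp (-U))) :=
        hexpt.mul tendsto_const_nhds
      rw [hinv1] at h1
      have h2 : Tendsto (fun j => E (ψ j) - 1) atTop (𝓝 (1 - 1)) := h1.sub tendsto_const_nhds
      rw [sub_self] at h2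
      have h3 := (continuous_nm.tendsto (0 : Mat n)).comp h2
      rw [nm_eq_zero.2 rfl] at h3
      exact h3
    have hEt' : Tendsto (fun j => nm (E' (ψ j) - 1)) atTop (𝓝 0) := by
      have h1 : Tendsto (fun j => E' (ψ j)) atTop (𝓝 (NormedSpace.exp U * NormedSpace.exp (-U))) :=
        tendsto_const_nhds.mul hexpt'
      rw [hinv1] at h1
      have h2 : Tendsto (fun j => E' (ψ j) - 1) atTop (𝓝 (1 - 1)) := h1.sub tendsto_const_nhds
      rw [sub_self] at h2
      have h3 := (continuous_nm.tendsto (0 : Mat n)).comp h2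
      rw [nm_eq_zero.2 rfl] at h3
      exact h3
    have hcont : Tendsto (fun x : ℝ => (n : ℝ) * ((1 + √x) ^ 2 - 1)) (𝓝 0) (𝓝 0) := by
      have h1 : Continuous fun x : ℝ => (n : ℝ) * ((1 + √x) ^ 2 - 1) := by fun_prop
      have h2 := h1.tendsto 0
      simpa using h2
    have hev1 : ∀ᶠ j in atTop, (n : ℝ) * ((1 + √(nm (E (ψ j) - 1))) ^ 2 - 1) < 1 :=
      (hcont.comp hEt).eventually_lt_const (by norm_num)
    have hev2 : ∀ᶠ j in atTop, (n : ℝ) * ((1 + √(nm (E' (ψ j) - 1))) ^ 2 - 1) < 1 :=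
      (hcont.comp hEt').eventually_lt_const (by norm_num)
    have hev3 : ∀ᶠ j in atTop, 0 < phi (g (ψ j)) := hψ.tendsto_atTop.eventually (hb 0)
    obtain ⟨j, hj1, hj2, hj3, hj4⟩ :=
      ((hev1.and (hev2.and (hev3.and (hsψ.eventually_ge_atTop 1))))).exists
    set i := ψ j
    have hsi : 0 < s i := by linarith
    have hui1 : nm (u i) = 1 := by
      simp only [hu]
      rw [nm_smul, ← hsq, inv_pow, inv_mul_cancel₀ (pow_ne_zero 2 hsi.ne')]
    have hξi : ξ i = ((s i : ℝ) : ℂ) • u i := by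
      simp only [hu]
      rw [smul_smul, ← Complex.ofReal_mul, mul_inv_cancel₀ hsi.ne', Complex.ofReal_one, one_smul]
    have hgr := growth (u i) (huH i) hui1 (s i) hj4
    set f1 := nm (NormedSpace.exp (((s i - 1 : ℝ) : ℂ) • u i)) with hf1
    set f2 := nm (NormedSpace.exp (((-(s i - 1) : ℝ) : ℂ) • u i)) with hf2
    have hf1n : 0 ≤ f1 := nm_nonneg _
    have hf2n : 0 ≤ f2 := nm_nonneg _
    have hphii : phi (g i) = nm (NormedSpace.exp ((s i : ℂ) • u i)) +
        nm (NormedSpace.exp (((-s i : ℝ) : ℂ) • u i)) := by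
      rw [hphi i, hξi]
      congr 3
      push_cast
      rw [neg_smul]
    rw [← hphii] at hgr
    -- factorisation
    have hfac1 : NormedSpace.exp (ξ i) * NormedSpace.exp (-U) =
        NormedSpace.exp (((s i - 1 : ℝ) : ℂ) • u i) * E i := by
      simp only [hE]
      rw [← mul_assoc]
      congr 1
      have h1 := congrArg Units.val (ex_add_smul ((s i - 1 : ℝ) : ℂ) 1 (u i))
      rw [Units.val_mul, ex_val, ex_val, ex_val, one_smul] at h1
      rw [← h1, hξi]
      congr 2
      push_cast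
      ring
    have hfac2 : NormedSpace.exp U * NormedSpace.exp (-ξ i) =
        E' i * NormedSpace.exp (((-(s i - 1) : ℝ) : ℂ) • u i) := by
      simp only [hE']
      rw [mul_assoc]
      congr 1
      have h1 := congrArg Units.val (ex_add_smul (-1) ((-(s i - 1) : ℝ) : ℂ) (u i))
      rw [Units.val_mul, ex_val, ex_val, ex_val, neg_smul, one_smul] at h1
      rw [← h1, hξi, ← neg_smul]
      congr 2
      push_cast
      ring
    have hphi2 : phi (g i * ex (-U)) = nm (NormedSpace.exp (((s i - 1 : ℝ) : ℂ) • u i) * E i) +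
        nm (E' i * NormedSpace.exp (((-(s i - 1) : ℝ) : ℂ) • u i)) := by
      unfold phi
      rw [← hfac1, ← hfac2]
      congr 1
      · rw [hgk i, Units.val_mul, Units.val_mul, mul_assoc, nm_unitary_mul (hkU i), ex_val, ex_val]
      · rw [_root_.mul_inv_rev, hgk i, _root_.mul_inv_rev, Units.val_mul, Units.val_mul, ← mul_assoc,
          nm_mul_unitary ((UU n).inv_mem (hkU i)), ex_inv_val, ex_inv_val, neg_neg]
    have hA := nm_mul_near (NormedSpace.exp (((s i - 1 : ℝ) : ℂ) • u i)) (E i)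
    have hB := nm_near_mul (NormedSpace.exp (((-(s i - 1) : ℝ) : ℂ) • u i)) (E' i)
    have hci := hcmp i
    rw [hphi2] at hci
    have hn : (0 : ℝ) ≤ n := Nat.cast_nonneg n
    have hfin : (n : ℝ) * phi (g i) ≤ (n + 1) * (f1 + f2) := by
      calc (n : ℝ) * phi (g i) ≤ n * ((1 + √(nm (E i - 1))) ^ 2 * f1 +
            (1 + √(nm (E' i - 1))) ^ 2 * f2) := by
            refine mul_le_mul_of_nonneg_left ?_ hn
            linarith
        _ = (n * ((1 + √(nm (E i - 1))) ^ 2 - 1)) * f1 + (n * ((1 + √(nm (E' i - 1))) ^ 2 - 1)) * f2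
            + n * (f1 + f2) := by ring
        _ ≤ 1 * f1 + 1 * f2 + n * (f1 + f2) := by
            gcongr
        _ = (n + 1) * (f1 + f2) := by ring
    have hsum : f1 + f2 ≤ 0 := by nlinarith
    have h0 : f1 = 0 ∧ f2 = 0 := ⟨by linarith, by linarith⟩
    have hzero : phi (g i) ≤ 0 := by
      have h1 : nm (NormedSpace.exp (((s i - 1 : ℝ) : ℂ) • u i) * E i) ≤ 0 := by
        refine hA.trans ?_
        rw [← hf1, h0.1, mul_zero]
      have h2 : nm (E' i * NormedSpace.exp (((-(s i - 1) : ℝ) : ℂ) • u i)) ≤ 0 := by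
        refine hB.trans ?_
        rw [← hf2, h0.2, mul_zero]
      linarith
    linarith

end Flawed
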