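import Pool.Agent.Helper78.FL.Statements

open Matrix MeasureTheory Topology
open scoped ComplexConjugate ComplexOrder

namespace Flawed

namespace Cpt

variable {n : ℕ}

theorem continuous_pev (f : MvPolynomial (Fin n × Fin n) ℂ) :
    Continuous (fun g : GLn n => pev f (g : Mat n)) := by
  have h1 : Continuous (fun g : GLn n => (fun p : Fin n × Fin n => (g : Mat n) p.1 p.2)) := by
    refine continuous_pi fun p => ?_
    have h2 : Continuous (fun g : GLn n => (g : Mat n)) := Units.continuous_val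
    exact h2.matrix_elem p.1 p.2
  have h3 := (MvPolynomial.continuous_eval f).comp h1
  exact h3

theorem closed_of_alg {G : Subgroup (GLn n)} (hG : IsAlgebraic G) :
    IsClosed (G : Set (GLn n)) := by
  obtain ⟨S, hS⟩ := hG
  have : (G : Set (GLn n)) = ⋂ f ∈ S, {g : GLn n | pev f (g : Mat n) = 0} := by
    ext g
    simp only [SetLike.mem_coe, hS, Set.mem_iInter]
    rfl
  rw [this]
  exact isClosed_biInter fun f _ => isClosed_eq (continuous_pev f) continuous_const

theorem compact_entries (R : ℝ) : IsCompact {x : Mat n | ∀ a b, ‖x a b‖ ≤ R} := by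
  have h : IsCompact (Set.pi Set.univ fun _ : Fin n =>
      Set.pi Set.univ fun _ : Fin n => Metric.closedBall (0 : ℂ) R) :=
    isCompact_univ_pi fun _ => isCompact_univ_pi fun _ => isCompact_closedBall 0 R
  have h2 : {x : Mat n | ∀ a b, ‖x a b‖ ≤ R} = (Set.pi Set.univ fun _ : Fin n =>
      Set.pi Set.univ fun _ : Fin n => Metric.closedBall (0 : ℂ) R) := by
    ext x
    constructor
    · intro hx a _ b _
      exact mem_closedBall_zero_iff.2 (hx a b)
    · intro hx a b
      exact mem_closedBall_zero_iff.1 (hx a trivial b trivial)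
  rw [h2]
  exact h

theorem entry_le {x : Mat n} {C : ℝ} (h : nm x ≤ C) (a b : Fin n) : ‖x a b‖ ≤ Real.sqrt C :=
  Real.le_sqrt_of_sq_le ((norm_sq_entry_le_nm x a b).trans h)

theorem compact_nm (C : ℝ) : IsCompact {x : Mat n | nm x ≤ C} :=
  (compact_entries (Real.sqrt C)).of_isClosed_subset
    (isClosed_le continuous_nm continuous_const) fun _ hx a b => entry_le hx a b

theorem compact_nsq {ι : Type} [Fintype ι] (C : ℝ) : IsCompact {v : ι → Mat n | nsq v ≤ C} := by
  have h : IsCompact (Set.pi Set.univ fun _ : ι => {x : Mat n | nm x ≤ C}) :=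
    isCompact_univ_pi fun _ => compact_nm C
  refine h.of_isClosed_subset (isClosed_le continuous_nsq continuous_const) ?_
  intro v hv i _
  exact (nm_le_nsq v i).trans hv

theorem isClosedEmbedding_embedProduct :
    IsClosedEmbedding (fun g : GLn n => Units.embedProduct (Mat n) g) := by
  refine ⟨Units.isEmbedding_embedProduct, ?_⟩
  have : Set.range (fun g : GLn n => Units.embedProduct (Mat n) g) =
      {p : Mat n × (Mat n)ᵐᵒᵖ | p.1 * p.2.unop = 1 ∧ p.2.unop * p.1 = 1} := by
    ext p
    constructor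
    · rintro ⟨g, rfl⟩
      simp
    · rintro ⟨h1, h2⟩
      exact ⟨⟨p.1, p.2.unop, h1, h2⟩, rfl⟩
  rw [this]
  have h1 : Continuous (fun p : Mat n × (Mat n)ᵐᵒᵖ => p.1) := continuous_fst
  have h2 : Continuous (fun p : Mat n × (Mat n)ᵐᵒᵖ => p.2.unop) :=
    MulOpposite.continuous_unop.comp continuous_snd
  exact (isClosed_eq (h1.matrix_mul h2) continuous_const).inter
    (isClosed_eq (h2.matrix_mul h1) continuous_const)

theorem compact_GL (C : ℝ) :
    IsCompact {g : GLn n | nm (g : Mat n) ≤ C ∧ nm ((g⁻¹ : GLn n) : Mat n) ≤ C} := by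
  have h1 : IsCompact ({x : Mat n | nm x ≤ C} ×ˢ (MulOpposite.op '' {x : Mat n | nm x ≤ C})) :=
    (compact_nm C).prod ((compact_nm C).image MulOpposite.continuous_op)
  have h2 := isClosedEmbedding_embedProduct.isProperMap.isCompact_preimage h1
  have h3 : {g : GLn n | nm (g : Mat n) ≤ C ∧ nm ((g⁻¹ : GLn n) : Mat n) ≤ C} =
      (fun g : GLn n => Units.embedProduct (Mat n) g) ⁻¹'
      ({x : Mat n | nm x ≤ C} ×ˢ (MulOpposite.op '' {x : Mat n | nm x ≤ C})) := by
    ext g
    constructor
    · rintro ⟨h4, h5⟩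
      exact ⟨h4, _, h5, rfl⟩
    · rintro ⟨h4, x, h5, h6⟩
      refine ⟨h4, ?_⟩
      have h7 : x = ((g⁻¹ : GLn n) : Mat n) := MulOpposite.op_injective h6
      rw [← h7]
      exact h5
  rw [h3]
  exact h2

theorem nm_UU {u : GLn n} (hu : u ∈ UU n) : nm (u : Mat n) = n := by
  have h := nm_eq_trace (u : Mat n)
  rw [mem_UU'.1 hu, Units.mul_inv, Matrix.trace_one, Fintype.card_fin] at h
  exact_mod_cast h

theorem closed_UU : IsClosed (UU n : Set (GLn n)) := by
  have h1 : Continuous (fun g : GLn n => (g : Mat n)ᴴ) :=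
    Units.continuous_val.matrix_conjTranspose
  have h2 : Continuous (fun g : GLn n => ((g⁻¹ : GLn n) : Mat n)) :=
    Units.continuous_val.comp continuous_inv
  have : (UU n : Set (GLn n)) = {g : GLn n | (g : Mat n)ᴴ = ((g⁻¹ : GLn n) : Mat n)} := by
    ext g
    exact mem_UU'
  rw [this]
  exact isClosed_eq h1 h2

theorem compact_UU : IsCompact (UU n : Set (GLn n)) := by
  refine (compact_GL (n : ℝ)).of_isClosed_subset closed_UU ?_
  intro u hu
  exact ⟨(nm_UU hu).le, (nm_UU ((UU n).inv_mem hu)).le⟩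

end Cpt

theorem cpt : StCpt := by
  refine ⟨fun n G hG => Cpt.closed_of_alg hG, fun n C => Cpt.compact_GL C,
    fun n => Cpt.compact_UU, fun n G hG => ?_, fun n ι _ C => Cpt.compact_nsq C⟩
  exact Cpt.compact_UU.inter_left (Cpt.closed_of_alg hG)

end Flawed
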