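import Pool.Agent.Helper78.FL.Statements

/-!
FL24 of MP_1b2618_al.
-/

open Matrix MeasureTheory
open scoped ComplexConjugate

namespace Flawed

theorem emb_cjt {n r : ℕ} (k : GLn n) (x : Fin r → GLn n) : emb (cjt k x) = act k (emb x) := by
  funext i
  rcases i with i | i
  · simp [emb, cjt, act]
  · simp [emb, cjt, act, mul_assoc]

theorem cjt_mem_TT {n r : ℕ} {N : Fin r → ℕ} {G : Subgroup (GLn n)} {k : GLn n} (hk : k ∈ G)
    {x : Fin r → GLn n} (hx : x ∈ TT N G) : cjt k x ∈ TT N G := by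
  refine ⟨fun i => G.mul_mem (G.mul_mem hk (hx.1 i)) (G.inv_mem hk), fun i j => ?_⟩
  simp only [cjt, conj_pow]
  rw [hx.2 i j]

theorem cjt_pow_mem_UU {n r : ℕ} {N : Fin r → ℕ} {k : GLn n} (hk : k ∈ UU n)
    {x : Fin r → GLn n} (hx : ∀ i, x i ^ N i ∈ UU n) : ∀ i, (cjt k x) i ^ N i ∈ UU n := by
  intro i
  simp only [cjt, conj_pow]
  exact (UU n).mul_mem ((UU n).mul_mem hk (hx i)) ((UU n).inv_mem hk)

theorem deform (h1 : StStage1) (h2 : StStage2) : StDeform := by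
  intro n r N G hr hN hG
  obtain ⟨S₁, c₁, p₁⟩ := h1 n r N G hr hN hG
  obtain ⟨S₂, c₂, p₂⟩ := h2 n r N G hr hN hG
  refine ⟨fun x s => if s ≤ 1 / 2 then S₁ x (2 * s) else S₂ (S₁ x 1) (2 * s - 1), ?_, ?_⟩
  · -- continuity
    have hA : ContinuousOn (fun p : (Fin r → GLn n) × ℝ => S₁ p.1 (2 * p.2))
        (({x | x ∈ TT N G ∧ IsMin G (emb x)} ×ˢ Set.Icc 0 1) ∩ {p | p.2 ≤ 1 / 2}) := by
      have : ContinuousOn (fun p : (Fin r → GLn n) × ℝ => ((p.1, 2 * p.2) : (Fin r → GLn n) × ℝ))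
          (({x | x ∈ TT N G ∧ IsMin G (emb x)} ×ˢ Set.Icc 0 1) ∩ {p | p.2 ≤ 1 / 2}) := by
        fun_prop
      refine c₁.comp this ?_
      rintro ⟨x, s⟩ ⟨⟨hx, hs0, hs1⟩, hs2⟩
      simp only [Set.mem_ofPred_eq] at hs2 hs0 hs1
      exact ⟨hx, by constructor <;> simp only <;> linarith⟩
    have hB : ContinuousOn (fun p : (Fin r → GLn n) × ℝ => S₂ (S₁ p.1 1) (2 * p.2 - 1))
        (({x | x ∈ TT N G ∧ IsMin G (emb x)} ×ˢ Set.Icc 0 1) ∩ {p | 1 / 2 ≤ p.2}) := by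
      have hB1 : ContinuousOn (fun p : (Fin r → GLn n) × ℝ => S₁ p.1 1)
          (({x | x ∈ TT N G ∧ IsMin G (emb x)} ×ˢ Set.Icc 0 1) ∩ {p | 1 / 2 ≤ p.2}) := by
        have : ContinuousOn (fun p : (Fin r → GLn n) × ℝ => ((p.1, 1) : (Fin r → GLn n) × ℝ))
          (({x | x ∈ TT N G ∧ IsMin G (emb x)} ×ˢ Set.Icc 0 1) ∩ {p | 1 / 2 ≤ p.2}) := by
          fun_prop
        refine c₁.comp this ?_
        rintro ⟨x, s⟩ ⟨⟨hx, hs0, hs1⟩, hs2⟩
        exact ⟨hx, by constructor <;> simp only <;> norm_num⟩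
      have : ContinuousOn (fun p : (Fin r → GLn n) × ℝ =>
            ((S₁ p.1 1, 2 * p.2 - 1) : (Fin r → GLn n) × ℝ))
          (({x | x ∈ TT N G ∧ IsMin G (emb x)} ×ˢ Set.Icc 0 1) ∩ {p | 1 / 2 ≤ p.2}) := by
        refine hB1.prodMk ?_
        fun_prop
      refine c₂.comp this ?_
      rintro ⟨x, s⟩ ⟨⟨hx, hs0, hs1⟩, hs2⟩
      simp only [Set.mem_ofPred_eq] at hs2 hs0 hs1
      have := p₁ x hx.1 hx.2
      exact ⟨⟨this.1 1, this.2.2.1⟩, by constructor <;> simp only <;> linarith⟩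
    have hF : ∀ p ∈ ({x | x ∈ TT N G ∧ IsMin G (emb x)} ×ˢ Set.Icc 0 1) ∩
        {p : (Fin r → GLn n) × ℝ | 1 / 2 ≤ p.2},
        (if p.2 ≤ 1 / 2 then S₁ p.1 (2 * p.2) else S₂ (S₁ p.1 1) (2 * p.2 - 1)) =
          S₂ (S₁ p.1 1) (2 * p.2 - 1) := by
      rintro ⟨x, s⟩ ⟨⟨hx, hs0, hs1⟩, hs2⟩
      simp only [Set.mem_ofPred_eq] at hs2
      rcases eq_or_lt_of_le hs2 with h | h
      · subst h
        have e1 := p₁ x hx.1 hx.2
        have e2 := p₂ (S₁ x 1) (e1.1 1) e1.2.2.1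
        simp only [le_refl, if_true]
        rw [show (2 : ℝ) * (1 / 2) = 1 by norm_num, show (1 : ℝ) - 1 = 0 by norm_num, e2.2.1]
      · rw [if_neg (by simp only; linarith)]
    have hF' : ∀ p ∈ ({x | x ∈ TT N G ∧ IsMin G (emb x)} ×ˢ Set.Icc 0 1) ∩
        {p : (Fin r → GLn n) × ℝ | p.2 ≤ 1 / 2},
        (if p.2 ≤ 1 / 2 then S₁ p.1 (2 * p.2) else S₂ (S₁ p.1 1) (2 * p.2 - 1)) =
          S₁ p.1 (2 * p.2) := by
      rintro ⟨x, s⟩ ⟨⟨hx, hs0, hs1⟩, hs2⟩
      simp only [Set.mem_ofPred_eq] at hs2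
      rw [if_pos hs2]
    have hU : ({x | x ∈ TT N G ∧ IsMin G (emb x)} ×ˢ Set.Icc 0 1 :
          Set ((Fin r → GLn n) × ℝ)) =
        (({x | x ∈ TT N G ∧ IsMin G (emb x)} ×ˢ Set.Icc 0 1) ∩ {p | p.2 ≤ 1 / 2}) ∪
        (({x | x ∈ TT N G ∧ IsMin G (emb x)} ×ˢ Set.Icc 0 1) ∩ {p | 1 / 2 ≤ p.2}) := by
      rw [← Set.inter_union_distrib_left]
      refine (Set.inter_eq_left.2 ?_).symm
      intro p _
      exact le_total p.2 (1 / 2)
    rw [hU]
    intro p hp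
    have hL : ContinuousWithinAt
        (fun p : (Fin r → GLn n) × ℝ =>
          if p.2 ≤ 1 / 2 then S₁ p.1 (2 * p.2) else S₂ (S₁ p.1 1) (2 * p.2 - 1))
        (({x | x ∈ TT N G ∧ IsMin G (emb x)} ×ˢ Set.Icc 0 1) ∩ {p | p.2 ≤ 1 / 2}) p := by
      by_cases hp2 : p.2 ≤ 1 / 2
      · have hpm : p ∈ (({x | x ∈ TT N G ∧ IsMin G (emb x)} ×ˢ Set.Icc 0 1) ∩
            {p : (Fin r → GLn n) × ℝ | p.2 ≤ 1 / 2}) := by
          rcases hp with hp | hp
          · exact hp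
          · exact ⟨hp.1, hp2⟩
        exact (hA.congr hF') p hpm
      · -- `p` is not in the closure
        apply continuousWithinAt_of_notMem_closure
        intro hcl
        have : p ∈ closure {p : (Fin r → GLn n) × ℝ | p.2 ≤ 1 / 2} :=
          closure_mono Set.inter_subset_right hcl
        rw [IsClosed.closure_eq (isClosed_le continuous_snd continuous_const)] at this
        exact hp2 this
    have hR : ContinuousWithinAt
        (fun p : (Fin r → GLn n) × ℝ =>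
          if p.2 ≤ 1 / 2 then S₁ p.1 (2 * p.2) else S₂ (S₁ p.1 1) (2 * p.2 - 1))
        (({x | x ∈ TT N G ∧ IsMin G (emb x)} ×ˢ Set.Icc 0 1) ∩ {p | 1 / 2 ≤ p.2}) p := by
      by_cases hp2 : 1 / 2 ≤ p.2
      · have hpm : p ∈ (({x | x ∈ TT N G ∧ IsMin G (emb x)} ×ˢ Set.Icc 0 1) ∩
            {p : (Fin r → GLn n) × ℝ | 1 / 2 ≤ p.2}) := by
          rcases hp with hp | hp
          · exact ⟨hp.1, hp2⟩
          · exact hp
        exact (hB.congr hF) p hpm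
      · apply continuousWithinAt_of_notMem_closure
        intro hcl
        have : p ∈ closure {p : (Fin r → GLn n) × ℝ | 1 / 2 ≤ p.2} :=
          closure_mono Set.inter_subset_right hcl
        rw [IsClosed.closure_eq (isClosed_le continuous_const continuous_snd)] at this
        exact hp2 this
    exact hL.union hR
  · intro x hx hm
    obtain ⟨q1, q2, q3, q4, q5⟩ := p₁ x hx hm
    obtain ⟨t1, t2, t3, t4, t5⟩ := p₂ (S₁ x 1) (q1 1) q3
    refine ⟨?_, ?_, ?_, ?_, ?_⟩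
    · intro s _
      by_cases hs : s ≤ 1 / 2
      · simp only [hs, if_true]; exact q1 _
      · simp only [hs, if_false]; exact t1 _
    · have : (0 : ℝ) ≤ 1 / 2 := by norm_num
      simp only [this, if_true, mul_zero]
      exact q2
    · have : ¬ ((1 : ℝ) ≤ 1 / 2) := by norm_num
      simp only [this, if_false]
      rw [show (2 : ℝ) * 1 - 1 = 1 by norm_num]
      exact t3
    · intro k hk s _
      by_cases hs : s ≤ 1 / 2
      · simp only [hs, if_true]; exact q4 k hk _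
      · simp only [hs, if_false]
        rw [q4 k hk, t4 k hk]
    · intro hu s _
      have e : S₁ x 1 = x := q5 hu 1
      by_cases hs : s ≤ 1 / 2
      · simp only [hs, if_true]; exact q5 hu _
      · simp only [hs, if_false]
        rw [t5 (by rw [e]; exact hu), e]

end Flawed
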