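import Pool.Agent.Helper78.FL.Statements

/-!
FL12: divergence of the resolvent integral (module for MP_1b2618_al).
-/

open Matrix MeasureTheory
open scoped ComplexConjugate ComplexOrder

namespace Flawed

theorem FL12_pow (u : ℂ) (hu : ‖u‖ ≤ 1) (p : ℕ) : ‖u ^ p - 1‖ ≤ p * ‖u - 1‖ := by
  rw [← mul_geom_sum, norm_mul, mul_comm]
  apply mul_le_mul_of_nonneg_right _ (norm_nonneg _)
  refine (norm_sum_le _ _).trans ?_
  have : ∀ i ∈ Finset.range p, ‖u ^ i‖ ≤ 1 := by
    intro i _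
    rw [norm_pow]
    exact pow_le_one₀ (norm_nonneg _) hu
  calc ∑ i ∈ Finset.range p, ‖u ^ i‖ ≤ ∑ i ∈ Finset.range p, (1 : ℝ) := Finset.sum_le_sum this
    _ = p := by simp

theorem FL12_cone (p : ℕ) (hp : 0 < p) (y : ℂ) (hy : 0 < y.re)
    (hyi : |y.im| ≤ 1 / (4 * p) * y.re) : (‖y‖ ^ p)⁻¹ / 2 ≤ ((y ^ p)⁻¹).re := by
  have hp' : (0 : ℝ) < p := by exact_mod_cast hp
  have hy0 : 0 < ‖y‖ := lt_of_lt_of_le hy (Complex.re_le_norm y)
  have hyne : (‖y‖ : ℂ) ≠ 0 := by exact_mod_cast hy0.ne'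
  -- the unit vector
  set u : ℂ := conj y / ‖y‖ with hu
  have hu1 : ‖u‖ = 1 := by
    rw [hu, norm_div, RCLike.norm_conj, Complex.norm_real, Real.norm_eq_abs, abs_norm,
      div_self hy0.ne']
  have hsub : ‖u - 1‖ ≤ 2 * |y.im| / ‖y‖ := by
    have h1 : u - 1 = (conj y - ‖y‖) / ‖y‖ := by
      rw [hu]
      field_simp
    rw [h1, norm_div, Complex.norm_real, Real.norm_eq_abs, abs_norm]
    apply div_le_div_of_nonneg_right _ hy0.le
    have h2 : ‖conj y - (‖y‖ : ℂ)‖ ≤ |(conj y - (‖y‖ : ℂ)).re| + |(conj y - (‖y‖ : ℂ)).im| :=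
      Complex.norm_le_abs_re_add_abs_im _
    have h3 : (conj y - (‖y‖ : ℂ)).re = y.re - ‖y‖ := by simp
    have h4 : (conj y - (‖y‖ : ℂ)).im = - y.im := by simp
    rw [h3, h4, abs_neg] at h2
    have h5 : ‖y‖ ≤ |y.re| + |y.im| := Complex.norm_le_abs_re_add_abs_im y
    have h6 : y.re ≤ ‖y‖ := Complex.re_le_norm y
    rw [abs_of_pos hy] at h5
    rw [abs_of_nonpos (by linarith)] at h2
    linarith
  have hsub2 : ‖u - 1‖ ≤ 1 / (2 * p) := by
    refine hsub.trans ?_
    rw [div_le_iff₀ hy0]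
    have h6 : y.re ≤ ‖y‖ := Complex.re_le_norm y
    calc 2 * |y.im| ≤ 2 * (1 / (4 * p) * y.re) := by linarith
      _ = 1 / (2 * p) * y.re := by ring
      _ ≤ 1 / (2 * p) * ‖y‖ := mul_le_mul_of_nonneg_left h6 (by positivity)
  have hpow : ‖u ^ p - 1‖ ≤ 1 / 2 := by
    refine (FL12_pow u hu1.le p).trans ?_
    calc (p : ℝ) * ‖u - 1‖ ≤ p * (1 / (2 * p)) := mul_le_mul_of_nonneg_left hsub2 hp'.le
      _ = 1 / 2 := by field_simp
  have hre : 1 / 2 ≤ (u ^ p).re := by
    have h1 : |(u ^ p - 1).re| ≤ 1 / 2 := (Complex.abs_re_le_norm _).trans hpow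
    have h2 : (u ^ p - 1).re = (u ^ p).re - 1 := by simp
    rw [h2] at h1
    have := (abs_le.mp h1).1
    linarith
  have hinv : (y ^ p)⁻¹ = ((‖y‖ ^ p)⁻¹ : ℝ) * u ^ p := by
    have h1 : y * conj y = (‖y‖ : ℂ) ^ 2 := by
      rw [Complex.mul_conj, Complex.normSq_eq_norm_sq]
      push_cast
      rfl
    have hy1 : y ≠ 0 := by
      intro h; rw [h] at hy; simp at hy
    have h2 : y⁻¹ = (‖y‖ : ℂ)⁻¹ * u := by
      rw [hu]
      field_simp
      exact h1.symm
    rw [← inv_pow, h2, mul_pow]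
    push_cast
    rw [inv_pow]
  rw [hinv, Complex.re_ofReal_mul, div_eq_mul_one_div]
  exact mul_le_mul_of_nonneg_left hre (by positivity)

theorem div : StDiv := by
  intro Ω _ μ _ w d a c D hw hd hd0 hc hre him hvol p hp B
  have hp0 : 0 < p := by omega
  have hp' : (0 : ℝ) < p := by exact_mod_cast hp0
  obtain ⟨δ, hδ, hδim⟩ := him (1 / (8 * p)) (by positivity)
  set C₁ : ℝ := (((δ ^ 2 / 2) ^ p)⁻¹) with hC₁
  have hC₁0 : 0 < C₁ := by positivity
  set ρ : ℝ := min (min δ 1) (c * (2 ^ p)⁻¹ / (2 * (|B| + C₁ + 1))) with hρ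
  have hρ0 : 0 < ρ := by
    rw [hρ]
    refine lt_min (lt_min hδ one_pos) ?_
    positivity
  have hρδ : ρ ≤ δ := (min_le_left _ _).trans (min_le_left _ _)
  have hρ1 : ρ ≤ 1 := (min_le_left _ _).trans (min_le_right _ _)
  have hρB : ρ ≤ c * (2 ^ p)⁻¹ / (2 * (|B| + C₁ + 1)) := min_le_right _ _
  refine ⟨a + ρ ^ 2, by nlinarith [sq_nonneg ρ, pow_pos hρ0 2], ?_⟩
  intro s hs1 hs2
  -- pointwise facts
  have hsre : ∀ᵐ x ∂μ, ((s : ℂ) - w x).re = (s - a) + d x ^ 2 / 2 := by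
    filter_upwards [hre] with x hx
    rw [Complex.sub_re, Complex.ofReal_re, hx]
    ring
  have hmeas : Measurable (fun x => (((s : ℂ) - w x) ^ p)⁻¹) :=
    ((measurable_const.sub hw).pow_const p).inv
  have hint : Integrable (fun x => (((s : ℂ) - w x) ^ p)⁻¹) μ := by
    refine Integrable.of_bound hmeas.aestronglyMeasurable (((s - a) ^ p)⁻¹) ?_
    filter_upwards [hsre] with x hx
    rw [norm_inv, norm_pow]
    apply inv_anti₀ (pow_pos (by linarith) _)
    apply pow_le_pow_left₀ (by linarith)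
    refine le_trans ?_ (Complex.re_le_norm _)
    rw [hx]
    nlinarith [sq_nonneg (d x)]
  set M : ℝ := ((2 * ρ ^ 2) ^ p)⁻¹ / 2 with hM
  have hM0 : 0 < M := by positivity
  have hlow : ∀ᵐ x ∂μ, -C₁ + {x | d x ≤ ρ}.indicator (fun _ => M) x ≤
      ((((s : ℂ) - w x) ^ p)⁻¹).re := by
    filter_upwards [hsre, hδim] with x hx hxi
    have hypos : 0 < ((s : ℂ) - w x).re := by
      rw [hx]; nlinarith [sq_nonneg (d x)]
    have him' : ((s : ℂ) - w x).im = - (w x).im := by simp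
    by_cases h1 : d x ≤ δ
    · have h2 := hxi h1
      have h3 : |((s : ℂ) - w x).im| ≤ 1 / (4 * p) * ((s : ℂ) - w x).re := by
        rw [him', abs_neg, hx]
        have h4 : 1 / (8 * (p : ℝ)) * d x ^ 2 = 1 / (4 * p) * (d x ^ 2 / 2) := by ring
        rw [h4] at h2
        refine h2.trans ?_
        apply mul_le_mul_of_nonneg_left _ (by positivity)
        linarith
      have h5 := FL12_cone p hp0 _ hypos h3
      by_cases h6 : d x ≤ ρ
      · rw [Set.indicator_of_mem (show x ∈ {x | d x ≤ ρ} from h6)]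
        have h7 : ‖(s : ℂ) - w x‖ ≤ 2 * ρ ^ 2 := by
          have h8 := Complex.norm_le_abs_re_add_abs_im ((s : ℂ) - w x)
          rw [him', abs_neg, abs_of_pos hypos, hx] at h8
          have h9 : d x ^ 2 ≤ ρ ^ 2 := pow_le_pow_left₀ (hd0 x) h6 2
          have h10 : 1 / (8 * (p : ℝ)) ≤ 1 / 8 := by
            apply one_div_le_one_div_of_le (by norm_num)
            have : (1 : ℝ) ≤ p := by exact_mod_cast hp0
            linarith
          have h11 : |(w x).im| ≤ 1 / 8 * d x ^ 2 :=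
            h2.trans (mul_le_mul_of_nonneg_right h10 (sq_nonneg _))
          nlinarith
        have h12 : M ≤ (‖(s : ℂ) - w x‖ ^ p)⁻¹ / 2 := by
          rw [hM]
          apply div_le_div_of_nonneg_right _ (by norm_num)
          apply inv_anti₀
          · apply pow_pos
            exact lt_of_lt_of_le hypos (Complex.re_le_norm _)
          · exact pow_le_pow_left₀ (norm_nonneg _) h7 p
        linarith
      · rw [Set.indicator_of_notMem (show x ∉ {x | d x ≤ ρ} from h6)]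
        have : 0 ≤ (‖(s : ℂ) - w x‖ ^ p)⁻¹ / 2 := by positivity
        linarith
    · push Not at h1
      rw [Set.indicator_of_notMem (show x ∉ {x | d x ≤ ρ} from by
        simp only [Set.mem_ofPred_eq, not_le]; linarith)]
      have h2 : ‖(((s : ℂ) - w x) ^ p)⁻¹‖ ≤ C₁ := by
        rw [norm_inv, norm_pow, hC₁]
        apply inv_anti₀ (by positivity)
        apply pow_le_pow_left₀ (by positivity)
        refine le_trans ?_ (Complex.re_le_norm _)
        rw [hx]
        have : δ ^ 2 ≤ d x ^ 2 := pow_le_pow_left₀ hδ.le h1.le 2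
        linarith
      have h3 := (abs_le.mp ((Complex.abs_re_le_norm _).trans h2)).1
      linarith
  have hset : MeasurableSet {x | d x ≤ ρ} := measurableSet_le hd measurable_const
  have hintl : Integrable (fun x => -C₁ + {x | d x ≤ ρ}.indicator (fun _ => M) x) μ :=
    (integrable_const _).add ((integrable_const M).indicator hset)
  have hmono := integral_mono_ae hintl hint.re hlow
  have hcalc : ∫ x, (-C₁ + {x | d x ≤ ρ}.indicator (fun _ => M) x) ∂μ =
      -C₁ + μ.real {x | d x ≤ ρ} * M := by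
    rw [integral_add (integrable_const _) ((integrable_const M).indicator hset),
      integral_const, integral_indicator_const M hset]
    simp
  have hreal : c * ρ ^ D ≤ μ.real {x | d x ≤ ρ} := by
    have h1 := hvol ρ hρ0 hρ1
    rw [ENNReal.ofReal_le_iff_le_toReal (measure_ne_top μ _)] at h1
    exact h1
  have hreint : ∫ x, ((((s : ℂ) - w x) ^ p)⁻¹).re ∂μ =
      (∫ x, (((s : ℂ) - w x) ^ p)⁻¹ ∂μ).re := integral_re hint
  have hbig : |B| + C₁ + 1 ≤ μ.real {x | d x ≤ ρ} * M := by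
    have h1 : c * ρ ^ D * M ≤ μ.real {x | d x ≤ ρ} * M :=
      mul_le_mul_of_nonneg_right hreal hM0.le
    refine le_trans ?_ h1
    -- `c ρ^D (2ρ²)^(-p) / 2 ≥ c 2^(-p) / (2ρ)`
    have h2 : c * ρ ^ D * M = c * (2 ^ p)⁻¹ / 2 * (ρ ^ D / ρ ^ (2 * p)) := by
      rw [hM, mul_pow, ← pow_mul]
      field_simp
    have h3 : ρ⁻¹ ≤ ρ ^ D / ρ ^ (2 * p) := by
      rw [le_div_iff₀ (by positivity)]
      have h4 : ρ⁻¹ * ρ ^ (2 * p) = ρ ^ (2 * p - 1) := by
        have h5 : ρ ^ (2 * p) = ρ ^ (2 * p - 1) * ρ := by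
          rw [← pow_succ]
          congr 1
          omega
        rw [h5]
        field_simp
      rw [h4]
      exact pow_le_pow_of_le_one hρ0.le hρ1 (by omega)
    rw [h2]
    have h6 : c * (2 ^ p)⁻¹ / 2 * ρ⁻¹ ≤ c * (2 ^ p)⁻¹ / 2 * (ρ ^ D / ρ ^ (2 * p)) :=
      mul_le_mul_of_nonneg_left h3 (by positivity)
    refine le_trans ?_ h6
    rw [← div_eq_mul_inv, le_div_iff₀ hρ0]
    have hpos : 0 < |B| + C₁ + 1 := by positivity
    calc (|B| + C₁ + 1) * ρ ≤ (|B| + C₁ + 1) * (c * (2 ^ p)⁻¹ / (2 * (|B| + C₁ + 1))) :=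
          mul_le_mul_of_nonneg_left hρB hpos.le
      _ = c * (2 ^ p)⁻¹ / 2 := by
          field_simp
  have hfinal : B < (∫ x, (((s : ℂ) - w x) ^ p)⁻¹ ∂μ).re := by
    rw [← hreint]
    have h1 : -C₁ + μ.real {x | d x ≤ ρ} * M ≤ ∫ x, ((((s : ℂ) - w x) ^ p)⁻¹).re ∂μ := by
      rw [← hcalc]
      exact hmono
    have h2 := le_abs_self B
    linarith
  exact lt_of_lt_of_le hfinal (Complex.re_le_norm _)

end Flawed
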