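import Pool.Agent.Helper78.FL.Statements

open Matrix MeasureTheory
open scoped ComplexConjugate

namespace Flawed

/-- FL02, Vandermonde -/
theorem vand : StVand := by
  intro F q ζ hinj hsum c hc
  set e := F.equivFin with he
  have hf : Function.Injective (fun i : Fin F.card => Complex.exp (ζ * ((e.symm i : ℝ) : ℂ))) := by
    intro i j hij
    have := hinj (e.symm i).2 (e.symm j).2 hij
    exact e.symm.injective (Subtype.ext this)
  have hz := Matrix.eq_zero_of_forall_pow_sum_mul_pow_eq_zero (v := fun i => q (e.symm i)) hf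
    (fun m => ?_)
  · have := congrFun hz (e ⟨c, hc⟩)
    simpa using this
  · have h1 := hsum m
    rw [← Finset.sum_coe_sort F (fun c => q c * Complex.exp ((m : ℕ) * ζ * c))] at h1
    rw [← h1]
    refine Fintype.sum_equiv e.symm _ _ fun i => ?_
    rw [← Complex.exp_nat_mul, mul_assoc]

theorem ex_nat_smul {n : ℕ} (ξ : Mat n) (m : ℕ) (w : ℂ) :
    ex (((m : ℂ) * w) • ξ) = ex (w • ξ) ^ m := by
  induction m with
  | zero => simp
  | succ m ih =>
    rw [show (((m + 1 : ℕ) : ℂ) * w) = (m : ℂ) * w + w by push_cast; ring, ex_add_smul, ih,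
      pow_succ]

/-- FL02 -/
theorem e1 (hp : StExpPoly) (hv : StVand) : StE1 := by
  rintro n G ⟨S, hS⟩ ξ hξ hmem z
  rw [hS]
  intro f hf
  obtain ⟨F, q, _, hq⟩ := hp n f ξ hξ (∑ i, |hξ.eigenvalues i|)
    (fun i => Finset.single_le_sum (f := fun i => |hξ.eigenvalues i|)
      (fun _ _ => abs_nonneg _) (Finset.mem_univ i))
  have hzero : ∀ c ∈ F, q c = 0 := by
    refine hv F q 1 ?_ ?_
    · intro a _ b _ hab
      simp only [one_mul] at hab
      have h1 : (Real.exp a : ℂ) = Real.exp b := by
        rw [Complex.ofReal_exp, Complex.ofReal_exp]; exact hab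
      exact Real.exp_injective (by exact_mod_cast h1)
    · intro m
      have h1 : ex (((m : ℂ) * 1) • ξ) ∈ G := by
        rw [ex_nat_smul, one_smul]
        exact G.pow_mem hmem m
      have h2 := (hS _).1 h1 f hf
      rw [ex_val, hq] at h2
      exact h2
  rw [ex_val, hq]
  exact Finset.sum_eq_zero fun c hc => by rw [hzero c hc, zero_mul]

/-- FL02 -/
theorem e2 (hp : StExpPoly) (hv : StVand) : StE2 := by
  rintro n G ⟨S, hS⟩
  have hfg : (Submodule.span (MvPolynomial (Fin n × Fin n) ℂ) S).FG := IsNoetherian.noetherian _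
  obtain ⟨T, hTS, hT⟩ := (Submodule.fg_span_iff_fg_span_finset_subset S).1 hfg
  -- the zero locus of `T`
  have hzl : ∀ g : GLn n, (∀ f ∈ T, pev f (g : Mat n) = 0) → g ∈ G := by
    intro g hg
    rw [hS]
    intro f hf
    have h1 : f ∈ Submodule.span (MvPolynomial (Fin n × Fin n) ℂ) (T : Set _) := by
      rw [← hT]; exact Submodule.subset_span hf
    refine Submodule.span_induction (p := fun f _ => pev f (g : Mat n) = 0) ?_ ?_ ?_ ?_ h1
    · intro x hx; exact hg x hx
    · simp [pev]
    · intro x y _ _ hx hy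
      simp only [pev] at hx hy ⊢
      rw [map_add, hx, hy, add_zero]
    · intro a x _ hx
      simp only [pev] at hx ⊢
      rw [smul_eq_mul, map_mul, hx, mul_zero]
  set d : ℕ := T.sup MvPolynomial.totalDegree with hd
  refine ⟨1 / (d + 1), by positivity, ?_⟩
  intro H hH hB hmem z
  refine hzl _ ?_
  intro f hf
  obtain ⟨F, q, hF, hq⟩ := hp n f H hH (1 / (d + 1)) hB
  have hdf : (f.totalDegree : ℝ) ≤ d := by
    exact_mod_cast Finset.le_sup (f := MvPolynomial.totalDegree) hf
  have hF1 : ∀ c ∈ F, |c| < 1 := by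
    intro c hc
    have h1 := hF c hc
    have h2 : (f.totalDegree : ℝ) * (1 / (d + 1)) ≤ d * (1 / (d + 1)) :=
      mul_le_mul_of_nonneg_right hdf (by positivity)
    have h3 : (d : ℝ) * (1 / (d + 1)) < 1 := by
      rw [mul_one_div, div_lt_one (by positivity)]
      linarith
    linarith
  have hpi := Real.pi_gt_three
  have hzero : ∀ c ∈ F, q c = 0 := by
    refine hv F q Complex.I ?_ ?_
    · intro a ha b hb hab
      have ha1 := abs_lt.1 (hF1 a ha)
      have hb1 := abs_lt.1 (hF1 b hb)
      have h1 := Complex.exp_inj_of_neg_pi_lt_of_le_pi (x := Complex.I * (a : ℂ))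
        (y := Complex.I * (b : ℂ)) (by simp; linarith) (by simp; linarith) (by simp; linarith)
        (by simp; linarith) hab
      have h2 := mul_left_cancel₀ Complex.I_ne_zero h1
      exact_mod_cast h2
    · intro m
      have h1 : ex (((m : ℂ) * Complex.I) • H) ∈ G := by
        rw [ex_nat_smul]
        exact G.pow_mem hmem m
      have h2 := (hS _).1 h1 f (hTS hf)
      rw [ex_val, hq] at h2
      exact h2
  rw [ex_val, hq]
  exact Finset.sum_eq_zero fun c hc => by rw [hzero c hc, zero_mul]

end Flawed
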