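import Pool.Agent.Helper78.FL.Statements

open Matrix MeasureTheory
open scoped ComplexConjugate ComplexOrder Pointwise

namespace Flawed

/-- exponential sums with real frequencies bounded by `K` -/
noncomputable def ESp (K : ℝ) : Submodule ℂ (ℂ → ℂ) :=
  Submodule.span ℂ ((fun (c : ℝ) (z : ℂ) => Complex.exp (z * c)) '' {c | |c| ≤ K})

theorem ESp_exp {K c : ℝ} (h : |c| ≤ K) : (fun z : ℂ => Complex.exp (z * c)) ∈ ESp K :=
  Submodule.subset_span ⟨c, h, rfl⟩

theorem ESp_mono {K K' : ℝ} (h : K ≤ K') : ESp K ≤ ESp K' :=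
  Submodule.span_mono (Set.image_mono fun _ hc => le_trans hc h)

theorem ESp_one {K : ℝ} (h : 0 ≤ K) : (1 : ℂ → ℂ) ∈ ESp K := by
  have h1 := ESp_exp (K := K) (c := 0) (by simpa using h)
  have h2 : (fun z : ℂ => Complex.exp (z * ((0 : ℝ) : ℂ))) = 1 := by
    funext z
    simp
  rwa [h2] at h1

theorem ESp_mul {K K' : ℝ} {φ ψ : ℂ → ℂ} (h : φ ∈ ESp K) (h' : ψ ∈ ESp K') :
    φ * ψ ∈ ESp (K + K') := by
  have h1 : φ * ψ ∈ ESp K * ESp K' := Submodule.mul_mem_mul h h'
  rw [ESp, ESp, Submodule.span_mul_span] at h1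
  refine Submodule.span_mono ?_ h1
  rintro _ ⟨_, ⟨c, hc, rfl⟩, _, ⟨d, hd, rfl⟩, rfl⟩
  refine ⟨c + d, (abs_add_le c d).trans (add_le_add hc hd), ?_⟩
  funext z
  simp only [Pi.mul_apply]
  rw [← Complex.exp_add]
  congr 1
  push_cast
  ring

theorem ESp_pow {K : ℝ} {φ : ℂ → ℂ} (h : φ ∈ ESp K) (m : ℕ) : φ ^ m ∈ ESp (m * K) := by
  induction m with
  | zero => simpa using ESp_one le_rfl
  | succ m ih =>
    rw [pow_succ]
    have h1 := ESp_mul ih h
    have h2 : (m : ℝ) * K + K = ((m + 1 : ℕ) : ℝ) * K := by push_cast; ring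
    rwa [h2] at h1

theorem ESp_prod {α : Type*} (s : Finset α) (K : α → ℝ) (φ : α → ℂ → ℂ)
    (h : ∀ a ∈ s, φ a ∈ ESp (K a)) : ∏ a ∈ s, φ a ∈ ESp (∑ a ∈ s, K a) := by
  classical
  induction s using Finset.induction_on with
  | empty => simpa using ESp_one le_rfl
  | insert a s ha ih =>
    rw [Finset.prod_insert ha, Finset.sum_insert ha]
    exact ESp_mul (h a (Finset.mem_insert_self a s))
      (ih fun b hb => h b (Finset.mem_insert_of_mem hb))

theorem exp_herm_entry {n : ℕ} {ξ : Mat n} (hξ : ξ.IsHermitian) (z : ℂ) (i j : Fin n) :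
    NormedSpace.exp (z • ξ) i j = ∑ a, (hξ.eigenvectorUnitary : Mat n) i a *
      conj ((hξ.eigenvectorUnitary : Mat n) j a) * Complex.exp (z * hξ.eigenvalues a) := by
  set U : Mat n := (hξ.eigenvectorUnitary : Mat n) with hU
  have h1 : U * star U = 1 := Unitary.mul_star_self_of_mem hξ.eigenvectorUnitary.2
  have h1' : star U * U = 1 := Unitary.star_mul_self_of_mem hξ.eigenvectorUnitary.2
  have h2 : ξ = U * diagonal (RCLike.ofReal ∘ hξ.eigenvalues) * star U := by
    have := hξ.spectral_theorem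
    rw [Unitary.conjStarAlgAut_apply] at this
    exact this
  let u : (Mat n)ˣ := ⟨U, star U, h1, h1'⟩
  have h3 : z • ξ = (u : Mat n) * diagonal (fun a => z * (hξ.eigenvalues a : ℂ)) *
      ((u⁻¹ : (Mat n)ˣ) : Mat n) := by
    change z • ξ = U * diagonal (fun a => z * (hξ.eigenvalues a : ℂ)) * star U
    have h4 : diagonal (fun a => z * (hξ.eigenvalues a : ℂ)) =
        z • diagonal (RCLike.ofReal ∘ hξ.eigenvalues : Fin n → ℂ) := by
      rw [← diagonal_smul]
      congr 1
    rw [h4, mul_smul_comm, smul_mul_assoc, ← h2]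
  rw [h3, Matrix.exp_units_conj, Matrix.exp_diagonal]
  change (U * diagonal (NormedSpace.exp fun a => z * (hξ.eigenvalues a : ℂ)) * star U) i j = _
  rw [Matrix.mul_apply]
  refine Finset.sum_congr rfl fun a _ => ?_
  rw [Matrix.mul_diagonal, Matrix.star_apply, RCLike.star_def]
  have h5 : NormedSpace.exp (fun a => z * (hξ.eigenvalues a : ℂ)) a =
      Complex.exp (z * hξ.eigenvalues a) := by
    rw [Pi.coe_exp, ← Complex.exp_eq_exp_ℂ]
  rw [h5]
  ring

/-- FL01 -/
theorem expPoly : StExpPoly := by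
  intro n f ξ hξ B hB
  have key : (fun z : ℂ => pev f (NormedSpace.exp (z • ξ))) ∈ ESp (f.totalDegree * B) := by
    have h1 : (fun z : ℂ => pev f (NormedSpace.exp (z • ξ))) =
        ∑ s ∈ f.support, (f.coeff s) • ∏ p ∈ s.support,
          (fun z : ℂ => NormedSpace.exp (z • ξ) p.1 p.2) ^ s p := by
      funext z
      simp only [pev, MvPolynomial.eval_eq, Finset.sum_apply, Pi.smul_apply, Finset.prod_apply,
        Pi.pow_apply, smul_eq_mul]
    rw [h1]
    refine Submodule.sum_mem _ fun s hs => Submodule.smul_mem _ _ ?_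
    have hen : ∀ p : Fin n × Fin n, (fun z : ℂ => NormedSpace.exp (z • ξ) p.1 p.2) ∈ ESp B := by
      intro p
      have h2 : (fun z : ℂ => NormedSpace.exp (z • ξ) p.1 p.2) =
          ∑ a, ((hξ.eigenvectorUnitary : Mat n) p.1 a *
            conj ((hξ.eigenvectorUnitary : Mat n) p.2 a)) •
            (fun z : ℂ => Complex.exp (z * hξ.eigenvalues a)) := by
        funext z
        rw [exp_herm_entry hξ z]
        simp only [Finset.sum_apply, Pi.smul_apply, smul_eq_mul]
      rw [h2]
      exact Submodule.sum_mem _ fun a _ => Submodule.smul_mem _ _ (ESp_exp (hB a))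
    have h3 : ∏ p ∈ s.support, (fun z : ℂ => NormedSpace.exp (z • ξ) p.1 p.2) ^ s p ∈
        ESp (∑ p ∈ s.support, (s p : ℝ) * B) :=
      ESp_prod _ _ _ fun p _ => ESp_pow (hen p) _
    refine ESp_mono ?_ h3
    rw [← Finset.sum_mul]
    rcases Finset.eq_empty_or_nonempty s.support with he | ⟨p, hp⟩
    · rw [he, Finset.sum_empty, zero_mul]
      rcases Nat.eq_zero_or_pos f.totalDegree with h0 | h0
      · rw [h0]; simp
      · have hn : 0 < n := by
          by_contra hn
          have : f.totalDegree = 0 := by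
            have hn0 : n = 0 := by omega
            subst hn0
            rw [MvPolynomial.totalDegree_eq_zero_iff]
            intro m _ x
            exact x.1.elim0
          omega
        exact mul_nonneg (Nat.cast_nonneg _) ((abs_nonneg _).trans (hB ⟨0, hn⟩))
    · have hB0 : 0 ≤ B := (abs_nonneg _).trans (hB p.1)
      apply mul_le_mul_of_nonneg_right _ hB0
      have h5 : s.sum (fun _ e => e) ≤ f.totalDegree := MvPolynomial.le_totalDegree hs
      have h6 : (s.sum fun _ e => e) = ∑ p ∈ s.support, s p := rfl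
      rw [h6] at h5
      exact_mod_cast h5
  rw [ESp, Finsupp.mem_span_image_iff_linearCombination] at key
  obtain ⟨l, hl, hl2⟩ := key
  refine ⟨l.support, l, ?_, ?_⟩
  · intro c hc
    exact hl hc
  · intro z
    have h7 := congrFun hl2 z
    rw [← h7, Finsupp.linearCombination_apply, Finsupp.sum]
    simp only [Finset.sum_apply, Pi.smul_apply, smul_eq_mul]

end Flawed
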