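import Pool.Agent.Helper78.FL.Statements

/-!
FL10 for MP_1b2618_al: Haar measure on a compact subgroup of `GL_n(ℂ)`, as a measure on
`GL_n(ℂ)`.
-/

open Matrix MeasureTheory

namespace Flawed

theorem haar : StHaar := by
  intro n K hK
  haveI : CompactSpace K := isCompact_iff_compactSpace.1 hK
  letI mK : MeasurableSpace K := borel K
  haveI : BorelSpace K := ⟨rfl⟩
  have hcl : IsClosed (K : Set (GLn n)) := hK.isClosed
  have hmeas : MeasurableSet (K : Set (GLn n)) := hcl.measurableSet
  let K₀ : TopologicalSpace.PositiveCompacts K := ⊤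
  let μ : Measure K := Measure.haarMeasure K₀
  have hμ1 : μ Set.univ = 1 := by
    have h := Measure.haarMeasure_self (K₀ := K₀)
    have h2 : (K₀ : Set K) = Set.univ := rfl
    rw [h2] at h
    exact h
  haveI hprob : IsProbabilityMeasure μ := ⟨hμ1⟩
  have hval : Measurable (Subtype.val : K → GLn n) := continuous_subtype_val.measurable
  refine ⟨μ.map Subtype.val, ?_, ?_, ?_⟩
  · exact Measure.isProbabilityMeasure_map hval.aemeasurable
  · rw [Measure.map_apply hval hmeas.compl]
    have : (Subtype.val : K → GLn n) ⁻¹' ((K : Set (GLn n))ᶜ) = ∅ := by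
      ext x
      simp
    rw [this, measure_empty]
  · intro k hk
    have h1 : Measurable (fun x : GLn n => k * x) := (continuous_const_mul k).measurable
    have h2 : Measurable (fun x : K => (⟨k, hk⟩ : K) * x) :=
      (continuous_const_mul (⟨k, hk⟩ : K)).measurable
    rw [Measure.map_map h1 hval]
    have h3 : (fun x : GLn n => k * x) ∘ (Subtype.val : K → GLn n) =
        Subtype.val ∘ (fun x : K => (⟨k, hk⟩ : K) * x) := by
      funext x; rfl
    rw [h3, ← Measure.map_map hval h2]
    congr 1
    exact map_mul_left_eq_self μ (⟨k, hk⟩ : K)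

end Flawed
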