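import Pool.Agent.Helper78.FL.Statements

/-!
FL16, FL17: averaged powers of matrix coefficients are invariant polynomials.
-/

open Matrix MeasureTheory
open scoped ComplexConjugate ComplexOrder

namespace Flawed

/-- continuous functions are integrable for a measure carried by a compact subgroup -/
theorem IsHaar.integrable {n : ℕ} {K : Subgroup (GLn n)} {μ : Measure (GLn n)}
    (hμ : IsHaar K μ) (hK : IsCompact (K : Set (GLn n))) {f : GLn n → ℂ} (hf : Continuous f) :
    Integrable f μ := by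
  have := hμ.prob
  have h1 : IntegrableOn f (K : Set (GLn n)) μ := hf.continuousOn.integrableOn_compact hK
  have h2 : ∀ᵐ x ∂μ, x ∈ (K : Set (GLn n)) := by
    rw [ae_iff]
    exact hμ.supp
  rw [IntegrableOn, Measure.restrict_eq_self_of_ae_mem h2] at h1
  exact h1

theorem continuous_entry_val {n : ℕ} (a b : Fin n) :
    Continuous (fun g : GLn n => (g : Mat n) a b) := by
  have h : Continuous (fun g : GLn n => (g : Mat n)) := Units.continuous_val
  exact Continuous.matrix_elem h a b

theorem continuous_entry_inv {n : ℕ} (a b : Fin n) :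
    Continuous (fun g : GLn n => ((g⁻¹ : GLn n) : Mat n) a b) := by
  have h : Continuous (fun g : GLn n => ((g⁻¹ : GLn n) : Mat n)) :=
    Units.continuous_val.comp continuous_inv
  exact Continuous.matrix_elem h a b

theorem sum_four_comm {n : ℕ} (F : Fin n → Fin n → Fin n → Fin n → ℂ) :
    ∑ a, ∑ b, ∑ e, ∑ c, F a b e c = ∑ c, ∑ e, ∑ a, ∑ b, F a b e c := by
  have h1 : ∑ a, ∑ b, ∑ e, ∑ c, F a b e c =
      ∑ p : Fin n × Fin n, ∑ q : Fin n × Fin n, F p.1 p.2 q.2 q.1 := by
    simp only [Fintype.sum_prod_type]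
    exact Finset.sum_congr rfl fun a _ => Finset.sum_congr rfl fun b _ => Finset.sum_comm
  have h2 : ∑ c, ∑ e, ∑ a, ∑ b, F a b e c =
      ∑ q : Fin n × Fin n, ∑ p : Fin n × Fin n, F p.1 p.2 q.2 q.1 := by
    simp only [Fintype.sum_prod_type]
  rw [h1, h2, Finset.sum_comm]

/-- FL16 -/
theorem poly : StPoly := by
  classical
  intro n ι _ K μ hK hμ w d
  have := hμ.prob
  set A : (ι × Fin n × Fin n) → GLn n → ℂ := fun j k =>
    ∑ a, ∑ b, ((k⁻¹ : GLn n) : Mat n) a j.2.1 * (k : Mat n) j.2.2 b * conj (w j.1 a b) with hAd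
  have hA : ∀ j, Continuous (A j) := by
    intro j
    refine continuous_finsetSum _ fun a _ => continuous_finsetSum _ fun b _ => ?_
    exact ((continuous_entry_inv _ _).mul (continuous_entry_val _ _)).mul continuous_const
  have hip : ∀ (k : GLn n) (v : ι → Mat n), ip (act k⁻¹ v) w =
      ∑ j : ι × Fin n × Fin n, A j k * v j.1 j.2.1 j.2.2 := by
    intro k v
    rw [Fintype.sum_prod_type, ip]
    refine Finset.sum_congr rfl fun i _ => ?_
    rw [Fintype.sum_prod_type]
    have h1 : ∀ a b, act k⁻¹ v i a b * conj (w i a b) =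
        ∑ e, ∑ c, ((k⁻¹ : GLn n) : Mat n) a c * (k : Mat n) e b * conj (w i a b) * v i c e := by
      intro a b
      simp only [act, inv_inv, Matrix.mul_apply, Finset.sum_mul]
      refine Finset.sum_congr rfl fun e _ => Finset.sum_congr rfl fun c _ => ?_
      ring
    simp only [h1]
    rw [sum_four_comm (fun a b e c =>
      ((k⁻¹ : GLn n) : Mat n) a c * (k : Mat n) e b * conj (w i a b) * v i c e)]
    refine Finset.sum_congr rfl fun c _ => Finset.sum_congr rfl fun e _ => ?_
    simp only [hAd, Finset.sum_mul]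
  refine ⟨∑ p ∈ Fintype.piFinset (fun _ : Fin d => (Finset.univ : Finset (ι × Fin n × Fin n))),
    MvPolynomial.C (∫ k, ∏ l, A (p l) k ∂μ) * ∏ l, MvPolynomial.X (p l), ?_⟩
  intro v
  have h1 : ∀ k : GLn n, ip (act k⁻¹ v) w ^ d =
      ∑ p ∈ Fintype.piFinset (fun _ : Fin d => (Finset.univ : Finset (ι × Fin n × Fin n))),
        (∏ l, A (p l) k) * ∏ l, v (p l).1 (p l).2.1 (p l).2.2 := by
    intro k
    rw [hip, Finset.sum_pow']
    exact Finset.sum_congr rfl fun p _ => Finset.prod_mul_distrib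
  simp_rw [h1]
  have hint : ∀ p : Fin d → ι × Fin n × Fin n, Integrable (fun k => ∏ l, A (p l) k) μ :=
    fun p => hμ.integrable hK (continuous_finsetProd _ fun l _ => hA (p l))
  rw [integral_finsetSum _ (fun p _ => (hint p).mul_const _)]
  simp only [integral_mul_const, map_sum, map_mul, MvPolynomial.eval_C, map_prod,
    MvPolynomial.eval_X]

theorem entry_mem_Reg {n : ℕ} (a b : Fin n) : (fun g : GLn n => (g : Mat n) a b) ∈ Reg n :=
  Algebra.subset_adjoin (Or.inl ⟨(a, b), rfl⟩)

theorem entry_inv_mem_Reg {n : ℕ} (a b : Fin n) :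
    (fun g : GLn n => ((g⁻¹ : GLn n) : Mat n) a b) ∈ Reg n :=
  Algebra.subset_adjoin (Or.inr ⟨(a, b), rfl⟩)

theorem const_mem_Reg {n : ℕ} (c : ℂ) : (fun _ : GLn n => c) ∈ Reg n :=
  (Reg n).algebraMap_mem c

theorem act_entry_mem_Reg {n : ℕ} {ι : Type} (v : ι → Mat n) (i : ι) (a b : Fin n) :
    (fun g : GLn n => act g v i a b) ∈ Reg n := by
  have h : (fun g : GLn n => act g v i a b) = ∑ e, ∑ c,
      (fun g : GLn n => (g : Mat n) a c) * (fun _ => v i c e) *
        (fun g : GLn n => ((g⁻¹ : GLn n) : Mat n) e b) := by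
    funext g
    simp only [act, Matrix.mul_apply, Finset.sum_mul, Finset.sum_apply, Pi.mul_apply]
  rw [h]
  exact Subalgebra.sum_mem _ fun e _ => Subalgebra.sum_mem _ fun c _ =>
    Subalgebra.mul_mem _ (Subalgebra.mul_mem _ (entry_mem_Reg a c) (const_mem_Reg _))
      (entry_inv_mem_Reg e b)

theorem eval_act_mem_Reg {n : ℕ} {ι : Type} (v : ι → Mat n)
    (Q : MvPolynomial (ι × Fin n × Fin n) ℂ) :
    (fun g : GLn n => MvPolynomial.eval (fun p => act g v p.1 p.2.1 p.2.2) Q) ∈ Reg n := by
  induction Q using MvPolynomial.induction_on with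
  | C c =>
    simp only [MvPolynomial.eval_C]
    exact const_mem_Reg c
  | add P Q hP hQ =>
    simp only [map_add]
    exact Subalgebra.add_mem _ hP hQ
  | mul_X P p hP =>
    simp only [map_mul, MvPolynomial.eval_X]
    exact Subalgebra.mul_mem _ hP (act_entry_mem_Reg v p.1 p.2.1 p.2.2)

/-- FL17 -/
theorem inv (hR : StReg) (hP : StPoly) : StInv := by
  intro n ι _ K G μ hK hμ hZ w d
  have := hμ.prob
  obtain ⟨Q, hQ⟩ := hP n ι K μ hK hμ w d
  refine ⟨?_, ?_⟩
  · have h1 : (fun v : ι → Mat n => ∫ k, ip (act k⁻¹ v) w ^ d ∂μ) =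
        fun v => MvPolynomial.eval (fun p : ι × Fin n × Fin n => v p.1 p.2.1 p.2.2) Q :=
      funext hQ
    rw [h1]
    have h2 : Continuous fun (v : ι → Mat n) (p : ι × Fin n × Fin n) => v p.1 p.2.1 p.2.2 :=
      continuous_pi fun p => continuous_entry p.1 p.2.1 p.2.2
    have h3 := (MvPolynomial.continuous_eval Q).comp h2
    exact h3
  · intro g hg v
    have hf : ((fun g : GLn n => MvPolynomial.eval (fun p => act g v p.1 p.2.1 p.2.2) Q) -
        (fun _ : GLn n => MvPolynomial.eval
          (fun p : ι × Fin n × Fin n => v p.1 p.2.1 p.2.2) Q)) ∈ Reg n :=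
      Subalgebra.sub_mem _ (eval_act_mem_Reg v Q) (const_mem_Reg _)
    have hK0 : ∀ k ∈ K, ((fun g : GLn n => MvPolynomial.eval
          (fun p => act g v p.1 p.2.1 p.2.2) Q) -
        (fun _ : GLn n => MvPolynomial.eval
          (fun p : ι × Fin n × Fin n => v p.1 p.2.1 p.2.2) Q)) k = 0 := by
      intro k₀ hk₀
      show MvPolynomial.eval (fun p => act k₀ v p.1 p.2.1 p.2.2) Q -
        MvPolynomial.eval (fun p : ι × Fin n × Fin n => v p.1 p.2.1 p.2.2) Q = 0
      rw [← hQ v, ← hQ (act k₀ v), sub_eq_zero]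
      have h4 : ∀ k : GLn n, ip (act k⁻¹ (act k₀ v)) w ^ d =
          (fun k : GLn n => ip (act k⁻¹ v) w ^ d) (k₀⁻¹ * k) := by
        intro k
        show _ = ip (act (k₀⁻¹ * k)⁻¹ v) w ^ d
        rw [_root_.mul_inv_rev, inv_inv, act_mul]
      have hc : Continuous fun k : GLn n => ip (act k⁻¹ v) w ^ d := by
        have h5 : Continuous fun k : GLn n => (act k⁻¹ v, w) :=
          ((continuous_act_left v).comp continuous_inv).prodMk continuous_const
        have h6 := (continuous_ip (ι := ι) (n := n)).comp h5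
        exact h6.pow d
      have hm : AEStronglyMeasurable (fun k : GLn n => ip (act k⁻¹ v) w ^ d)
          (μ.map fun x => k₀⁻¹ * x) := by
        rw [hμ.inv _ (K.inv_mem hk₀)]
        exact (hμ.integrable hK hc).aestronglyMeasurable
      have h7 := integral_map (μ := μ) (φ := fun x : GLn n => k₀⁻¹ * x)
        (continuous_const_mul k₀⁻¹).measurable.aemeasurable hm
      rw [hμ.inv _ (K.inv_mem hk₀)] at h7
      rw [h7]
      exact integral_congr_ae (Filter.Eventually.of_forall h4)
    have h := hR n K G hZ _ hf hK0 g hg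
    rw [hQ, hQ]
    exact sub_eq_zero.1 h

end Flawed
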