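import Pool.Agent.Helper78.FL.Statements

/-!
FL25 for MP_1b2618_al: tuples of unitary matrices are minimal.
-/

open Matrix MeasureTheory

namespace Flawed

namespace KMin

variable {n : ℕ}

theorem nm_conjTranspose (x : Mat n) : nm xᴴ = nm x := by
  unfold nm
  rw [Finset.sum_comm]
  simp [Matrix.conjTranspose_apply]

theorem trace_one_le (y : GLn n) :
    2 * (n : ℝ) ≤ nm (y : Mat n) + nm ((y⁻¹ : GLn n) : Mat n) := by
  have h := norm_ip_sq_le (ι := Unit) (fun _ => (y : Mat n))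
    (fun _ => (((y⁻¹ : GLn n) : Mat n))ᴴ)
  have h1 : ip (ι := Unit) (fun _ => (y : Mat n)) (fun _ => (((y⁻¹ : GLn n) : Mat n))ᴴ) = n := by
    rw [ip_eq_trace]
    simp only [Finset.univ_unique, Finset.sum_singleton, conjTranspose_conjTranspose]
    rw [Units.mul_inv]
    simp
  have h2 : nsq (ι := Unit) (fun _ => (y : Mat n)) = nm (y : Mat n) := by
    simp [nsq]
  have h3 : nsq (ι := Unit) (fun _ => (((y⁻¹ : GLn n) : Mat n))ᴴ) =
      nm ((y⁻¹ : GLn n) : Mat n) := by
    simp [nsq, nm_conjTranspose]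
  rw [h1, h2, h3] at h
  have h4 : ‖(n : ℂ)‖ = n := by simp
  rw [h4] at h
  have ha := nm_nonneg (y : Mat n)
  have hb := nm_nonneg ((y⁻¹ : GLn n) : Mat n)
  have hn : (0 : ℝ) ≤ n := Nat.cast_nonneg n
  nlinarith [sq_nonneg (nm (y : Mat n) - nm ((y⁻¹ : GLn n) : Mat n))]

theorem nm_unitary {u : GLn n} (hu : u ∈ UU n) : nm (u : Mat n) = n := by
  have h := nm_eq_trace (u : Mat n)
  rw [mem_UU'.1 hu, Units.mul_inv] at h
  simp only [trace_one, Fintype.card_fin] at h
  exact_mod_cast h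

theorem act_emb {r : ℕ} (g : GLn n) (x : Fin r → GLn n) : act g (emb x) = emb (cjt g x) := by
  funext i
  rcases i with i | i
  · simp [act, emb, cjt]
  · simp [act, emb, cjt, mul_assoc]

theorem nsq_emb {r : ℕ} (x : Fin r → GLn n) :
    nsq (emb x) = ∑ i, (nm (x i : Mat n) + nm (((x i)⁻¹ : GLn n) : Mat n)) := by
  rw [nsq, Fintype.sum_sum_type, Finset.sum_add_distrib]
  rfl

end KMin

open KMin in
theorem kMin : StKMin := by
  intro n r G x hx g _
  rw [act_emb, nsq_emb, nsq_emb]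
  refine Finset.sum_le_sum fun i _ => ?_
  rw [nm_unitary (hx i), nm_unitary ((UU n).inv_mem (hx i))]
  have := trace_one_le (cjt g x i)
  linarith

end Flawed
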