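import Pool.Agent.Helper78.FL.Statements

/-!
FL18: orbit closures contain minimal vectors, unique up to `K` (module for MP_1b2618_al).
-/

open Matrix MeasureTheory
open scoped ComplexConjugate ComplexOrder

namespace Flawed

variable {ι : Type} [Fintype ι] {n : ℕ}

/-- existence of a shortest vector in the orbit closure -/
theorem FL18_exists (h4 : StCpt) (G : Subgroup (GLn n)) (v : ι → Mat n) :
    ∃ m, Lim G v m ∧ nsq m ≤ nsq v := by
  have hc : IsCompact ({w : ι → Mat n | nsq w ≤ nsq v} ∩ closure (Orb G v)) :=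
    (h4.2.2.2.2 n ι (nsq v)).inter_right isClosed_closure
  have hne : ({w : ι → Mat n | nsq w ≤ nsq v} ∩ closure (Orb G v)).Nonempty :=
    ⟨v, le_refl (nsq v), subset_closure (mem_Orb_self G v)⟩
  obtain ⟨m, hm, hmin⟩ := hc.exists_isMinOn hne continuous_nsq.continuousOn
  have hmv : nsq m ≤ nsq v := hm.1
  refine ⟨m, ⟨?_, hm.2⟩, hmv⟩
  intro g hg
  by_cases h : nsq (act g m) ≤ nsq v
  · exact hmin ⟨h, act_mem_closure_Orb hg hm.2⟩
  · push Not at h
    exact hmv.trans h.le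

/-- the averages are constant on orbit closures -/
theorem FL18_const (h2 : StInv) {G : Subgroup (GLn n)} {μ : Measure (GLn n)}
    (hK : IsCompact (KK G : Set (GLn n))) (hμ : IsHaar (KK G) μ) (hZ : IsZariskiDense (KK G) G)
    {v m : ι → Mat n} (hm : m ∈ closure (Orb G v)) (w : ι → Mat n) (d : ℕ) :
    ∫ k, ip (act k⁻¹ m) w ^ d ∂μ = ∫ k, ip (act k⁻¹ v) w ^ d ∂μ := by
  obtain ⟨hcont, hinv⟩ := h2 n ι (KK G) G μ hK hμ hZ w d
  have hcl : IsClosed {x : ι → Mat n |
      ∫ k, ip (act k⁻¹ x) w ^ d ∂μ = ∫ k, ip (act k⁻¹ v) w ^ d ∂μ} :=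
    isClosed_eq hcont continuous_const
  have hsub : Orb G v ⊆ {x : ι → Mat n |
      ∫ k, ip (act k⁻¹ x) w ^ d ∂μ = ∫ k, ip (act k⁻¹ v) w ^ d ∂μ} := by
    rintro x ⟨g, hg, rfl⟩
    exact hinv g hg v
  exact closure_minimal hsub hcl hm

/-- two minimal vectors with the same averages are in the same `K`-orbit -/
theorem FL18_sep (h1 : StSep) {G : Subgroup (GLn n)} (hG : SA G) {μ : Measure (GLn n)}
    (hμ : IsHaar (KK G) μ) {m m' : ι → Mat n} (hm : IsMin G m) (hm' : IsMin G m')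
    (h : ∀ (w : ι → Mat n) (d : ℕ),
      ∫ k, ip (act k⁻¹ m) w ^ d ∂μ = ∫ k, ip (act k⁻¹ m') w ^ d ∂μ) :
    ∃ k ∈ KK G, m' = act k m := by
  rcases le_total (nsq m') (nsq m) with hle | hle
  · exact h1 n ι G μ hG hμ m m' hm hm' hle (fun d => h m d)
  · obtain ⟨k, hk, hkm⟩ := h1 n ι G μ hG hμ m' m hm' hm hle (fun d => (h m' d).symm)
    refine ⟨k⁻¹, (KK G).inv_mem hk, ?_⟩
    rw [hkm, act_inv_act]

theorem lim (h1 : StSep) (h2 : StInv) (h3 : StHaar) (h4 : StCpt) (_h5 : StMinOrb) : StLim := by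
  intro n ι _ G hG hZ
  have hK : IsCompact (KK G : Set (GLn n)) := h4.2.2.2.1 n G hG.alg
  obtain ⟨μ, hμ⟩ := h3 n (KK G) hK
  have hlim : ∀ v m m' : ι → Mat n, Lim G v m → Lim G v m' → ∃ k ∈ KK G, m' = act k m := by
    intro v m m' hm hm'
    apply FL18_sep h1 hG hμ hm.1 hm'.1
    intro w d
    rw [FL18_const h2 hK hμ hZ hm.2 w d, FL18_const h2 hK hμ hZ hm'.2 w d]
  refine ⟨?_, ?_, hlim, ?_⟩
  · intro v
    obtain ⟨m, hm, -⟩ := FL18_exists h4 G v
    exact ⟨m, hm⟩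
  · intro v m hm
    obtain ⟨m₀, hm₀, hle⟩ := FL18_exists h4 G v
    obtain ⟨k, hk, rfl⟩ := hlim v m₀ m hm₀ hm
    rw [nsq_act (mem_KK.1 hk).2]
    exact hle
  · have hset : {p : (ι → Mat n) × (ι → Mat n) | Lim G p.1 p.2} =
        (Prod.snd ⁻¹' {x : ι → Mat n | IsMin G x}) ∩
          ⋂ (w : ι → Mat n), ⋂ (d : ℕ), {p : (ι → Mat n) × (ι → Mat n) |
            ∫ k, ip (act k⁻¹ p.1) w ^ d ∂μ = ∫ k, ip (act k⁻¹ p.2) w ^ d ∂μ} := by
      ext ⟨v, m⟩
      constructor
      · intro hm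
        have hm' : Lim G v m := hm
        refine ⟨hm'.1, ?_⟩
        rw [Set.mem_iInter]
        intro w
        rw [Set.mem_iInter]
        intro d
        exact (FL18_const h2 hK hμ hZ hm'.2 w d).symm
      · rintro ⟨hm1, hm2⟩
        have hm1' : IsMin G m := hm1
        have hm2' : ∀ (w : ι → Mat n) (d : ℕ),
            ∫ k, ip (act k⁻¹ v) w ^ d ∂μ = ∫ k, ip (act k⁻¹ m) w ^ d ∂μ := by
          intro w d
          have h5 := Set.mem_iInter.1 hm2 w
          exact Set.mem_iInter.1 h5 d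
        obtain ⟨m₀, hm₀, -⟩ := FL18_exists h4 G v
        obtain ⟨k, hk, hkm⟩ := FL18_sep h1 hG hμ hm₀.1 hm1' (fun w d => by
          rw [FL18_const h2 hK hμ hZ hm₀.2 w d, hm2' w d])
        change Lim G v m
        rw [hkm]
        exact hm₀.act_KK hk
    rw [hset]
    apply IsClosed.inter
    · exact (isClosed_isMin G).preimage continuous_snd
    · apply isClosed_iInter
      intro w
      apply isClosed_iInter
      intro d
      have hcont := (h2 n ι (KK G) G μ hK hμ hZ w d).1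
      exact isClosed_eq (hcont.comp continuous_fst) (hcont.comp continuous_snd)

end Flawed
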