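import Pool.Agent.Helper78.FL.Statements

open Matrix
open scoped ComplexOrder MatrixOrder

namespace Flawed

section

open scoped Matrix.Norms.L2Operator

set_option backward.isDefEq.respectTransparency false

theorem posDef_exp {n : ℕ} {ξ : Mat n} (hξ : ξ.IsHermitian) : (NormedSpace.exp ξ).PosDef := by
  have h0 : (0 : Mat n) ≤ NormedSpace.exp ξ :=
    IsSelfAdjoint.exp_nonneg (A := Mat n) (isHermitian_iff_isSelfAdjoint.1 hξ)
  have h1 : (NormedSpace.exp ξ).PosSemidef := Matrix.nonneg_iff_posSemidef.1 h0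
  have h2 : IsUnit (NormedSpace.exp ξ) := Matrix.isUnit_exp ξ
  exact (h1.posDef_iff_isUnit).2 h2

theorem isHermitian_log {n : ℕ} (p : Mat n) : (CFC.log p).IsHermitian :=
  isHermitian_iff_isSelfAdjoint.2 (IsSelfAdjoint.log (A := Mat n))

theorem exp_log' {n : ℕ} {p : Mat n} (hp : p.PosDef) : NormedSpace.exp (CFC.log p) = p :=
  CFC.exp_log p hp.isStrictlyPositive

theorem log_exp' {n : ℕ} {ξ : Mat n} (hξ : ξ.IsHermitian) : CFC.log (NormedSpace.exp ξ) = ξ :=
  CFC.log_exp ξ (isHermitian_iff_isSelfAdjoint.1 hξ)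

theorem continuousOn_log' {n : ℕ} : ContinuousOn (CFC.log : Mat n → Mat n) {p | p.PosDef} := by
  have h := CFC.continuousOn_log (A := Mat n)
  exact h.mono fun p hp => ⟨isHermitian_iff_isSelfAdjoint.1 hp.isHermitian, hp.isUnit⟩

theorem commute_log {n : ℕ} {p : Mat n} (hp : p.PosDef) {x : Mat n} (h : Commute x p) :
    Commute x (CFC.log p) :=
  (Commute.cfc (𝕜 := ℝ) h.symm (by rw [(isHermitian_iff_isSelfAdjoint.1 hp.isHermitian).star_eq]; exact h.symm) Real.log).symm

/-- FL03. -/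
theorem log : StLog := fun n =>
  ⟨fun _ hξ => posDef_exp hξ, CFC.log, fun p hp => ⟨isHermitian_log p, exp_log' hp⟩,
    fun _ hξ => log_exp' hξ, continuousOn_log', fun _ hp _ h => commute_log hp h⟩

end

end Flawed
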