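import Pool.Agent.Helper78.FL.Statements

/-!
Module FL21 of MP_1b2618_al (helper42): existence, continuity and equivariance of the minimiser.
-/

open Matrix MeasureTheory Filter Topology
open scoped ComplexConjugate ComplexOrder

namespace Flawed
variable {n : ℕ}

/-- factorisation of positive semidefinite matrices -/
theorem minA_factor {h : Mat n} (hh : h.PosSemidef) : ∃ X : Mat n, h = Xᴴ * X := by
  open scoped MatrixOrder in
  have h1 : (0 : Mat n) ≤ h := Matrix.nonneg_iff_posSemidef.2 hh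
  obtain ⟨X, hX⟩ := CStarAlgebra.nonneg_iff_eq_star_mul_self.1 h1
  exact ⟨X, hX⟩

/-- submultiplicativity of the Frobenius norm -/
theorem minA_nm_mul (x y : Mat n) : nm (x * y) ≤ nm x * nm y := by
  have h1 : ∀ a b, ‖(x * y) a b‖ ^ 2 ≤ (∑ c, ‖x a c‖ ^ 2) * ∑ c, ‖y c b‖ ^ 2 := by
    intro a b
    rw [Matrix.mul_apply]
    have h2 : ‖∑ c, x a c * y c b‖ ≤ ∑ c, ‖x a c‖ * ‖y c b‖ := by
      refine (norm_sum_le _ _).trans (le_of_eq ?_)
      exact Finset.sum_congr rfl fun c _ => norm_mul _ _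
    exact (pow_le_pow_left₀ (norm_nonneg _) h2 2).trans (Finset.sum_mul_sq_le_sq_mul_sq _ _ _)
  calc nm (x * y) ≤ ∑ a, ∑ b, (∑ c, ‖x a c‖ ^ 2) * ∑ c, ‖y c b‖ ^ 2 :=
        Finset.sum_le_sum fun a _ => Finset.sum_le_sum fun b _ => h1 a b
    _ = (∑ a, ∑ c, ‖x a c‖ ^ 2) * ∑ b, ∑ c, ‖y c b‖ ^ 2 := by
        rw [Finset.sum_mul_sum]
    _ = nm x * nm y := by
        rw [nm, nm]
        congr 1
        exact Finset.sum_comm

theorem minA_nm_star (x : Mat n) : nm xᴴ = nm x := by
  rw [nm, nm, Finset.sum_comm]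
  refine Finset.sum_congr rfl fun a _ => Finset.sum_congr rfl fun b _ => ?_
  rw [Matrix.conjTranspose_apply, norm_star]

theorem minA_re_trace (X : Mat n) : (Matrix.trace (Xᴴ * X)).re = nm X := by
  rw [Matrix.trace_mul_comm, ← nm_eq_trace, Complex.ofReal_re]

theorem minA_nm_le {h : Mat n} (hh : h.PosSemidef) : nm h ≤ (Matrix.trace h).re ^ 2 := by
  obtain ⟨X, rfl⟩ := minA_factor hh
  rw [minA_re_trace, sq]
  refine (minA_nm_mul _ _).trans ?_
  rw [minA_nm_star]

theorem minA_tr_nonneg {h : Mat n} (hh : h.PosSemidef) : 0 ≤ (Matrix.trace h).re := by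
  obtain ⟨X, rfl⟩ := minA_factor hh
  rw [minA_re_trace]
  exact nm_nonneg _

/-- lower bound of the pairing with a positive definite matrix -/
theorem minA_lower {A : Mat n} (hA : A.PosDef) : ∃ c : ℝ, 0 < c ∧ ∀ h : Mat n, h.PosSemidef →
    c * (Matrix.trace h).re ≤ (Matrix.trace (h * A)).re := by
  obtain ⟨Y, hY⟩ := minA_factor hA.posSemidef
  have hYu : IsUnit Y := by
    have h1 := hA.isUnit
    rw [hY, Matrix.isUnit_iff_isUnit_det, Matrix.det_mul] at h1
    rw [Matrix.isUnit_iff_isUnit_det]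
    exact isUnit_of_mul_isUnit_right h1
  obtain ⟨y, rfl⟩ := hYu
  refine ⟨(nm ((y⁻¹ : GLn n) : Mat n) + 1)⁻¹, by
    have := nm_nonneg ((y⁻¹ : GLn n) : Mat n)
    positivity, fun h hh => ?_⟩
  obtain ⟨X, rfl⟩ := minA_factor hh
  have hpos : 0 < nm ((y⁻¹ : GLn n) : Mat n) + 1 := by
    have := nm_nonneg ((y⁻¹ : GLn n) : Mat n)
    positivity
  have e1 : Matrix.trace (Xᴴ * X * A) = Matrix.trace ((X * (y : Mat n)ᴴ)ᴴ * (X * (y : Mat n)ᴴ)) := by
    rw [hY, conjTranspose_mul, conjTranspose_conjTranspose, ← mul_assoc,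
      Matrix.trace_mul_comm]
    simp only [mul_assoc]
  rw [e1, minA_re_trace, minA_re_trace, inv_mul_le_iff₀ hpos]
  have e2 : X = X * (y : Mat n)ᴴ * ((y⁻¹ : GLn n) : Mat n)ᴴ := by
    rw [mul_assoc, ← conjTranspose_mul, Units.inv_mul, conjTranspose_one, mul_one]
  have e3 : nm X ≤ nm (X * (y : Mat n)ᴴ) * nm ((y⁻¹ : GLn n) : Mat n) := by
    conv_lhs => rw [e2]
    refine (minA_nm_mul _ _).trans ?_
    rw [minA_nm_star]
  have e4 := nm_nonneg (X * (y : Mat n)ᴴ)
  nlinarith

/-- perturbation -/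
theorem minA_pert {h : Mat n} (hh : h.PosSemidef) (E : Mat n) (δ : ℝ) (hδ : 0 ≤ δ)
    (hE : nm E ≤ δ ^ 2) : |(Matrix.trace (h * E)).re| ≤ δ * (Matrix.trace h).re := by
  have h1 := norm_ip_sq_le (ι := Unit) (fun _ => h) (fun _ => Eᴴ)
  rw [ip_eq_trace] at h1
  simp only [Finset.univ_unique, Finset.sum_singleton, conjTranspose_conjTranspose, nsq,
    minA_nm_star] at h1
  have h2 : ‖Matrix.trace (h * E)‖ ^ 2 ≤ (δ * (Matrix.trace h).re) ^ 2 := by
    refine h1.trans ?_
    rw [mul_pow, mul_comm]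
    exact mul_le_mul hE (minA_nm_le hh) (nm_nonneg _) (by positivity)
  have h3 : ‖Matrix.trace (h * E)‖ ≤ δ * (Matrix.trace h).re :=
    le_of_sq_le_sq h2 (mul_nonneg hδ (minA_tr_nonneg hh))
  exact (Complex.abs_re_le_norm _).trans h3

theorem minA_continuous_trace : Continuous (fun x : Mat n => Matrix.trace x) := by
  unfold Matrix.trace
  exact continuous_finsetSum _ fun i _ => Continuous.matrix_elem continuous_id i i

theorem minA_continuous_FF :
    Continuous (fun p : (Mat n × Mat n) × GLn n => FF p.1.1 p.1.2 p.2) := by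
  have h1 : Continuous (fun p : (Mat n × Mat n) × GLn n => (p.2 : Mat n)) :=
    Units.continuous_val.comp continuous_snd
  have h2 : Continuous (fun p : (Mat n × Mat n) × GLn n => ((p.2⁻¹ : GLn n) : Mat n)) :=
    Units.continuous_val.comp (continuous_inv.comp continuous_snd)
  have h3 : Continuous (fun p : (Mat n × Mat n) × GLn n => p.1.1) :=
    continuous_fst.comp continuous_fst
  have h4 : Continuous (fun p : (Mat n × Mat n) × GLn n => p.1.2) :=
    continuous_snd.comp continuous_fst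
  have h5 := minA_continuous_trace.comp (h1.matrix_mul h3)
  have h6 := minA_continuous_trace.comp (h2.matrix_mul h4)
  exact (Complex.continuous_re.comp h5).add (Complex.continuous_re.comp h6)

/-- the positive definite elements -/
def minP (G : Subgroup (GLn n)) : Set (GLn n) := {h | h ∈ G ∧ (h : Mat n).PosDef}

theorem minA_isClosed_psd : IsClosed {x : Mat n | x.PosSemidef} := by
  have h1 : {x : Mat n | x.PosSemidef} = {x | xᴴ = x} ∩
      ⋂ v : Fin n → ℂ, {x | 0 ≤ star v ⬝ᵥ (x *ᵥ v)} := by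
    ext x
    rw [Set.mem_ofPred_eq, Matrix.posSemidef_iff_dotProduct_mulVec]
    simp only [Set.mem_inter_iff, Set.mem_ofPred_eq, Set.mem_iInter]
    rfl
  rw [h1]
  apply IsClosed.inter
  · exact isClosed_eq continuous_id.matrix_conjTranspose continuous_id
  · refine isClosed_iInter fun v => ?_
    have h2 : Continuous fun x : Mat n => star v ⬝ᵥ (x *ᵥ v) := by
      refine Continuous.dotProduct continuous_const ?_
      exact Continuous.matrix_mulVec continuous_id continuous_const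
    exact isClosed_le continuous_const h2

theorem minP_isClosed (hC : StCpt) (G : Subgroup (GLn n)) (hG : SA G) : IsClosed (minP G) := by
  have h1 : minP G = (G : Set (GLn n)) ∩ {h | (h : Mat n).PosSemidef} := by
    ext h
    constructor
    · rintro ⟨a, b⟩
      exact ⟨a, b.posSemidef⟩
    · rintro ⟨a, b⟩
      exact ⟨a, b.posDef_iff_isUnit.2 h.isUnit⟩
  rw [h1]
  exact (hC.1 n G hG.alg).inter (minA_isClosed_psd.preimage Units.continuous_val)

theorem minP_inv {h : GLn n} (hh : (h : Mat n).PosDef) : ((h⁻¹ : GLn n) : Mat n).PosDef := by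
  have := hh.inv
  rwa [← Matrix.coe_units_inv] at this

/-- bound of the elements of a sublevel set -/
theorem minA_bound {A B : Mat n} {c R : ℝ} (hc : 0 < c)
    (hA : ∀ h : Mat n, h.PosSemidef → c * (Matrix.trace h).re ≤ (Matrix.trace (h * A)).re)
    (hB : ∀ h : Mat n, h.PosSemidef → c * (Matrix.trace h).re ≤ (Matrix.trace (h * B)).re)
    {h : GLn n} (hh : (h : Mat n).PosDef) (hR : FF A B h ≤ R) :
    nm (h : Mat n) ≤ (R / c) ^ 2 ∧ nm ((h⁻¹ : GLn n) : Mat n) ≤ (R / c) ^ 2 := by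
  have h1 := hA h hh.posSemidef
  have h2 := hB ((h⁻¹ : GLn n) : Mat n) (minP_inv hh).posSemidef
  have h3 := minA_tr_nonneg hh.posSemidef
  have h4 := minA_tr_nonneg (minP_inv hh).posSemidef
  unfold FF at hR
  have h5 : (Matrix.trace (h : Mat n)).re ≤ R / c := by
    rw [le_div_iff₀ hc]
    nlinarith
  have h6 : (Matrix.trace ((h⁻¹ : GLn n) : Mat n)).re ≤ R / c := by
    rw [le_div_iff₀ hc]
    nlinarith
  exact ⟨(minA_nm_le hh.posSemidef).trans (pow_le_pow_left₀ h3 h5 2),
    (minA_nm_le (minP_inv hh).posSemidef).trans (pow_le_pow_left₀ h4 h6 2)⟩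

theorem minA_exists (hC : StCpt) (G : Subgroup (GLn n)) (hG : SA G) {A B : Mat n}
    (hA : A.PosDef) (hB : B.PosDef) :
    ∃ h ∈ minP G, ∀ h' ∈ minP G, FF A B h ≤ FF A B h' := by
  obtain ⟨c1, hc1, h1⟩ := minA_lower hA
  obtain ⟨c2, hc2, h2⟩ := minA_lower hB
  have hc : 0 < min c1 c2 := lt_min hc1 hc2
  have h1' : ∀ h : Mat n, h.PosSemidef → min c1 c2 * (Matrix.trace h).re ≤
      (Matrix.trace (h * A)).re := fun h hh =>
    (mul_le_mul_of_nonneg_right (min_le_left _ _) (minA_tr_nonneg hh)).trans (h1 h hh)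
  have h2' : ∀ h : Mat n, h.PosSemidef → min c1 c2 * (Matrix.trace h).re ≤
      (Matrix.trace (h * B)).re := fun h hh =>
    (mul_le_mul_of_nonneg_right (min_le_right _ _) (minA_tr_nonneg hh)).trans (h2 h hh)
  have hF : Continuous (fun h : GLn n => FF A B h) := by
    have h3 : Continuous (fun h : GLn n => ((A, B), h)) := by fun_prop
    have h4 := minA_continuous_FF.comp h3
    exact h4
  have h1mem : (1 : GLn n) ∈ minP G := ⟨G.one_mem, by
    rw [Units.val_one]
    exact Matrix.PosDef.one⟩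
  set S : Set (GLn n) := minP G ∩ {h | FF A B h ≤ FF A B 1} with hS
  have hSc : IsCompact S := by
    refine (hC.2.1 n ((FF A B 1 / min c1 c2) ^ 2)).of_isClosed_subset ?_ ?_
    · exact (minP_isClosed hC G hG).inter (isClosed_le hF continuous_const)
    · rintro h ⟨hh, hle⟩
      exact minA_bound hc h1' h2' hh.2 hle
  obtain ⟨h, hhS, hmin⟩ := hSc.exists_isMinOn ⟨1, h1mem, le_refl (FF A B 1)⟩ hF.continuousOn
  refine ⟨h, hhS.1, fun h' hh' => ?_⟩
  rcases le_or_gt (FF A B h') (FF A B 1) with hle | hlt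
  · exact hmin ⟨hh', hle⟩
  · exact (hmin ⟨h1mem, le_refl (FF A B 1)⟩).trans hlt.le

theorem minA (hU : StMinUniq) (hC : StCpt) : StMinA := by
  intro n G hG
  classical
  have hex : ∀ A B : Mat n, ∃ h : GLn n, A.PosDef → B.PosDef →
      (h ∈ minP G ∧ ∀ h' ∈ minP G, FF A B h ≤ FF A B h') := by
    intro A B
    by_cases hA : A.PosDef
    · by_cases hB : B.PosDef
      · obtain ⟨h, h1, h2⟩ := minA_exists hC G hG hA hB
        exact ⟨h, fun _ _ => ⟨h1, h2⟩⟩
      · exact ⟨1, fun _ h => absurd h hB⟩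
    · exact ⟨1, fun h => absurd h hA⟩
  choose hm hhm using hex
  have huniq : ∀ A B : Mat n, A.PosDef → B.PosDef → ∀ h ∈ minP G, FF A B h ≤ FF A B (hm A B) →
      h = hm A B := by
    intro A B hA hB h hh hle
    obtain ⟨⟨h1, h2⟩, h3⟩ := hhm A B hA hB
    exact hU n G hG A B hA hB _ h1 h hh.1 h2 hh.2 (fun h' a b => h3 h' ⟨a, b⟩) hle
  refine ⟨hm, fun A B hA hB => ?_, ?_, ?_⟩
  · obtain ⟨⟨h1, h2⟩, h3⟩ := hhm A B hA hB
    exact ⟨h1, h2, fun h a b => h3 h ⟨a, b⟩, fun h a b => huniq A B hA hB h ⟨a, b⟩⟩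
  · -- continuity
    rintro ⟨A0, B0⟩ ⟨hA0, hB0⟩
    simp only at hA0 hB0
    set D : Set (Mat n × Mat n) := {p | p.1.PosDef ∧ p.2.PosDef} with hD
    obtain ⟨c1, hc1, h1⟩ := minA_lower hA0
    obtain ⟨c2, hc2, h2⟩ := minA_lower hB0
    set c := min c1 c2 with hcdef
    have hc : 0 < c := lt_min hc1 hc2
    -- near the point the lower bound holds with c / 2
    have hnear : ∀ᶠ p : Mat n × Mat n in 𝓝[D] (A0, B0), (nm (p.1 - A0) ≤ (c / 2) ^ 2 ∧
        nm (p.2 - B0) ≤ (c / 2) ^ 2 ∧ FF p.1 p.2 1 ≤ FF A0 B0 1 + 1) ∧ p ∈ D := by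
      have a1 : Continuous fun p : Mat n × Mat n => nm (p.1 - A0) := by
        have : Continuous fun p : Mat n × Mat n => p.1 - A0 := continuous_fst.sub continuous_const
        exact continuous_nm.comp this
      have a2 : Continuous fun p : Mat n × Mat n => nm (p.2 - B0) := by
        have : Continuous fun p : Mat n × Mat n => p.2 - B0 := continuous_snd.sub continuous_const
        exact continuous_nm.comp this
      have a3 : Continuous fun p : Mat n × Mat n => FF p.1 p.2 1 := by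
        have h3 : Continuous (fun p : Mat n × Mat n => (p, (1 : GLn n))) :=
          continuous_id.prodMk continuous_const
        have h4 := minA_continuous_FF.comp h3
        exact h4
      have b1 : ∀ᶠ p : Mat n × Mat n in 𝓝 (A0, B0), nm (p.1 - A0) < (c / 2) ^ 2 := by
        refine a1.continuousAt.eventually_lt continuousAt_const ?_
        simp only [sub_self]
        rw [nm_eq_zero.2 rfl]
        positivity
      have b2 : ∀ᶠ p : Mat n × Mat n in 𝓝 (A0, B0), nm (p.2 - B0) < (c / 2) ^ 2 := by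
        refine a2.continuousAt.eventually_lt continuousAt_const ?_
        simp only [sub_self]
        rw [nm_eq_zero.2 rfl]
        positivity
      have b3 : ∀ᶠ p : Mat n × Mat n in 𝓝 (A0, B0), FF p.1 p.2 1 < FF A0 B0 1 + 1 :=
        a3.continuousAt.eventually_lt continuousAt_const (by simp)
      filter_upwards [nhdsWithin_le_nhds b1, nhdsWithin_le_nhds b2, nhdsWithin_le_nhds b3,
        self_mem_nhdsWithin] with p e1 e2 e3 e4
      exact ⟨⟨e1.le, e2.le, e3.le⟩, e4⟩
    set R : ℝ := FF A0 B0 1 + 1 with hR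
    set KC : Set (GLn n) := {g : GLn n | nm (g : Mat n) ≤ (R / (c / 2)) ^ 2 ∧
      nm ((g⁻¹ : GLn n) : Mat n) ≤ (R / (c / 2)) ^ 2} with hKC
    have hKCc : IsCompact KC := hC.2.1 n _
    have h1mem : (1 : GLn n) ∈ minP G := ⟨G.one_mem, by
      rw [Units.val_one]
      exact Matrix.PosDef.one⟩
    have hpert : ∀ (M0 M : Mat n) (c' : ℝ), c ≤ c' → nm (M - M0) ≤ (c / 2) ^ 2 →
        (∀ h : Mat n, h.PosSemidef → c' * (Matrix.trace h).re ≤ (Matrix.trace (h * M0)).re) →
        ∀ h : Mat n, h.PosSemidef → c / 2 * (Matrix.trace h).re ≤ (Matrix.trace (h * M)).re := by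
      intro M0 M c' hc' hM hM0 h hh
      have e1 := minA_pert hh (M - M0) (c / 2) (by positivity) hM
      have e2 := hM0 h hh
      have e3 : Matrix.trace (h * M) = Matrix.trace (h * M0) + Matrix.trace (h * (M - M0)) := by
        rw [← Matrix.trace_add, ← mul_add, add_sub_cancel]
      have e4 := minA_tr_nonneg hh
      have e5 := (abs_le.1 e1).1
      rw [e3, Complex.add_re]
      nlinarith
    have hmem : ∀ᶠ p : Mat n × Mat n in 𝓝[D] (A0, B0), hm p.1 p.2 ∈ KC := by
      filter_upwards [hnear] with p hp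
      obtain ⟨⟨e1, e2, e3⟩, e4⟩ := hp
      obtain ⟨k1, k2⟩ := hhm p.1 p.2 e4.1 e4.2
      exact minA_bound (by positivity) (hpert A0 p.1 c1 (min_le_left _ _) e1 h1)
        (hpert B0 p.2 c2 (min_le_right _ _) e2 h2) k1.2 ((k2 1 h1mem).trans e3)
    show Tendsto (fun p : Mat n × Mat n => hm p.1 p.2) (𝓝[D] (A0, B0)) (𝓝 (hm A0 B0))
    rw [tendsto_iff_ultrafilter]
    intro 𝒰 h𝒰
    have hKU : (𝒰.map fun p : Mat n × Mat n => hm p.1 p.2 : Filter (GLn n)) ≤ 𝓟 KC := by
      rw [Filter.le_principal_iff]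
      exact h𝒰 hmem
    obtain ⟨g, hgK, hg⟩ := hKCc.ultrafilter_le_nhds _ hKU
    have hgt : Tendsto (fun p : Mat n × Mat n => hm p.1 p.2) (𝒰 : Filter (Mat n × Mat n)) (𝓝 g) := hg
    have hgP : g ∈ minP G := by
      refine (minP_isClosed hC G hG).mem_of_tendsto hgt ?_
      apply h𝒰
      filter_upwards [hnear] with p hp
      exact (hhm p.1 p.2 hp.2.1 hp.2.2).1
    have hid : Tendsto (fun p : Mat n × Mat n => p) (𝒰 : Filter (Mat n × Mat n)) (𝓝 (A0, B0)) :=
      h𝒰.trans nhdsWithin_le_nhds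
    have hlim : ∀ h ∈ minP G, FF A0 B0 g ≤ FF A0 B0 h := by
      intro h hh
      have t1 : Tendsto (fun p : Mat n × Mat n => FF p.1 p.2 (hm p.1 p.2))
          (𝒰 : Filter (Mat n × Mat n)) (𝓝 (FF A0 B0 g)) := by
        have := (minA_continuous_FF.tendsto ((A0, B0), g)).comp (hid.prodMk_nhds hgt)
        exact this
      have t2 : Tendsto (fun p : Mat n × Mat n => FF p.1 p.2 h)
          (𝒰 : Filter (Mat n × Mat n)) (𝓝 (FF A0 B0 h)) := by
        have := (minA_continuous_FF.tendsto ((A0, B0), h)).comp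
          (hid.prodMk_nhds (tendsto_const_nhds (x := h)))
        exact this
      refine le_of_tendsto_of_tendsto t1 t2 ?_
      apply h𝒰
      filter_upwards [hnear] with p hp
      exact (hhm p.1 p.2 hp.2.1 hp.2.2).2 h hh
    have hgeq : g = hm A0 B0 := huniq A0 B0 hA0 hB0 g hgP
      (hlim _ (hhm A0 B0 hA0 hB0).1)
    rw [← hgeq]
    exact hgt
  · -- equivariance
    intro A B hA hB g hg
    have hgi : ((g⁻¹ : GLn n) : Mat n) * g = 1 := Units.inv_mul g
    have hgi' : (g : Mat n) * ((g⁻¹ : GLn n) : Mat n) = 1 := Units.mul_inv g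
    have hs : ((star g : GLn n) : Mat n) = (g : Mat n)ᴴ := rfl
    have hs' : (((star g)⁻¹ : GLn n) : Mat n) = ((g⁻¹ : GLn n) : Mat n)ᴴ := by
      rw [← star_inv]
      rfl
    have hsi : (g : Mat n)ᴴ * ((g⁻¹ : GLn n) : Mat n)ᴴ = 1 := by
      rw [← conjTranspose_mul, hgi, conjTranspose_one]
    have hsi' : ((g⁻¹ : GLn n) : Mat n)ᴴ * (g : Mat n)ᴴ = 1 := by
      rw [← conjTranspose_mul, hgi', conjTranspose_one]
    have hA' : ((g : Mat n)ᴴ * A * g).PosDef :=
      hA.conjTranspose_mul_mul_same (mulVec_injective_of_isUnit g.isUnit)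
    have hB' : (((g⁻¹ : GLn n) : Mat n) * B * ((g⁻¹ : GLn n) : Mat n)ᴴ).PosDef :=
      hB.mul_mul_conjTranspose_same (vecMul_injective_of_isUnit (g⁻¹).isUnit)
    -- the substitution
    have hFF : ∀ h : GLn n, FF ((g : Mat n)ᴴ * A * (g : Mat n))
        (((g⁻¹ : GLn n) : Mat n) * B * ((g⁻¹ : GLn n) : Mat n)ᴴ) (g⁻¹ * h * (star g)⁻¹) =
        FF A B h := by
      intro h
      unfold FF
      congr 2
      · rw [Units.val_mul, Units.val_mul, hs']
        have e1 : ((g⁻¹ : GLn n) : Mat n) * (h : Mat n) * ((g⁻¹ : GLn n) : Mat n)ᴴ *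
            ((g : Mat n)ᴴ * A * (g : Mat n)) =
            ((g⁻¹ : GLn n) : Mat n) * ((h : Mat n) * A * (g : Mat n)) := by
          calc ((g⁻¹ : GLn n) : Mat n) * (h : Mat n) * ((g⁻¹ : GLn n) : Mat n)ᴴ *
                ((g : Mat n)ᴴ * A * (g : Mat n))
              = ((g⁻¹ : GLn n) : Mat n) * (h : Mat n) *
                (((g⁻¹ : GLn n) : Mat n)ᴴ * (g : Mat n)ᴴ) * A * (g : Mat n) := by
                simp only [mul_assoc]
            _ = _ := by
                rw [hsi', mul_one]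
                simp only [mul_assoc]
        rw [e1, Matrix.trace_mul_comm, mul_assoc, hgi', mul_one]
      · have e0 : ((g⁻¹ * h * (star g)⁻¹)⁻¹ : GLn n) = star g * h⁻¹ * g := by
          group
        rw [e0, Units.val_mul, Units.val_mul, hs]
        have e1 : (g : Mat n)ᴴ * ((h⁻¹ : GLn n) : Mat n) * (g : Mat n) *
            (((g⁻¹ : GLn n) : Mat n) * B * ((g⁻¹ : GLn n) : Mat n)ᴴ) =
            (g : Mat n)ᴴ * (((h⁻¹ : GLn n) : Mat n) * B * ((g⁻¹ : GLn n) : Mat n)ᴴ) := by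
          calc (g : Mat n)ᴴ * ((h⁻¹ : GLn n) : Mat n) * (g : Mat n) *
                (((g⁻¹ : GLn n) : Mat n) * B * ((g⁻¹ : GLn n) : Mat n)ᴴ)
              = (g : Mat n)ᴴ * ((h⁻¹ : GLn n) : Mat n) * ((g : Mat n) * ((g⁻¹ : GLn n) : Mat n)) * B *
                  ((g⁻¹ : GLn n) : Mat n)ᴴ := by
                simp only [mul_assoc]
            _ = _ := by
                rw [hgi', mul_one]
                simp only [mul_assoc]
        rw [e1, Matrix.trace_mul_comm, mul_assoc, hsi', mul_one]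
    have hPmem : ∀ h ∈ minP G, g⁻¹ * h * (star g)⁻¹ ∈ minP G := by
      rintro h ⟨h1, h2⟩
      refine ⟨G.mul_mem (G.mul_mem (G.inv_mem hg) h1) (G.inv_mem (hG.star_mem g hg)), ?_⟩
      rw [Units.val_mul, Units.val_mul, hs']
      exact h2.mul_mul_conjTranspose_same (vecMul_injective_of_isUnit (g⁻¹).isUnit)
    have hPmem' : ∀ h ∈ minP G, g * h * star g ∈ minP G := by
      rintro h ⟨h1, h2⟩
      refine ⟨G.mul_mem (G.mul_mem hg h1) (hG.star_mem g hg), ?_⟩
      rw [Units.val_mul, Units.val_mul, hs]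
      exact h2.mul_mul_conjTranspose_same (vecMul_injective_of_isUnit g.isUnit)
    symm
    apply huniq _ _ hA' hB' _ (hPmem _ (hhm A B hA hB).1)
    rw [hFF]
    have e1 := hhm _ _ hA' hB'
    have e2 := (hhm A B hA hB).2 _ (hPmem' _ e1.1)
    refine e2.trans (le_of_eq ?_)
    rw [← hFF]
    congr 1
    group

end Flawed
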