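import Pool.Agent.Helper78.FL.Statements

/-!
Module FL20 of MP_1b2618_al: uniqueness of the minimiser of `FF A B` over the positive definite
elements of `G`.
-/

open Matrix MeasureTheory
open scoped ComplexConjugate ComplexOrder

namespace Flawed

private theorem ex_half_mul {n : ℕ} (ξ : Mat n) :
    ex ((1 / 2 : ℂ) • ξ) * ex ((1 / 2 : ℂ) • ξ) = ex ξ := by
  rw [← ex_add_smul]
  norm_num

private theorem star_ex_half {n : ℕ} {ξ : Mat n} (h : ξ.IsHermitian) :
    star (ex ((1 / 2 : ℂ) • ξ)) = ex ((1 / 2 : ℂ) • ξ) := by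
  rw [star_ex, conjTranspose_smul, h.eq]
  congr 1
  simp

private theorem posDef_conj_GLn {n : ℕ} {P : Mat n} (hP : P.PosDef) (g : GLn n) :
    ((g : Mat n) * P * (g : Mat n)ᴴ).PosDef := by
  refine hP.mul_mul_conjTranspose_same ?_
  rw [Matrix.vecMul_injective_iff_isUnit]
  exact g.isUnit

/-- a positive definite matrix is nondegenerate -/
private theorem eq_zero_of_trace {n : ℕ} {A : Mat n} (hA : A.PosDef) (D : Mat n)
    (h : (Matrix.trace (D * A * Dᴴ)).re ≤ 0) : D = 0 := by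
  have h1 : (D * A * Dᴴ).PosSemidef := hA.posSemidef.mul_mul_conjTranspose_same D
  have h2 : 0 ≤ Matrix.trace (D * A * Dᴴ) := h1.trace_nonneg
  have h3 : Matrix.trace (D * A * Dᴴ) = 0 := by
    rw [Complex.le_def] at h2
    apply Complex.ext
    · exact le_antisymm h (by simpa using h2.1)
    · exact h2.2.symm
  have h4 := h1.trace_eq_zero_iff.1 h3
  have h5 : ∀ x : Fin n → ℂ, Dᴴ *ᵥ x = 0 := by
    intro x
    by_contra hne
    have h6 := hA.dotProduct_mulVec_pos hne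
    have h7 : star (Dᴴ *ᵥ x) ⬝ᵥ A *ᵥ (Dᴴ *ᵥ x) = star x ⬝ᵥ (D * A * Dᴴ) *ᵥ x := by
      rw [star_mulVec, conjTranspose_conjTranspose, ← Matrix.dotProduct_mulVec, mulVec_mulVec,
        mulVec_mulVec, mul_assoc]
    rw [h7, h4, zero_mulVec, dotProduct_zero] at h6
    exact lt_irrefl _ h6
  have h6 : Dᴴ = 0 := by
    ext i j
    have := congrFun (h5 (Pi.single j 1)) i
    simpa using this
  simpa using congrArg conjTranspose h6

private theorem trace_sq_form {n : ℕ} (γ q A : Mat n) (hγ : γᴴ = γ) (hq : qᴴ = q) :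
    Matrix.trace (((1 - q) * γ) * A * ((1 - q) * γ)ᴴ) =
      Matrix.trace (γ * γ * A) + Matrix.trace (γ * (q * q) * γ * A)
        - 2 * Matrix.trace (γ * q * γ * A) := by
  rw [conjTranspose_mul, conjTranspose_sub, conjTranspose_one, hγ, hq]
  have h1 : (1 - q) * γ * A * (γ * (1 - q)) = (1 - q) * (γ * A * γ * (1 - q)) := by
    simp only [mul_assoc]
  rw [h1, Matrix.trace_mul_comm]
  have h2 : γ * A * γ * (1 - q) * (1 - q) = γ * (A * (γ * (1 - q) * (1 - q))) := by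
    simp only [mul_assoc]
  rw [h2, Matrix.trace_mul_comm]
  have h3 : A * (γ * (1 - q) * (1 - q)) * γ = A * (γ * (1 - q) * (1 - q) * γ) := by
    simp only [mul_assoc]
  rw [h3, Matrix.trace_mul_comm]
  have h4 : γ * (1 - q) * (1 - q) * γ * A =
      γ * γ * A + γ * (q * q) * γ * A - (γ * q * γ * A + γ * q * γ * A) := by
    noncomm_ring
  rw [h4, Matrix.trace_sub, Matrix.trace_add, Matrix.trace_add]
  ring

theorem minUniq (hL : StLog) (hE : StE1) : StMinUniq := by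
  intro n G hG A B hA hB g hg g' hg' hgp hgp' hmin hle
  obtain ⟨hexp, L, hL1, hL2, -, -⟩ := hL n
  obtain ⟨hηh, hηe⟩ := hL1 _ hgp
  have hηG : ex (L (g : Mat n)) = g := Units.ext hηe
  set γ : GLn n := ex ((1 / 2 : ℂ) • L (g : Mat n)) with hγ
  have hγs : star γ = γ := star_ex_half hηh
  have hγγ : γ * γ = g := by rw [hγ, ex_half_mul, hηG]
  have hγG : γ ∈ G := (hE n G hG.alg _ hηh (by rw [hηG]; exact hg)) _
  have hγv : (γ : Mat n)ᴴ = γ := congrArg Units.val hγs
  have hγiv : ((γ⁻¹ : GLn n) : Mat n)ᴴ = ((γ⁻¹ : GLn n) : Mat n) := by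
    have : star (γ⁻¹) = γ⁻¹ := by rw [star_inv, hγs]
    exact congrArg Units.val this
  set p : GLn n := γ⁻¹ * g' * γ⁻¹ with hp
  have hpP : (p : Mat n).PosDef := by
    have h1 : (p : Mat n) = ((γ⁻¹ : GLn n) : Mat n) * g' * (((γ⁻¹ : GLn n) : Mat n))ᴴ := by
      rw [hγiv, hp]; simp
    rw [h1]
    exact posDef_conj_GLn hgp' _
  obtain ⟨hξh, hξe⟩ := hL1 _ hpP
  have hξG : ex (L (p : Mat n)) = p := Units.ext hξe
  set q : GLn n := ex ((1 / 2 : ℂ) • L (p : Mat n)) with hq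
  have hqs : star q = q := star_ex_half hξh
  have hqv : (q : Mat n)ᴴ = q := congrArg Units.val hqs
  have hqiv : ((q⁻¹ : GLn n) : Mat n)ᴴ = ((q⁻¹ : GLn n) : Mat n) := by
    have : star (q⁻¹) = q⁻¹ := by rw [star_inv, hqs]
    exact congrArg Units.val this
  have hqq : q * q = p := by rw [hq, ex_half_mul, hξG]
  have hqG : q ∈ G := (hE n G hG.alg _ hξh (by
    rw [hξG]; exact G.mul_mem (G.mul_mem (G.inv_mem hγG) hg') (G.inv_mem hγG))) _
  have hqP : (q : Mat n).PosDef := by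
    refine hexp _ ?_
    unfold Matrix.IsHermitian
    rw [conjTranspose_smul, hξh.eq]
    congr 1
    simp
  have hg'e : g' = γ * (q * q) * γ := by rw [hqq, hp]; group
  have hhG : γ * q * γ ∈ G := G.mul_mem (G.mul_mem hγG hqG) hγG
  have hhP : ((γ * q * γ : GLn n) : Mat n).PosDef := by
    have h1 : ((γ * q * γ : GLn n) : Mat n) = (γ : Mat n) * q * (γ : Mat n)ᴴ := by
      rw [hγv]; simp
    rw [h1]
    exact posDef_conj_GLn hqP _
  have hm := hmin _ hhG hhP
  have e1 := congrArg Complex.re (trace_sq_form (γ : Mat n) q A hγv hqv)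
  have e2 := congrArg Complex.re
    (trace_sq_form ((γ⁻¹ : GLn n) : Mat n) ((q⁻¹ : GLn n) : Mat n) B hγiv hqiv)
  have f1 : FF A B g = (Matrix.trace ((γ : Mat n) * (γ : Mat n) * A)).re +
      (Matrix.trace (((γ⁻¹ : GLn n) : Mat n) * ((γ⁻¹ : GLn n) : Mat n) * B)).re := by
    rw [← hγγ, FF, _root_.mul_inv_rev]
    simp only [Units.val_mul]
  have f2 : FF A B (γ * q * γ) = (Matrix.trace ((γ : Mat n) * (q : Mat n) * (γ : Mat n) * A)).re +
      (Matrix.trace (((γ⁻¹ : GLn n) : Mat n) * ((q⁻¹ : GLn n) : Mat n) *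
        ((γ⁻¹ : GLn n) : Mat n) * B)).re := by
    rw [FF, _root_.mul_inv_rev, _root_.mul_inv_rev]
    simp only [Units.val_mul, mul_assoc]
  have f3 : FF A B g' = (Matrix.trace ((γ : Mat n) * ((q : Mat n) * (q : Mat n)) * (γ : Mat n) * A)).re +
      (Matrix.trace (((γ⁻¹ : GLn n) : Mat n) *
        (((q⁻¹ : GLn n) : Mat n) * ((q⁻¹ : GLn n) : Mat n)) *
        ((γ⁻¹ : GLn n) : Mat n) * B)).re := by
    conv_lhs => rw [hg'e]
    rw [FF, _root_.mul_inv_rev, _root_.mul_inv_rev, _root_.mul_inv_rev]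
    simp only [Units.val_mul, mul_assoc]
  simp only [Complex.sub_re, Complex.add_re, Complex.mul_re, Complex.re_ofNat, Complex.im_ofNat,
    zero_mul, sub_zero] at e1 e2
  have n2 : 0 ≤ (Matrix.trace (((1 - ((q⁻¹ : GLn n) : Mat n)) * ((γ⁻¹ : GLn n) : Mat n)) * B *
      ((1 - ((q⁻¹ : GLn n) : Mat n)) * ((γ⁻¹ : GLn n) : Mat n))ᴴ)).re :=
    (Complex.le_def.1 (hB.posSemidef.mul_mul_conjTranspose_same _).trace_nonneg).1
  have hD := eq_zero_of_trace hA ((1 - (q : Mat n)) * γ) (by linarith)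
  have hq1 : (q : Mat n) = 1 := by
    have h1 := congrArg (fun x => x * ((γ⁻¹ : GLn n) : Mat n)) hD
    simp only [mul_assoc, Units.mul_inv, mul_one, zero_mul] at h1
    exact (sub_eq_zero.1 h1).symm
  have hq2 : q = 1 := Units.ext hq1
  rw [hg'e, hq2, mul_one, mul_one, hγγ]

end Flawed
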