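import Pool.Agent.Helper78.FL.Statements

/-!
Module FL13 of MP_1b2618_al: phase control near the stabiliser of a minimal vector.
-/

open Matrix MeasureTheory
open scoped ComplexConjugate ComplexOrder

namespace Flawed

theorem phase (hE2 : StE2) (hU : StULog) (hP : StPhaseHerm) (hC : StCpt) : StPhase := by
  intro n ι _ G hG m hm ε hε
  obtain ⟨δ₀, hδ₀, hE⟩ := hE2 n G hG.alg
  obtain ⟨η, hη, hη'⟩ := hU n (min δ₀ (min ε 1)) (lt_min hδ₀ (lt_min hε one_pos))
  obtain ⟨-, -, -, hK, -⟩ := hC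
  set C : Set (GLn n) := (KK G : Set (GLn n)) ∩
    {k | ∀ k₀ ∈ KK G, act k₀ m = m → η ≤ nm (((k * k₀⁻¹ : GLn n) : Mat n) - 1)} with hCdef
  have hclosed : IsClosed {k : GLn n | ∀ k₀ ∈ KK G, act k₀ m = m →
      η ≤ nm (((k * k₀⁻¹ : GLn n) : Mat n) - 1)} := by
    have : {k : GLn n | ∀ k₀ ∈ KK G, act k₀ m = m →
      η ≤ nm (((k * k₀⁻¹ : GLn n) : Mat n) - 1)} =
        ⋂ k₀ ∈ KK G, ⋂ (_ : act k₀ m = m), {k | η ≤ nm (((k * k₀⁻¹ : GLn n) : Mat n) - 1)} := by
      ext k; simp
    rw [this]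
    refine isClosed_biInter fun k₀ _ => isClosed_iInter fun _ => ?_
    have h1 : Continuous (fun k : GLn n => ((k * k₀⁻¹ : GLn n) : Mat n) - 1) :=
      (Units.continuous_val.comp (continuous_mul_const k₀⁻¹)).sub continuous_const
    have h2 := continuous_nm.comp h1
    exact isClosed_le continuous_const h2
  have hCc : IsCompact C := (hK n G hG.alg).inter_right hclosed
  have hcont : Continuous (fun k : GLn n => nsq (act k m - m)) := by
    have h1 : Continuous (fun k : GLn n => act k m - m) :=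
      (continuous_act_left m).sub continuous_const
    have h2 := continuous_nsq.comp h1
    exact h2
  have hpos : ∀ k ∈ C, 0 < nsq (act k m - m) := by
    intro k hk
    rcases (nsq_nonneg (act k m - m)).eq_or_lt with h | h
    · exfalso
      have h1 : act k m = m := sub_eq_zero.1 (nsq_eq_zero.1 h.symm)
      have h2 := hk.2 k hk.1 h1
      rw [mul_inv_cancel, Units.val_one, sub_self, nm_eq_zero.2 rfl] at h2
      linarith
    · exact h
  obtain ⟨δ, hδ, hδC⟩ : ∃ δ : ℝ, 0 < δ ∧ ∀ k ∈ C, δ < nsq (act k m - m) := by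
    rcases C.eq_empty_or_nonempty with h | h
    · exact ⟨1, one_pos, fun k hk => by simp [h] at hk⟩
    · obtain ⟨k₁, hk₁, hmin⟩ := hCc.exists_isMinOn h hcont.continuousOn
      have h1 := hpos k₁ hk₁
      exact ⟨nsq (act k₁ m - m) / 2, by linarith, fun k hk =>
        lt_of_lt_of_le (by linarith) (hmin hk)⟩
  refine ⟨δ, hδ, fun k hk hle => ?_⟩
  have hkC : k ∉ C := fun h => absurd (hδC k h) (not_lt.2 hle)
  have : ¬ ∀ k₀ ∈ KK G, act k₀ m = m → η ≤ nm (((k * k₀⁻¹ : GLn n) : Mat n) - 1) :=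
    fun h => hkC ⟨hk, h⟩
  push Not at this
  obtain ⟨k₀, hk₀, hfix, hlt⟩ := this
  have hk' : k * k₀⁻¹ ∈ KK G := (KK G).mul_mem hk ((KK G).inv_mem hk₀)
  obtain ⟨H, hH, hB, hex⟩ := hη' (k * k₀⁻¹) (mem_KK.1 hk').2 hlt.le
  have hact : act k m = act (ex (Complex.I • H)) m := by
    have h1 : act k₀⁻¹ m = m := by
      conv_lhs => rw [← hfix, act_inv_act]
    rw [← hex, act_mul, h1]
  have hLie : InLie G H := hE H hH (fun i => (hB i).trans (min_le_left _ _))
    (hex ▸ (mem_KK.1 hk').1)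
  have h := hP n ι m H hH _ hB ((min_le_right _ _).trans (min_le_right _ _))
    (fun t => hm _ (hLie t))
  rw [hact]
  refine h.trans ?_
  exact mul_le_mul_of_nonneg_right ((min_le_right _ _).trans (min_le_left _ _)) (nsq_nonneg _)

end Flawed
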