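import Pool.Agent.Helper78.FL.Statements

/-!
FL07, FL08: polar decomposition in a self-adjoint algebraic group and stabilisers of minimal
vectors.
-/

open Matrix MeasureTheory
open scoped ComplexConjugate ComplexOrder

namespace Flawed

theorem posDef_star_mul_self {n : ℕ} (g : GLn n) : ((star g * g : GLn n) : Mat n).PosDef := by
  have h := Matrix.PosDef.conjTranspose_mul_self (g : Mat n)
    (Matrix.mulVec_injective_of_isUnit g.isUnit)
  exact h

/-- FL07 -/
theorem polar (hL : StLog) (hE : StE1) : StPolar := by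
  intro n G hG g hg
  obtain ⟨-, L, hL1, -, -, -⟩ := hL n
  have hmem : star g * g ∈ G := G.mul_mem (hG.star_mem g hg) hg
  obtain ⟨hH, hexp⟩ := hL1 _ (posDef_star_mul_self g)
  set l : Mat n := L (star g * g : GLn n) with hl
  have hexl : ex l = star g * g := Units.ext hexp
  have hInl : InLie G l := hE n G hG.alg l hH (by rw [hexl]; exact hmem)
  have hξ : ((1 / 2 : ℂ) • l).IsHermitian := by
    rw [Matrix.IsHermitian, conjTranspose_smul, hH.eq]
    congr 1
    simp
  set ξ : Mat n := (1 / 2 : ℂ) • l with hξd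
  have hInξ : InLie G ξ := hInl.smul _
  have hneg : ex (-ξ) ∈ G := by
    have := hInξ (-1)
    rwa [neg_one_smul] at this
  have hdbl : star g * g = ex ξ * ex ξ := by
    rw [← hexl, ← ex_add (Commute.refl ξ), hξd, ← add_smul]
    norm_num
  refine ⟨g * ex (-ξ), mem_KK.2 ⟨G.mul_mem hg hneg, ?_⟩, ξ, hξ, hInξ, ?_⟩
  · rw [mem_UU, star_mul, star_ex, conjTranspose_neg, hξ.eq]
    refine eq_inv_of_mul_eq_one_left ?_
    rw [← ex_inv, show (ex ξ)⁻¹ * star g * (g * (ex ξ)⁻¹) = (ex ξ)⁻¹ * (star g * g) * (ex ξ)⁻¹ by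
      simp only [mul_assoc], hdbl]
    simp
  · rw [← ex_inv, mul_assoc, inv_mul_cancel, mul_one]

/-- FL08 -/
theorem minOrb (hP : StPolar) (hA : StAlong) : StMinOrb := by
  intro n ι _ G hG v hv g hg hle
  obtain ⟨k, hk, ξ, hξ, hIn, rfl⟩ := hP n G hG g hg
  have hk' := (mem_KK.1 hk).2
  have h1 : nsq (act (ex ξ) v) ≤ nsq v := by
    rw [act_mul, nsq_act hk'] at hle
    exact hle
  have h2 : ∀ z : ℂ, act (ex (z • ξ)) v = v := hA n ι v ξ hξ (fun t => hv _ (hIn t)) h1
  have h3 : act (ex ξ) v = v := by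
    have := h2 1
    rwa [one_smul] at this
  refine ⟨⟨k, hk, by rw [act_mul, h3]⟩, fun h => ?_⟩
  rw [act_mul, h3] at h
  have h4 : act k⁻¹ v = v := by
    have h5 := act_inv_act k v
    rwa [h] at h5
  rw [star_mul, star_ex, hξ.eq, show star k = k⁻¹ from hk', act_mul, h4, h3]

end Flawed
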