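import Pool.Agent.Helper78.FL.Statements

/-!
FL28: a compact Zariski dense subgroup of unitary matrices consists of all unitary elements.
-/

open Matrix MeasureTheory
open scoped ComplexConjugate ComplexOrder

namespace Flawed

/-! ### regular functions are continuous and expand under right translations -/

private theorem rf_continuous {n : ℕ} {f : GLn n → ℂ} (hf : f ∈ Reg n) : Continuous f := by
  unfold Reg at hf
  induction hf using Algebra.adjoin_induction with
  | mem f hf =>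
    rcases hf with ⟨p, rfl⟩ | ⟨p, rfl⟩
    · have h1 : Continuous (fun g : GLn n => (g : Mat n)) := Units.continuous_val
      exact Continuous.matrix_elem h1 p.1 p.2
    · have h1 : Continuous (fun g : GLn n => ((g⁻¹ : GLn n) : Mat n)) :=
        Units.continuous_val.comp continuous_inv
      exact Continuous.matrix_elem h1 p.1 p.2
  | algebraMap r => exact continuous_const
  | add f g _ _ hf hg => exact hf.add hg
  | mul f g _ _ hf hg => exact hf.mul hg

private theorem rf_entry {n : ℕ} (a b : Fin n) : (fun g : GLn n => (g : Mat n) a b) ∈ Reg n :=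
  Algebra.subset_adjoin (Or.inl ⟨(a, b), rfl⟩)

private theorem rf_entry_inv {n : ℕ} (a b : Fin n) :
    (fun g : GLn n => ((g⁻¹ : GLn n) : Mat n) a b) ∈ Reg n :=
  Algebra.subset_adjoin (Or.inr ⟨(a, b), rfl⟩)

/-- expansion of `f (x * k)` -/
private theorem rf_expand {n : ℕ} {f : GLn n → ℂ} (hf : f ∈ Reg n) :
    ∃ (J : Type) (_ : Fintype J) (a b : J → GLn n → ℂ), (∀ j, a j ∈ Reg n) ∧
      (∀ j, Continuous (b j)) ∧ ∀ x k, f (x * k) = ∑ j, a j x * b j k := by
  unfold Reg at hf
  induction hf using Algebra.adjoin_induction with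
  | mem f hf =>
    rcases hf with ⟨p, rfl⟩ | ⟨p, rfl⟩
    · refine ⟨Fin n, inferInstance, fun c g => (g : Mat n) p.1 c, fun c g => (g : Mat n) c p.2,
        fun c => rf_entry p.1 c, fun c => rf_continuous (rf_entry c p.2), fun x k => ?_⟩
      show ((x * k : GLn n) : Mat n) p.1 p.2 = ∑ c, (x : Mat n) p.1 c * (k : Mat n) c p.2
      rw [Units.val_mul, Matrix.mul_apply]
    · refine ⟨Fin n, inferInstance, fun c g => ((g⁻¹ : GLn n) : Mat n) c p.2,
        fun c g => ((g⁻¹ : GLn n) : Mat n) p.1 c,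
        fun c => rf_entry_inv c p.2, fun c => rf_continuous (rf_entry_inv p.1 c), fun x k => ?_⟩
      show (((x * k)⁻¹ : GLn n) : Mat n) p.1 p.2 =
        ∑ c, ((x⁻¹ : GLn n) : Mat n) c p.2 * ((k⁻¹ : GLn n) : Mat n) p.1 c
      rw [_root_.mul_inv_rev, Units.val_mul, Matrix.mul_apply]
      exact Finset.sum_congr rfl fun c _ => mul_comm _ _
  | algebraMap r =>
    refine ⟨Unit, inferInstance, fun _ => algebraMap ℂ (GLn n → ℂ) r, fun _ _ => 1,
      fun _ => (Reg n).algebraMap_mem r, fun _ => continuous_const, fun x k => ?_⟩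
    simp
  | add f g _ _ hf hg =>
    obtain ⟨J, _, a, b, ha, hb, hab⟩ := hf
    obtain ⟨J', _, a', b', ha', hb', hab'⟩ := hg
    refine ⟨J ⊕ J', inferInstance, Sum.elim a a', Sum.elim b b', ?_, ?_, fun x k => ?_⟩
    · rintro (j | j)
      · exact ha j
      · exact ha' j
    · rintro (j | j)
      · exact hb j
      · exact hb' j
    · rw [Pi.add_apply, hab, hab', Fintype.sum_sum_type]
      rfl
  | mul f g _ _ hf hg =>
    obtain ⟨J, _, a, b, ha, hb, hab⟩ := hf
    obtain ⟨J', _, a', b', ha', hb', hab'⟩ := hg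
    refine ⟨J × J', inferInstance, fun j => a j.1 * a' j.2, fun j => b j.1 * b' j.2,
      fun j => (Reg n).mul_mem (ha j.1) (ha' j.2), fun j => (hb j.1).mul (hb' j.2),
      fun x k => ?_⟩
    rw [Pi.mul_apply, hab, hab', Finset.sum_mul_sum, Fintype.sum_prod_type]
    refine Finset.sum_congr rfl fun i _ => Finset.sum_congr rfl fun j _ => ?_
    simp only [Pi.mul_apply]
    ring

/-! ### averages over the compact group -/

private theorem rf_ae {n : ℕ} {K : Subgroup (GLn n)} {μ : Measure (GLn n)} (hμ : IsHaar K μ) :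
    ∀ᵐ k ∂μ, k ∈ K := by
  rw [ae_iff]
  exact hμ.supp

private theorem rf_integrable {n : ℕ} {K : Subgroup (GLn n)} (hK : IsCompact (K : Set (GLn n)))
    {μ : Measure (GLn n)} (hμ : IsHaar K μ) {b : GLn n → ℂ} (hb : Continuous b) :
    Integrable b μ := by
  have := hμ.prob
  have h1 : IntegrableOn b (K : Set (GLn n)) μ := hb.continuousOn.integrableOn_compact hK
  have h2 : μ.restrict (K : Set (GLn n)) = μ := Measure.restrict_eq_self_of_ae_mem (rf_ae hμ)
  rwa [IntegrableOn, h2] at h1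

private theorem rf_avg_mem {n : ℕ} {K : Subgroup (GLn n)} (hK : IsCompact (K : Set (GLn n)))
    {μ : Measure (GLn n)} (hμ : IsHaar K μ) {f : GLn n → ℂ} (hf : f ∈ Reg n) :
    (fun x => ∫ k, f (x * k) ∂μ) ∈ Reg n := by
  obtain ⟨J, _, a, b, ha, hb, hab⟩ := rf_expand hf
  have h1 : (fun x => ∫ k, f (x * k) ∂μ) = ∑ j, (∫ k, b j k ∂μ) • a j := by
    funext x
    rw [Finset.sum_apply]
    simp only [hab]
    rw [integral_finsetSum _ fun j _ => (rf_integrable hK hμ (hb j)).const_mul _]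
    refine Finset.sum_congr rfl fun j _ => ?_
    rw [integral_const_mul, Pi.smul_apply, smul_eq_mul, mul_comm]
  rw [h1]
  exact (Reg n).sum_mem fun j _ => (Reg n).smul_mem (ha j) _

private theorem rf_avg_inv {n : ℕ} {K : Subgroup (GLn n)}
    {μ : Measure (GLn n)} (hμ : IsHaar K μ) {f : GLn n → ℂ} (hf : Continuous f) (x : GLn n)
    {k₀ : GLn n} (hk : k₀ ∈ K) :
    ∫ k, f (x * k₀ * k) ∂μ = ∫ k, f (x * k) ∂μ := by
  have hc : Continuous fun k => f (x * k) := hf.comp (continuous_const.mul continuous_id)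
  have hm : Continuous fun y : GLn n => k₀ * y := continuous_const.mul continuous_id
  conv_rhs => rw [← hμ.inv k₀ hk]
  rw [integral_map (φ := fun y : GLn n => k₀ * y) hm.measurable.aemeasurable
    hc.aestronglyMeasurable]
  refine integral_congr_ae (Filter.Eventually.of_forall fun k => ?_)
  simp only [mul_assoc]

/-! ### separation of `K` and `u K` by a regular function -/

/-- the star algebra of restrictions of regular functions -/
private noncomputable def rfAlg {n : ℕ} (C : Set (GLn n)) : StarSubalgebra ℂ C(C, ℂ) where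
  carrier := {φ | (∃ f ∈ Reg n, ∀ x : C, φ x = f x) ∧ ∃ f ∈ Reg n, ∀ x : C, star (φ x) = f x}
  mul_mem' := by
    rintro φ ψ ⟨⟨f, hf, h1⟩, f', hf', h2⟩ ⟨⟨g, hg, h3⟩, g', hg', h4⟩
    refine ⟨⟨f * g, (Reg n).mul_mem hf hg, fun x => ?_⟩,
      f' * g', (Reg n).mul_mem hf' hg', fun x => ?_⟩
    · rw [ContinuousMap.mul_apply, h1, h3, Pi.mul_apply]
    · rw [ContinuousMap.mul_apply, star_mul', h2, h4, Pi.mul_apply]
  add_mem' := by
    rintro φ ψ ⟨⟨f, hf, h1⟩, f', hf', h2⟩ ⟨⟨g, hg, h3⟩, g', hg', h4⟩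
    refine ⟨⟨f + g, (Reg n).add_mem hf hg, fun x => ?_⟩,
      f' + g', (Reg n).add_mem hf' hg', fun x => ?_⟩
    · rw [ContinuousMap.add_apply, h1, h3, Pi.add_apply]
    · rw [ContinuousMap.add_apply, star_add, h2, h4, Pi.add_apply]
  algebraMap_mem' := by
    intro r
    refine ⟨⟨algebraMap ℂ _ r, (Reg n).algebraMap_mem r, fun x => rfl⟩,
      algebraMap ℂ _ (star r), (Reg n).algebraMap_mem _, fun x => rfl⟩
  star_mem' := by
    rintro φ ⟨⟨f, hf, h1⟩, f', hf', h2⟩
    refine ⟨⟨f', hf', fun x => ?_⟩, f, hf, fun x => ?_⟩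
    · rw [← h2]; rfl
    · rw [← h1]
      exact star_star (φ x)

private theorem rf_coord_mem {n : ℕ} {C : Set (GLn n)} (hC : C ⊆ UU n) (a b : Fin n) :
    (⟨fun x : C => ((x : GLn n) : Mat n) a b,
      (rf_continuous (rf_entry a b)).comp continuous_subtype_val⟩ : C(C, ℂ)) ∈ rfAlg C := by
  refine ⟨⟨_, rf_entry a b, fun x => rfl⟩, _, rf_entry_inv b a, fun x => ?_⟩
  have h := mem_UU'.1 (hC x.2)
  show star (((x : GLn n) : Mat n) a b) = (((x : GLn n)⁻¹ : GLn n) : Mat n) b a
  rw [← h]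
  rfl

private theorem rf_separates {n : ℕ} {C : Set (GLn n)} (hC : C ⊆ UU n) :
    (rfAlg C).SeparatesPoints := by
  intro x y hxy
  have h1 : ∃ a b, ((x : GLn n) : Mat n) a b ≠ ((y : GLn n) : Mat n) a b := by
    by_contra hcon
    push Not at hcon
    apply hxy
    apply Subtype.ext
    apply Units.ext
    ext a b
    exact hcon a b
  obtain ⟨a, b, hab⟩ := h1
  exact ⟨_, ⟨_, rf_coord_mem hC a b, rfl⟩, hab⟩

private theorem rf_approx {n : ℕ} {C : Set (GLn n)} (hC : C ⊆ UU n) (hCc : IsCompact C)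
    (χ : C(C, ℂ)) {ε : ℝ} (hε : 0 < ε) : ∃ f ∈ Reg n, ∀ x : C, ‖f x - χ x‖ ≤ ε := by
  have : CompactSpace C := isCompact_iff_compactSpace.1 hCc
  have h1 := ContinuousMap.starSubalgebra_topologicalClosure_eq_top_of_separatesPoints
    (rfAlg C) (rf_separates hC)
  have h2 : χ ∈ closure (rfAlg C : Set C(C, ℂ)) := by
    rw [← StarSubalgebra.topologicalClosure_coe, h1]
    trivial
  obtain ⟨φ, hφ, hd⟩ := Metric.mem_closure_iff.1 h2 ε hε
  obtain ⟨⟨f, hf, hfφ⟩, -⟩ := hφ
  refine ⟨f, hf, fun x => ?_⟩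
  rw [← hfφ x, ← dist_eq_norm]
  have h3 := ContinuousMap.dist_apply_le_dist (f := φ) (g := χ) x
  rw [dist_comm χ φ] at hd
  exact h3.trans hd.le

theorem realForm : StReg → StHaar → StRealForm := by
  intro hReg hHaar n K G hK hZ hU u hu
  by_contra hnot
  obtain ⟨hKG, hdense⟩ := hZ
  obtain ⟨huG, huU⟩ := mem_KK.1 hu
  obtain ⟨μ, hμ⟩ := hHaar n K hK
  have := hμ.prob
  -- the compact set `C`
  set uK : Set (GLn n) := (fun k => u * k) '' (K : Set (GLn n)) with huK
  have huKc : IsCompact uK := hK.image (continuous_const.mul continuous_id)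
  set C : Set (GLn n) := (K : Set (GLn n)) ∪ uK with hCdef
  have hCc : IsCompact C := hK.union huKc
  have hCU : C ⊆ UU n := by
    rintro x (hx | ⟨k, hk, rfl⟩)
    · exact hU hx
    · exact (UU n).mul_mem huU (hU hk)
  have hdisj : ∀ x ∈ uK, x ∉ K := by
    rintro x ⟨k, hk, rfl⟩ hx
    apply hnot
    have := K.mul_mem hx (K.inv_mem hk)
    rwa [mul_inv_cancel_right] at this
  -- the indicator function of `u K`
  have hclopen : IsClopen {x : C | (x : GLn n) ∈ uK} := by
    refine ⟨huKc.isClosed.preimage continuous_subtype_val, ?_⟩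
    have h1 : {x : C | (x : GLn n) ∈ uK} = {x : C | (x : GLn n) ∈ (K : Set (GLn n))}ᶜ := by
      ext x
      constructor
      · intro hx hx'
        exact hdisj _ hx hx'
      · intro hx
        rcases x.2 with h | h
        · exact absurd h hx
        · exact h
    rw [h1]
    exact (hK.isClosed.preimage continuous_subtype_val).isOpen_compl
  set χ : C(C, ℂ) := (LocallyConstant.charFn ℂ hclopen).toContinuousMap with hχ
  have hχ1 : ∀ x : C, (x : GLn n) ∈ uK → χ x = 1 := by
    intro x hx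
    show (LocallyConstant.charFn ℂ hclopen) x = 1
    rw [LocallyConstant.coe_charFn,
      Set.indicator_of_mem (show x ∈ {x : C | (x : GLn n) ∈ uK} from hx)]
    rfl
  have hχ0 : ∀ x : C, (x : GLn n) ∉ uK → χ x = 0 := by
    intro x hx
    show (LocallyConstant.charFn ℂ hclopen) x = 0
    rw [LocallyConstant.coe_charFn,
      Set.indicator_of_notMem (show x ∉ {x : C | (x : GLn n) ∈ uK} from hx)]
  obtain ⟨f, hf, hfχ⟩ := rf_approx hCU hCc χ (ε := 1 / 4) (by norm_num)
  have hfK : ∀ k ∈ K, ‖f k‖ ≤ 1 / 4 := by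
    intro k hk
    have h1 := hfχ ⟨k, Or.inl hk⟩
    rw [hχ0 _ (fun h => hdisj _ h hk), sub_zero] at h1
    exact h1
  have hfuK : ∀ k ∈ K, ‖f (u * k) - 1‖ ≤ 1 / 4 := by
    intro k hk
    have h1 := hfχ ⟨u * k, Or.inr ⟨k, hk, rfl⟩⟩
    rw [hχ1 _ ⟨k, hk, rfl⟩] at h1
    exact h1
  -- the average
  have hfc := rf_continuous hf
  set F : GLn n → ℂ := fun x => ∫ k, f (x * k) ∂μ with hF
  have hFreg : F ∈ Reg n := rf_avg_mem hK hμ hf
  have hFK : ∀ k ∈ K, F k = F 1 := by
    intro k hk
    have := rf_avg_inv hμ hfc 1 hk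
    simp only [one_mul] at this
    simp only [hF, one_mul]
    exact this
  have hFu : F u = F 1 := by
    have h1 := hReg n K G ⟨hKG, hdense⟩ (F - algebraMap ℂ (GLn n → ℂ) (F 1))
      ((Reg n).sub_mem hFreg ((Reg n).algebraMap_mem _))
      (fun k hk => by
        rw [Pi.sub_apply, hFK k hk]
        exact sub_self _) u huG
    rw [Pi.sub_apply] at h1
    exact sub_eq_zero.1 h1
  have h1 : ‖F 1‖ ≤ 1 / 4 := by
    have h := norm_integral_le_of_norm_le_const (μ := μ) (f := fun k => f (1 * k)) (C := 1 / 4)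
      ((rf_ae hμ).mono fun k hk => by rw [one_mul]; exact hfK k hk)
    simpa [hF] using h
  have h2 : ‖F u - 1‖ ≤ 1 / 4 := by
    have h := norm_integral_le_of_norm_le_const (μ := μ) (f := fun k => f (u * k) - 1)
      (C := 1 / 4) ((rf_ae hμ).mono fun k hk => hfuK k hk)
    have hi : Integrable (fun k => f (u * k)) μ :=
      rf_integrable hK hμ (hfc.comp (continuous_const.mul continuous_id))
    rw [integral_sub hi (integrable_const _)] at h
    simpa using h
  rw [hFu] at h2
  have h3 : ‖(1 : ℂ)‖ ≤ ‖F 1‖ + ‖F 1 - 1‖ := by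
    have := norm_sub_le (F 1) (F 1 - 1)
    rwa [sub_sub_cancel] at this
  rw [norm_one] at h3
  linarith

end Flawed
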