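import Pool.Agent.Helper78.FL.Statements

/-!
FL15: regular functions vanishing on a Zariski dense subgroup vanish.
-/

open Matrix MeasureTheory
open scoped ComplexConjugate ComplexOrder

namespace Flawed

/-- the generic matrix -/
noncomputable def fl15X (n : ℕ) : Matrix (Fin n) (Fin n) (MvPolynomial (Fin n × Fin n) ℂ) :=
  Matrix.of fun i j => MvPolynomial.X (i, j)

theorem fl15_map {n : ℕ} (x : Mat n) :
    (MvPolynomial.eval (fun p : Fin n × Fin n => x p.1 p.2)).mapMatrix (fl15X n) = x := by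
  ext i j
  simp [fl15X, RingHom.mapMatrix_apply]

theorem fl15_det {n : ℕ} (x : Mat n) : pev (fl15X n).det x = x.det := by
  unfold pev
  rw [RingHom.map_det, fl15_map]

theorem fl15_adj {n : ℕ} (x : Mat n) (i j : Fin n) :
    pev ((fl15X n).adjugate i j) x = x.adjugate i j := by
  have h : (MvPolynomial.eval (fun p : Fin n × Fin n => x p.1 p.2)).mapMatrix
      (fl15X n).adjugate = x.adjugate := by
    rw [RingHom.map_adjugate, fl15_map]
  have h2 := congrFun (congrFun h i) j
  simpa [pev, RingHom.mapMatrix_apply] using h2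

theorem fl15_det_ne {n : ℕ} (g : GLn n) : (g : Mat n).det ≠ 0 := by
  have h : IsUnit (g : Mat n).det := (Matrix.isUnit_iff_isUnit_det _).1 g.isUnit
  exact h.ne_zero

theorem fl15_inv_det {n : ℕ} (g : GLn n) (i j : Fin n) :
    ((g⁻¹ : GLn n) : Mat n) i j * (g : Mat n).det = (g : Mat n).adjugate i j := by
  have h1 : (g : Mat n).adjugate = (g : Mat n).det • ((g⁻¹ : GLn n) : Mat n) := by
    have h2 : ((g⁻¹ : GLn n) : Mat n) * ((g : Mat n) * (g : Mat n).adjugate) =
        (g : Mat n).adjugate := by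
      rw [← Matrix.mul_assoc, ← Units.val_mul, inv_mul_cancel, Units.val_one, Matrix.one_mul]
    rw [Matrix.mul_adjugate, Matrix.mul_smul, Matrix.mul_one] at h2
    exact h2.symm
  rw [h1, Matrix.smul_apply, smul_eq_mul, mul_comm]

theorem fl15_poly {n : ℕ} {f : GLn n → ℂ} (hf : f ∈ Reg n) :
    ∃ (e : ℕ) (F : MvPolynomial (Fin n × Fin n) ℂ), ∀ g : GLn n,
      f g * (g : Mat n).det ^ e = pev F (g : Mat n) := by
  unfold Reg at hf
  induction hf using Algebra.adjoin_induction with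
  | mem x hx =>
    rcases hx with ⟨p, rfl⟩ | ⟨p, rfl⟩
    · refine ⟨0, MvPolynomial.X p, fun g => ?_⟩
      simp [pev]
    · refine ⟨1, (fl15X n).adjugate p.1 p.2, fun g => ?_⟩
      rw [fl15_adj, pow_one]
      exact fl15_inv_det g p.1 p.2
  | algebraMap r =>
    refine ⟨0, MvPolynomial.C r, fun g => ?_⟩
    simp [pev]
  | add x y hx hy ihx ihy =>
    obtain ⟨e1, F1, h1⟩ := ihx
    obtain ⟨e2, F2, h2⟩ := ihy
    refine ⟨e1 + e2, F1 * (fl15X n).det ^ e2 + F2 * (fl15X n).det ^ e1, fun g => ?_⟩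
    have hd := fl15_det (g : Mat n)
    have a1 := h1 g
    have a2 := h2 g
    unfold pev at hd a1 a2 ⊢
    rw [map_add, map_mul, map_mul, map_pow, map_pow, hd, ← a1, ← a2, Pi.add_apply, pow_add]
    ring
  | mul x y hx hy ihx ihy =>
    obtain ⟨e1, F1, h1⟩ := ihx
    obtain ⟨e2, F2, h2⟩ := ihy
    refine ⟨e1 + e2, F1 * F2, fun g => ?_⟩
    have a1 := h1 g
    have a2 := h2 g
    unfold pev at a1 a2 ⊢
    rw [map_mul, ← a1, ← a2, Pi.mul_apply, pow_add]
    ring

theorem reg : StReg := by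
  intro n K G hZ f hf hK g hg
  obtain ⟨e, F, hF⟩ := fl15_poly hf
  have h1 : pev F (g : Mat n) = 0 := by
    apply hZ.2 F ?_ g hg
    intro k hk
    rw [← hF k, hK k hk, zero_mul]
  have h2 := hF g
  rw [h1] at h2
  rcases mul_eq_zero.1 h2 with h | h
  · exact h
  · exact absurd h (pow_ne_zero _ (fl15_det_ne g))

end Flawed
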