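import Pool.Agent.Helper78.FL.Statements

/-!
FL27 of MP_1b2618_al.
-/

open Matrix MeasureTheory
open scoped ComplexConjugate

namespace Flawed

/-- the polynomial `x ↦ conj (f (xᴴ))` -/
noncomputable def dag {n : ℕ} (f : MvPolynomial (Fin n × Fin n) ℂ) :
    MvPolynomial (Fin n × Fin n) ℂ :=
  MvPolynomial.rename Prod.swap (MvPolynomial.map (starRingEnd ℂ) f)

theorem pev_dag {n : ℕ} (f : MvPolynomial (Fin n × Fin n) ℂ) (x : Mat n) :
    pev (dag f) x = conj (pev f xᴴ) := by
  unfold pev dag
  rw [MvPolynomial.eval_rename]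
  induction f using MvPolynomial.induction_on with
  | C a => simp
  | add p q hp hq => simp only [map_add, hp, hq]
  | mul_X p i hp =>
    simp only [map_mul, hp, MvPolynomial.map_X, MvPolynomial.eval_X]
    congr 1
    simp [Matrix.conjTranspose_apply]

theorem selfAdj : StSelfAdj := by
  intro n K G hG hK hU g hg
  obtain ⟨S, hS⟩ := hG
  rw [hS]
  intro f hf
  have h1 : ∀ k ∈ K, pev (dag f) (k : Mat n) = 0 := by
    intro k hk
    rw [pev_dag, mem_UU'.1 (hU hk), (hS _).1 (G.inv_mem (hK.1 hk)) f hf, map_zero]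
  have h2 := hK.2 _ h1 g hg
  rw [pev_dag] at h2
  have h3 : pev f ((g : Mat n)ᴴ) = 0 := by
    have := congrArg (starRingEnd ℂ) h2
    rwa [Complex.conj_conj, map_zero] at this
  exact h3

end Flawed
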