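import Pool.Agent.Helper78.FL.Statements

/-!
FL14: separation of minimal vectors by averaged powers.
-/

open Matrix MeasureTheory
open scoped ComplexConjugate ComplexOrder

namespace Flawed

theorem hasSum_resolvent_pow (k : ℕ) {s : ℝ} {w : ℂ} (hs : 0 < s) (hw : ‖w‖ < s) :
    HasSum (fun d : ℕ => (((d + k).choose k : ℕ) : ℂ) * ((s : ℂ)⁻¹) ^ (d + (k + 1)) * w ^ d)
      ((((s : ℂ) - w) ^ (k + 1))⁻¹) := by
  have hsc : (s : ℂ) ≠ 0 := by exact_mod_cast hs.ne'
  have hr : ‖w / (s : ℂ)‖ < 1 := by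
    rw [norm_div, Complex.norm_real, Real.norm_eq_abs, abs_of_pos hs, div_lt_one hs]
    exact hw
  have h := (hasSum_choose_mul_geometric_of_norm_lt_one k hr).mul_left (((s : ℂ)⁻¹) ^ (k + 1))
  have e1 : (fun d : ℕ => (((d + k).choose k : ℕ) : ℂ) * ((s : ℂ)⁻¹) ^ (d + (k + 1)) * w ^ d) =
      fun d : ℕ => ((s : ℂ)⁻¹) ^ (k + 1) * ((((d + k).choose k : ℕ) : ℂ) * (w / (s : ℂ)) ^ d) := by
    funext d
    rw [div_eq_mul_inv, mul_pow, pow_add]
    ring
  have e2 : (((s : ℂ) - w) ^ (k + 1))⁻¹ =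
      ((s : ℂ)⁻¹) ^ (k + 1) * (1 / (1 - w / (s : ℂ)) ^ (k + 1)) := by
    have h1 : (s : ℂ) - w = s * (1 - w / s) := by
      rw [mul_sub, mul_div_cancel₀ _ hsc, mul_one]
    rw [h1, mul_pow, mul_inv, inv_pow, one_div]
  rw [e1, e2]
  exact h

/-- termwise integration of the resolvent series -/
theorem integral_resolvent {Ω : Type} [MeasurableSpace Ω] (μ : Measure Ω) [IsProbabilityMeasure μ]
    (w : Ω → ℂ) (hwm : AEStronglyMeasurable w μ) {a s : ℝ} (has : a < s) (ha : 0 ≤ a)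
    (hw : ∀ᵐ x ∂μ, ‖w x‖ ≤ a) (k : ℕ) :
    ∫ x, ((((s : ℂ) - w x) ^ (k + 1))⁻¹) ∂μ =
      ∑' d : ℕ, (((d + k).choose k : ℕ) : ℂ) * ((s : ℂ)⁻¹) ^ (d + (k + 1)) * ∫ x, w x ^ d ∂μ := by
  have hs : 0 < s := lt_of_le_of_lt ha has
  set F : ℕ → Ω → ℂ := fun d x =>
    (((d + k).choose k : ℕ) : ℂ) * ((s : ℂ)⁻¹) ^ (d + (k + 1)) * w x ^ d with hF
  have hb : ∀ d, ∀ᵐ x ∂μ, ‖F d x‖ ≤
      (((d + k).choose k : ℕ) : ℝ) * (s⁻¹) ^ (d + (k + 1)) * a ^ d := by
    intro d
    filter_upwards [hw] with x hx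
    simp only [hF, norm_mul, norm_pow, Complex.norm_natCast, norm_inv, Complex.norm_real,
      Real.norm_eq_abs, abs_of_pos hs]
    gcongr
  have hint : ∀ d, Integrable (F d) μ := by
    intro d
    refine Integrable.of_bound (hwm.pow d |>.const_mul _) _ (hb d)
  have hsum : Summable fun d => ∫ x, ‖F d x‖ ∂μ := by
    have h0 : Summable fun d : ℕ => (((d + k).choose k : ℕ) : ℝ) * (s⁻¹) ^ (d + (k + 1)) * a ^ d := by
      have hr : ‖a / s‖ < 1 := by
        rw [Real.norm_eq_abs, abs_of_nonneg (div_nonneg ha hs.le), div_lt_one hs]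
        exact has
      refine ((summable_choose_mul_geometric_of_norm_lt_one k hr).mul_left
        ((s⁻¹) ^ (k + 1))).congr fun d => ?_
      rw [div_eq_mul_inv, mul_pow, pow_add]
      ring
    refine h0.of_nonneg_of_le (fun d => integral_nonneg fun x => norm_nonneg _) fun d => ?_
    calc ∫ x, ‖F d x‖ ∂μ ≤ ∫ _, (((d + k).choose k : ℕ) : ℝ) * (s⁻¹) ^ (d + (k + 1)) * a ^ d ∂μ :=
          integral_mono_ae (hint d).norm (integrable_const _) (hb d)
      _ = _ := by simp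
  have h := hasSum_integral_of_summable_integral_norm hint hsum
  have h1 : ∫ x, ∑' d, F d x ∂μ = ∫ x, ((((s : ℂ) - w x) ^ (k + 1))⁻¹) ∂μ := by
    refine integral_congr_ae ?_
    filter_upwards [hw] with x hx
    exact (hasSum_resolvent_pow k hs (lt_of_le_of_lt hx has)).tsum_eq
  rw [← h1, ← h.tsum_eq]
  refine tsum_congr fun d => ?_
  simp only [hF]
  rw [integral_const_mul]

theorem sep (hP : StPhase) (hV : StVol) (hD : StDiv) (hC : StCpt) : StSep := by
  intro n ι _ G μ hG hμ m m' hm hm' hle hpow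
  have : IsProbabilityMeasure μ := hμ.prob
  by_contra hno
  push Not at hno
  set a : ℝ := nsq m with ha
  have ha0 : 0 ≤ a := nsq_nonneg m
  -- almost everywhere in `K`
  have hae : ∀ᵐ k ∂μ, k ∈ KK G := by
    rw [ae_iff]
    exact hμ.supp
  have hKU : KK G ≤ UU n := inf_le_right
  -- the two functions
  have hcont : ∀ v : ι → Mat n, Continuous fun k : GLn n => act k⁻¹ v := by
    intro v
    have h := (continuous_act_left v).comp (continuous_inv : Continuous fun k : GLn n => k⁻¹)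
    exact h
  have hipc : ∀ v : ι → Mat n, Continuous fun k : GLn n => ip (act k⁻¹ v) m := by
    intro v
    have h1 : Continuous fun k : GLn n => (act k⁻¹ v, m) := (hcont v).prodMk continuous_const
    have h := (continuous_ip (ι := ι) (n := n)).comp h1
    exact h
  have hnc : ∀ v : ι → Mat n, Continuous fun k : GLn n => nsq (act k⁻¹ v - m) := by
    intro v
    have h1 : Continuous fun k : GLn n => act k⁻¹ v - m := (hcont v).sub continuous_const
    have h := (continuous_nsq (ι := ι) (n := n)).comp h1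
    exact h
  have hns : ∀ v : ι → Mat n, ∀ k ∈ KK G,
      nsq (act k⁻¹ v - m) = nsq v + a - 2 * (ip (act k⁻¹ v) m).re := by
    intro v k hk
    rw [nsq_sub, nsq_act (hKU ((KK G).inv_mem hk))]
  have hnorm : ∀ v : ι → Mat n, nsq v ≤ a → ∀ k ∈ KK G, ‖ip (act k⁻¹ v) m‖ ≤ a := by
    intro v hv k hk
    have h := norm_ip_sq_le (act k⁻¹ v) m
    rw [nsq_act (hKU ((KK G).inv_mem hk))] at h
    have h2 : ‖ip (act k⁻¹ v) m‖ ^ 2 ≤ a ^ 2 := by
      calc ‖ip (act k⁻¹ v) m‖ ^ 2 ≤ nsq v * nsq m := h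
        _ ≤ a * a := mul_le_mul hv le_rfl (nsq_nonneg m) ha0
        _ = a ^ 2 := by ring
    exact (pow_le_pow_iff_left₀ (norm_nonneg _) ha0 (by norm_num)).1 h2
  -- the lower bound for the distance of the two orbits
  obtain ⟨δ₁, hδ₁, hδ₁'⟩ : ∃ δ₁ : ℝ, 0 < δ₁ ∧ ∀ k ∈ KK G, δ₁ ≤ nsq (act k⁻¹ m' - m) := by
    have hK : IsCompact (KK G : Set (GLn n)) := hC.2.2.2.1 n G hG.alg
    have hne : (KK G : Set (GLn n)).Nonempty := ⟨1, (KK G).one_mem⟩
    obtain ⟨k₀, hk₀, hmin⟩ := hK.exists_isMinOn hne (hnc m').continuousOn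
    refine ⟨nsq (act k₀⁻¹ m' - m), ?_, fun k hk => hmin hk⟩
    refine lt_of_le_of_ne (nsq_nonneg _) fun h => ?_
    have h1 := sub_eq_zero.1 (nsq_eq_zero.1 h.symm)
    refine hno k₀ hk₀ ?_
    rw [← h1, act_act_inv]
  -- the hypotheses of the divergence lemma
  set w : GLn n → ℂ := fun k => ip (act k⁻¹ m) m with hw
  set w' : GLn n → ℂ := fun k => ip (act k⁻¹ m') m with hw'
  set d : GLn n → ℝ := fun k => √(nsq (act k⁻¹ m - m)) with hd
  have hd2 : ∀ k, d k ^ 2 = nsq (act k⁻¹ m - m) := fun k => Real.sq_sqrt (nsq_nonneg _)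
  obtain ⟨c, D, hc, hvol⟩ := hV n ι (KK G) μ hKU hμ m
  have hdiv := hD (GLn n) μ w d a c D (hipc m).measurable ((hnc m).sqrt).measurable
    (fun k => Real.sqrt_nonneg _) hc (by
      filter_upwards [hae] with k hk
      rw [hd2, hns m k hk]
      simp only [hw, ha]
      ring) (by
      intro ε hε
      obtain ⟨δ, hδ, hph⟩ := hP n ι G hG m hm ε hε
      refine ⟨√δ, Real.sqrt_pos.2 hδ, ?_⟩
      filter_upwards [hae] with k hk hdk
      rw [hd2]
      refine hph k⁻¹ ((KK G).inv_mem hk) ?_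
      exact (Real.sqrt_le_sqrt_iff hδ.le).1 hdk) (by
      intro ρ hρ hρ1
      refine (hvol ρ hρ hρ1).trans (measure_mono fun k hk => ?_)
      simp only [Set.mem_ofPred_eq] at hk ⊢
      exact Real.sqrt_le_iff.2 ⟨hρ.le, hk⟩) (D + 1) (by omega) (((δ₁ / 2) ^ (D + 1))⁻¹)
  obtain ⟨s₀, hs₀, hbig⟩ := hdiv
  set s : ℝ := (a + s₀) / 2 with hsdef
  have has : a < s := by rw [hsdef]; linarith
  have hss : s < s₀ := by rw [hsdef]; linarith
  have h1 := hbig s has hss
  have hmeas : ∀ v : ι → Mat n, AEStronglyMeasurable (fun k => ip (act k⁻¹ v) m) μ := fun v =>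
    (hipc v).measurable.aestronglyMeasurable
  have hEq : ∫ k, (((s : ℂ) - w k) ^ (D + 1))⁻¹ ∂μ = ∫ k, (((s : ℂ) - w' k) ^ (D + 1))⁻¹ ∂μ := by
    rw [integral_resolvent μ w (hmeas m) has ha0 (by
        filter_upwards [hae] with k hk using hnorm m le_rfl k hk) D,
      integral_resolvent μ w' (hmeas m') has ha0 (by
        filter_upwards [hae] with k hk using hnorm m' hle k hk) D]
    refine tsum_congr fun j => ?_
    rw [hpow j]
  rw [hEq] at h1
  have h2 : ‖∫ k, (((s : ℂ) - w' k) ^ (D + 1))⁻¹ ∂μ‖ ≤ ((δ₁ / 2) ^ (D + 1))⁻¹ := by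
    have := norm_integral_le_of_norm_le_const (μ := μ)
      (f := fun k => (((s : ℂ) - w' k) ^ (D + 1))⁻¹) (C := ((δ₁ / 2) ^ (D + 1))⁻¹) (by
      filter_upwards [hae] with k hk
      rw [norm_inv, norm_pow]
      have h3 : δ₁ / 2 ≤ ‖(s : ℂ) - w' k‖ := by
        have h4 := hδ₁' k hk
        rw [hns m' k hk] at h4
        have h5 : (ip (act k⁻¹ m') m).re ≤ a - δ₁ / 2 := by linarith
        calc δ₁ / 2 ≤ s - (w' k).re := by
              simp only [hw']
              linarith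
          _ = ((s : ℂ) - w' k).re := by simp
          _ ≤ ‖(s : ℂ) - w' k‖ := Complex.re_le_norm _
      gcongr)
    simpa using this
  exact absurd h1 (not_lt.2 h2)

end Flawed
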