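import Pool.Agent.Helper78.FL.Statements

/-!
Module FL22 of MP_1b2618_al: first stage of the deformation.
-/

open Matrix MeasureTheory
open scoped ComplexConjugate ComplexOrder

namespace Flawed

private theorem posDef_star_mul_GLn {n : ℕ} (z : GLn n) : ((star z * z : GLn n) : Mat n).PosDef := by
  have h : ((star z * z : GLn n) : Mat n) = (z : Mat n)ᴴ * (z : Mat n) := by
    rw [Units.val_mul]; rfl
  rw [h]
  refine Matrix.PosDef.conjTranspose_mul_self _ ?_
  rw [Matrix.mulVec_injective_iff_isUnit]
  exact z.isUnit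

private theorem commute_ex {n : ℕ} {x : GLn n} {ℓ : Mat n} (h : Commute (x : Mat n) ℓ) (c : ℂ) :
    Commute x (ex (c • ℓ)) := by
  rw [commute_iff_eq, ← mul_inv_eq_iff_eq_mul, ← ex_conj]
  congr 1
  rw [mul_smul_comm, h.eq, smul_mul_assoc, mul_assoc, Units.mul_inv, mul_one]

private theorem ex_pow {n : ℕ} (ℓ : Mat n) (c : ℂ) (N : ℕ) : ex (c • ℓ) ^ N = ex ((N * c : ℂ) • ℓ) := by
  induction N with
  | zero => simp
  | succ N ih =>
    rw [pow_succ, ih, ← ex_add_smul]
    congr 2
    push_cast
    ring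

private theorem continuous_star_GLn {n : ℕ} : Continuous (star : GLn n → GLn n) := by
  rw [Units.continuous_iff]
  have h1 : Continuous (fun x : GLn n => (x : Mat n)ᴴ) :=
    Units.continuous_val.matrix_conjTranspose
  have h2 : Continuous (fun x : GLn n => (((x⁻¹ : GLn n)) : Mat n)ᴴ) :=
    (Units.continuous_val.comp continuous_inv).matrix_conjTranspose
  refine ⟨h1, ?_⟩
  refine h2.congr fun x => ?_
  rw [← star_inv]
  rfl

private theorem act_emb_of_commute {n r : ℕ} {z : GLn n} {x : Fin r → GLn n}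
    (h : ∀ i, Commute (x i) z) : act z (emb x) = emb x := by
  funext j
  rcases j with i | i
  · simp only [act, emb, Sum.elim_inl]
    have h1 : z * x i * z⁻¹ = x i := by rw [← (h i).eq, mul_inv_cancel_right]
    have h2 := congrArg Units.val h1
    rw [Units.val_mul, Units.val_mul] at h2
    exact h2
  · simp only [act, emb, Sum.elim_inr]
    have h1 : z * (x i)⁻¹ * z⁻¹ = (x i)⁻¹ := by rw [← ((h i).inv_left).eq, mul_inv_cancel_right]
    have h2 := congrArg Units.val h1
    rw [Units.val_mul, Units.val_mul] at h2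
    exact h2

private theorem commute_of_act_emb {n r : ℕ} {z : GLn n} {x : Fin r → GLn n}
    (h : act z (emb x) = emb x) (i : Fin r) : Commute (x i) z := by
  have h1 := congrFun h (Sum.inl i)
  simp only [act, emb, Sum.elim_inl] at h1
  have h2 : z * x i * z⁻¹ = x i := by
    apply Units.ext
    rw [Units.val_mul, Units.val_mul]
    exact h1
  exact (mul_inv_eq_iff_eq_mul.1 h2).symm

theorem stage1 (hMO : StMinOrb) (hL : StLog) (hE : StE1) : StStage1 := by
  intro n r N G hr hN hG
  obtain ⟨hexp, L, hL1, hL2, hLc, hLcomm⟩ := hL n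
  set i₀ : Fin r := ⟨0, hr⟩ with hi₀
  set Z : (Fin r → GLn n) → GLn n := fun x => x i₀ ^ N i₀ with hZ
  set ℓ : (Fin r → GLn n) → Mat n := fun x => L ((star (Z x) * Z x : GLn n) : Mat n) with hℓ
  have hℓ1 : ∀ x, (ℓ x).IsHermitian := fun x => (hL1 _ (posDef_star_mul_GLn _)).1
  have hℓ2 : ∀ x, ex (ℓ x) = star (Z x) * Z x := fun x =>
    Units.ext (hL1 _ (posDef_star_mul_GLn _)).2
  have hZc : Continuous Z := by
    have h : Continuous (fun x : Fin r → GLn n => x i₀) := continuous_apply i₀
    exact h.pow _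
  have hstar : Continuous (fun x : Fin r → GLn n => star (Z x) * Z x) :=
    (continuous_star_GLn.comp hZc).mul hZc
  have hℓc : Continuous ℓ := by
    have h := hLc.comp_continuous (Units.continuous_val.comp hstar)
      (fun x => posDef_star_mul_GLn _)
    exact h
  refine ⟨fun x s i => x i * ex ((-(s / (2 * N i)) : ℂ) • ℓ x), ?_, ?_⟩
  · refine Continuous.continuousOn ?_
    refine continuous_pi fun i => ?_
    have h1 : Continuous (fun p : (Fin r → GLn n) × ℝ => p.1 i) :=
      (continuous_apply i).comp continuous_fst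
    have h2 : Continuous (fun p : (Fin r → GLn n) × ℝ => (-((p.2 : ℂ) / (2 * N i)) : ℂ)) := by
      fun_prop
    have h3 : Continuous (fun p : (Fin r → GLn n) × ℝ => ℓ p.1) := hℓc.comp continuous_fst
    have h4 : Continuous (fun p : (Fin r → GLn n) × ℝ =>
      (-((p.2 : ℂ) / (2 * N i)) : ℂ) • ℓ p.1) := h2.smul h3
    have h5 := continuous_ex.comp h4
    exact h1.mul h5
  · intro x hx hmin
    obtain ⟨hxG, hxr⟩ := hx
    have hZx : ∀ i, x i ^ N i = Z x := fun i => hxr i i₀
    have hZG : Z x ∈ G := G.pow_mem (hxG _) _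
    have hcomm : ∀ i, Commute (x i) (Z x) := fun i => by
      rw [← hZx i]; exact (Commute.refl _).pow_right _
    have hact : act (Z x) (emb x) = emb x := act_emb_of_commute hcomm
    have hact' : act (star (Z x)) (emb x) = emb x := by
      have := hMO n (Fin r ⊕ Fin r) G hG (emb x) hmin (Z x) hZG (by rw [hact])
      exact this.2 hact
    have hcomms : ∀ i, Commute (x i) (star (Z x)) := commute_of_act_emb hact'
    have hp : ∀ i, Commute (x i) (star (Z x) * Z x) := fun i => (hcomms i).mul_right (hcomm i)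
    have hℓx : ∀ i, Commute (x i : Mat n) (ℓ x) := fun i =>
      hLcomm _ (posDef_star_mul_GLn _) _ (by
        have := congrArg Units.val (hp i).eq
        rw [Units.val_mul, Units.val_mul] at this
        exact this)
    have hInLie : InLie G (ℓ x) := hE n G hG.alg _ (hℓ1 x) (by
      rw [hℓ2]; exact G.mul_mem (hG.star_mem _ hZG) hZG)
    have hpow : ∀ (s : ℝ) (i : Fin r), (x i * ex ((-(s / (2 * N i)) : ℂ) • ℓ x)) ^ N i =
        Z x * ex ((-(s / 2) : ℂ) • ℓ x) := by
      intro s i
      rw [(commute_ex (hℓx i) _).mul_pow, hZx, ex_pow]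
      congr 3
      have : (N i : ℂ) ≠ 0 := by exact_mod_cast (hN i).ne'
      field_simp
    refine ⟨fun s => ⟨fun i => G.mul_mem (hxG i) (hInLie _), fun i j => ?_⟩, ?_, fun i => ?_,
      fun k hk s => ?_, fun hu s => ?_⟩
    · rw [hpow, hpow]
    · funext i
      simp
    · rw [hpow, mem_UU]
      have e1 : (-(((1 : ℝ) : ℂ) / 2) : ℂ) = -(1 / 2) := by norm_num
      rw [e1]
      set e : GLn n := ex ((-(1 / 2) : ℂ) • ℓ x) with he
      have hes : star e = e := by
        rw [he, star_ex, conjTranspose_smul, (hℓ1 x).eq]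
        congr 2
        simp
      have hee : e * ex (ℓ x) * e = 1 := by
        have h1 : ex (ℓ x) = ex ((1 : ℂ) • ℓ x) := by rw [one_smul]
        rw [h1, he, ← ex_add_smul, ← ex_add_smul]
        norm_num
      refine eq_inv_of_mul_eq_one_left ?_
      rw [star_mul, hes]
      rw [← hee, hℓ2]
      group
    · funext i
      have hks : star k = k⁻¹ := (mem_KK.1 hk).2
      have hZk : Z (cjt k x) = k * Z x * k⁻¹ := by
        simp only [hZ, cjt, conj_pow]
      have hpk : star (Z (cjt k x)) * Z (cjt k x) = k * (star (Z x) * Z x) * k⁻¹ := by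
        rw [hZk, star_mul, star_mul, star_inv, hks]
        group
      have hℓk : ℓ (cjt k x) = (k : Mat n) * ℓ x * ((k⁻¹ : GLn n) : Mat n) := by
        have h1 : star (Z (cjt k x)) * Z (cjt k x) =
            ex ((k : Mat n) * ℓ x * ((k⁻¹ : GLn n) : Mat n)) := by
          rw [hpk, ex_conj, hℓ2]
        have h2 : ((k : Mat n) * ℓ x * ((k⁻¹ : GLn n) : Mat n)).IsHermitian := by
          have h3 := mem_UU'.1 (mem_KK.1 hk).2
          rw [← h3]
          exact Matrix.isHermitian_mul_mul_conjTranspose _ (hℓ1 x)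
        simp only [hℓ]
        rw [h1]
        exact hL2 _ h2
      simp only [cjt]
      rw [hℓk]
      have h4 : (-(s / (2 * N i)) : ℂ) • ((k : Mat n) * ℓ x * ((k⁻¹ : GLn n) : Mat n)) =
          (k : Mat n) * ((-(s / (2 * N i)) : ℂ) • ℓ x) * ((k⁻¹ : GLn n) : Mat n) := by
        rw [mul_smul_comm, smul_mul_assoc]
      rw [h4, ex_conj]
      group
    · funext i
      have h1 : star (Z x) * Z x = 1 := by
        have h2 : Z x ∈ UU n := (UU n).pow_mem (hu _) _
        rw [mem_UU.1 h2, inv_mul_cancel]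
      have h3 : ℓ x = 0 := by
        simp only [hℓ]
        rw [h1]
        have := hL2 0 Matrix.isHermitian_zero
        rwa [NormedSpace.exp_zero] at this
      change x i * ex ((-(s / (2 * N i)) : ℂ) • ℓ x) = x i
      rw [h3, smul_zero, ex_zero, mul_one]

end Flawed
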