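import Pool.Agent.Helper78.FL.Statements

/-!
Module FL23 of MP_1b2618_al (helper42): second stage of the deformation.
-/

open Matrix MeasureTheory Filter Topology
open scoped ComplexConjugate ComplexOrder

namespace Flawed
variable {n : ℕ}

/-- the first averaged matrix -/
noncomputable def st2A (N : ℕ) (x : GLn n) : Mat n :=
  ∑ l ∈ Finset.range N, ((x⁻¹ ^ l : GLn n) : Mat n)ᴴ * ((x⁻¹ ^ l : GLn n) : Mat n)

/-- the second averaged matrix -/
noncomputable def st2B (N : ℕ) (x : GLn n) : Mat n :=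
  ∑ l ∈ Finset.range N, ((x ^ l : GLn n) : Mat n) * ((x ^ l : GLn n) : Mat n)ᴴ

theorem st2A_posDef {N : ℕ} (hN : 0 < N) (x : GLn n) : (st2A N x).PosDef := by
  refine Matrix.posDef_sum ?_ fun l _ => ?_
  · exact Finset.nonempty_range_iff.2 hN.ne'
  · exact Matrix.PosDef.conjTranspose_mul_self _ (mulVec_injective_of_isUnit (x⁻¹ ^ l).isUnit)

theorem st2B_posDef {N : ℕ} (hN : 0 < N) (x : GLn n) : (st2B N x).PosDef := by
  refine Matrix.posDef_sum ?_ fun l _ => ?_
  · exact Finset.nonempty_range_iff.2 hN.ne'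
  · exact Matrix.PosDef.mul_conjTranspose_self _ (vecMul_injective_of_isUnit (x ^ l).isUnit)

theorem st2_UU_mul {u : GLn n} (hu : u ∈ UU n) : (u : Mat n)ᴴ * (u : Mat n) = 1 := by
  rw [mem_UU'.1 hu]
  exact Units.inv_mul u

theorem st2_UU_mul' {u : GLn n} (hu : u ∈ UU n) : (u : Mat n) * (u : Mat n)ᴴ = 1 := by
  rw [mem_UU'.1 hu]
  exact Units.mul_inv u

theorem st2_sum_shift (N : ℕ) (f T : ℕ → Mat n) (h : ∀ l, f (l + 1) = T l) (h0 : f 0 = f N) :
    ∑ l ∈ Finset.range N, f l = ∑ l ∈ Finset.range N, T l := by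
  have h1 := Finset.sum_range_succ f N
  have h2 := Finset.sum_range_succ' f N
  rw [h1, h0] at h2
  have h3 := add_right_cancel h2
  rw [h3]
  exact Finset.sum_congr rfl fun l _ => h l

theorem st2A_inv {N : ℕ} {x : GLn n} (hu : x ^ N ∈ UU n) :
    (x : Mat n)ᴴ * st2A N x * (x : Mat n) = st2A N x := by
  unfold st2A
  rw [Finset.mul_sum, Finset.sum_mul]
  apply st2_sum_shift
  · intro l
    have e : ((x⁻¹ ^ (l + 1) : GLn n) : Mat n) * (x : Mat n) = ((x⁻¹ ^ l : GLn n) : Mat n) := by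
      rw [← Units.val_mul, pow_succ, inv_mul_cancel_right]
    calc (x : Mat n)ᴴ * (((x⁻¹ ^ (l + 1) : GLn n) : Mat n)ᴴ * ((x⁻¹ ^ (l + 1) : GLn n) : Mat n)) *
          (x : Mat n)
        = (((x⁻¹ ^ (l + 1) : GLn n) : Mat n) * (x : Mat n))ᴴ *
          (((x⁻¹ ^ (l + 1) : GLn n) : Mat n) * (x : Mat n)) := by
          rw [conjTranspose_mul]
          simp only [mul_assoc]
      _ = _ := by rw [e]
  · have hu' : x⁻¹ ^ N ∈ UU n := by
      rw [inv_pow]
      exact (UU n).inv_mem hu
    rw [st2_UU_mul hu', pow_zero, Units.val_one, conjTranspose_one, mul_one]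

theorem st2B_inv {N : ℕ} {x : GLn n} (hu : x ^ N ∈ UU n) :
    ((x⁻¹ : GLn n) : Mat n) * st2B N x * ((x⁻¹ : GLn n) : Mat n)ᴴ = st2B N x := by
  unfold st2B
  rw [Finset.mul_sum, Finset.sum_mul]
  apply st2_sum_shift
  · intro l
    have e : ((x⁻¹ : GLn n) : Mat n) * ((x ^ (l + 1) : GLn n) : Mat n) =
        ((x ^ l : GLn n) : Mat n) := by
      rw [← Units.val_mul, pow_succ', inv_mul_cancel_left]
    calc ((x⁻¹ : GLn n) : Mat n) * (((x ^ (l + 1) : GLn n) : Mat n) *
          ((x ^ (l + 1) : GLn n) : Mat n)ᴴ) * ((x⁻¹ : GLn n) : Mat n)ᴴ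
        = (((x⁻¹ : GLn n) : Mat n) * ((x ^ (l + 1) : GLn n) : Mat n)) *
          (((x⁻¹ : GLn n) : Mat n) * ((x ^ (l + 1) : GLn n) : Mat n))ᴴ := by
          rw [conjTranspose_mul]
          simp only [mul_assoc]
      _ = _ := by rw [e]
  · rw [st2_UU_mul' hu, pow_zero, Units.val_one, conjTranspose_one, mul_one]

theorem st2A_conj (N : ℕ) (x : GLn n) {k : GLn n} (hk : k ∈ UU n) :
    st2A N (k * x * k⁻¹) = ((k⁻¹ : GLn n) : Mat n)ᴴ * st2A N x * ((k⁻¹ : GLn n) : Mat n) := by
  unfold st2A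
  rw [Finset.mul_sum, Finset.sum_mul]
  refine Finset.sum_congr rfl fun l _ => ?_
  have e : (k * x * k⁻¹)⁻¹ ^ l = k * x⁻¹ ^ l * k⁻¹ := by
    rw [← conj_pow]
    congr 1
    group
  rw [e, Units.val_mul, Units.val_mul, conjTranspose_mul, conjTranspose_mul]
  calc ((k⁻¹ : GLn n) : Mat n)ᴴ * (((x⁻¹ ^ l : GLn n) : Mat n)ᴴ * (k : Mat n)ᴴ) *
        ((k : Mat n) * ((x⁻¹ ^ l : GLn n) : Mat n) * ((k⁻¹ : GLn n) : Mat n))
      = ((k⁻¹ : GLn n) : Mat n)ᴴ * ((x⁻¹ ^ l : GLn n) : Mat n)ᴴ * ((k : Mat n)ᴴ *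
        (k : Mat n)) * ((x⁻¹ ^ l : GLn n) : Mat n) * ((k⁻¹ : GLn n) : Mat n) := by
        simp only [mul_assoc]
    _ = _ := by
        rw [st2_UU_mul hk, mul_one]
        simp only [mul_assoc]

theorem st2B_conj (N : ℕ) (x : GLn n) {k : GLn n} (hk : k ∈ UU n) :
    st2B N (k * x * k⁻¹) = (k : Mat n) * st2B N x * (k : Mat n)ᴴ := by
  unfold st2B
  rw [Finset.mul_sum, Finset.sum_mul]
  refine Finset.sum_congr rfl fun l _ => ?_
  have hk' : k⁻¹ ∈ UU n := (UU n).inv_mem hk
  rw [conj_pow, Units.val_mul, Units.val_mul, conjTranspose_mul, conjTranspose_mul]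
  calc (k : Mat n) * ((x ^ l : GLn n) : Mat n) * ((k⁻¹ : GLn n) : Mat n) *
        (((k⁻¹ : GLn n) : Mat n)ᴴ * (((x ^ l : GLn n) : Mat n)ᴴ * (k : Mat n)ᴴ))
      = (k : Mat n) * ((x ^ l : GLn n) : Mat n) * (((k⁻¹ : GLn n) : Mat n) *
        ((k⁻¹ : GLn n) : Mat n)ᴴ) * ((x ^ l : GLn n) : Mat n)ᴴ * (k : Mat n)ᴴ := by
        simp only [mul_assoc]
    _ = _ := by
        rw [st2_UU_mul' hk', mul_one]
        simp only [mul_assoc]

theorem st2A_continuous (N : ℕ) : Continuous (st2A N : GLn n → Mat n) := by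
  refine continuous_finsetSum _ fun l _ => ?_
  have h1 : Continuous (fun x : GLn n => ((x⁻¹ ^ l : GLn n) : Mat n)) :=
    Units.continuous_val.comp (continuous_inv.pow l)
  exact h1.matrix_conjTranspose.matrix_mul h1

theorem st2B_continuous (N : ℕ) : Continuous (st2B N : GLn n → Mat n) := by
  refine continuous_finsetSum _ fun l _ => ?_
  have h1 : Continuous (fun x : GLn n => ((x ^ l : GLn n) : Mat n)) :=
    Units.continuous_val.comp (continuous_id.pow l)
  exact h1.matrix_mul h1.matrix_conjTranspose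

/-- `tr h + tr h⁻¹ ≥ 2 n` for positive definite `h` -/
theorem st2_trace {h : GLn n} (hh : (h : Mat n).PosDef) :
    2 * (n : ℝ) ≤ (Matrix.trace (h : Mat n)).re + (Matrix.trace ((h⁻¹ : GLn n) : Mat n)).re := by
  have hi : ((h⁻¹ : GLn n) : Mat n) * (h : Mat n) = 1 := Units.inv_mul h
  have hi' : (h : Mat n) * ((h⁻¹ : GLn n) : Mat n) = 1 := Units.mul_inv h
  have hherm : ((h⁻¹ : GLn n) : Mat n)ᴴ = ((h⁻¹ : GLn n) : Mat n) := by
    have := hh.inv.isHermitian
    rwa [← Matrix.coe_units_inv] at this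
  have h1 := hh.posSemidef.mul_mul_conjTranspose_same (1 - ((h⁻¹ : GLn n) : Mat n))
  have h2 : (1 - ((h⁻¹ : GLn n) : Mat n)) * (h : Mat n) * (1 - ((h⁻¹ : GLn n) : Mat n))ᴴ =
      (h : Mat n) + ((h⁻¹ : GLn n) : Mat n) - 2 • (1 : Mat n) := by
    rw [conjTranspose_sub, conjTranspose_one, hherm, sub_mul, one_mul, hi, sub_mul, mul_sub,
      mul_one, hi', one_mul, two_smul]
    abel
  rw [h2] at h1
  have h3 := h1.trace_nonneg
  rw [Matrix.trace_sub, Matrix.trace_add, Matrix.trace_smul, Matrix.trace_one] at h3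
  have h4 := (Complex.le_def.1 h3).1
  simp only [Complex.zero_re, Complex.sub_re, Complex.add_re, Fintype.card_fin] at h4
  have h5 : ((2 : ℕ) • ((n : ℕ) : ℂ)).re = 2 * (n : ℝ) := by
    rw [nsmul_eq_mul]
    simp
  linarith

theorem stage2 (hM : StMinA) (hL : StLog) (hE : StE1) : StStage2 := by
  intro n r N G hr hN hG
  obtain ⟨hm, hm1, hm2, hm3⟩ := hM n G hG
  obtain ⟨hexp, L, hL1, hL2, hL3, hL4⟩ := hL n
  -- the minimiser and its logarithm
  set H : ℕ → GLn n → GLn n := fun M x => hm (st2A M x) (st2B M x) with hH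
  set ℓ : ℕ → GLn n → Mat n := fun M x => L (H M x : Mat n) with hℓ
  have hHP : ∀ M x, 0 < M → H M x ∈ G ∧ (H M x : Mat n).PosDef := fun M x hM =>
    ⟨(hm1 _ _ (st2A_posDef hM x) (st2B_posDef hM x)).1,
      (hm1 _ _ (st2A_posDef hM x) (st2B_posDef hM x)).2.1⟩
  have hℓH : ∀ M x, 0 < M → (ℓ M x)ᴴ = ℓ M x := fun M x hM => (hL1 _ (hHP M x hM).2).1
  have hexℓ : ∀ M x, 0 < M → ex (ℓ M x) = H M x := fun M x hM =>
    Units.ext (hL1 _ (hHP M x hM).2).2
  have hLie : ∀ M x, 0 < M → InLie G (ℓ M x) := fun M x hM =>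
    hE n G hG.alg _ (hL1 _ (hHP M x hM).2).1 (by rw [hexℓ M x hM]; exact (hHP M x hM).1)
  -- the path
  set c : ℝ → ℂ := fun t => ((t / 2 : ℝ) : ℂ) with hc
  set P : ℕ → GLn n → ℝ → GLn n := fun M x t => ex (-(c t) • ℓ M x) * x * ex (c t • ℓ M x) with hP
  have hPconj : ∀ M x t, P M x t = ex (-(c t) • ℓ M x) * x * (ex (-(c t) • ℓ M x))⁻¹ := by
    intro M x t
    simp only [hP]
    rw [ex_inv, neg_smul, neg_neg]
  have hPG : ∀ M x t, 0 < M → x ∈ G → P M x t ∈ G := fun M x t hM hx =>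
    G.mul_mem (G.mul_mem (hLie M x hM _) hx) (hLie M x hM _)
  -- `x h x* = h`
  have hfix : ∀ M x, 0 < M → x ∈ G → x ^ M ∈ UU n → x * H M x * star x = H M x := by
    intro M x hM hx hu
    have h1 := hm3 _ _ (st2A_posDef hM x) (st2B_posDef hM x) x hx
    rw [st2A_inv hu, st2B_inv hu] at h1
    have h2 : H M x = x⁻¹ * H M x * (star x)⁻¹ := h1
    conv_lhs => rw [h2]
    group
  have hcomm : ∀ M x, 0 < M → x ∈ G → x ^ M ∈ UU n →
      Commute ((x ^ M : GLn n) : Mat n) (ℓ M x) := by
    intro M x hM hx hu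
    apply hL4 _ (hHP M x hM).2
    have h1 : ∀ m : ℕ, x ^ m * H M x * (star x) ^ m = H M x := by
      intro m
      induction m with
      | zero => simp
      | succ m ih =>
        calc x ^ (m + 1) * H M x * (star x) ^ (m + 1)
            = x ^ m * (x * H M x * star x) * (star x) ^ m := by
              rw [pow_succ, pow_succ' (star x)]
              simp only [mul_assoc]
          _ = H M x := by rw [hfix M x hM hx hu, ih]
    have h2 := h1 M
    rw [← star_pow, mem_UU.1 hu] at h2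
    have h3 : x ^ M * H M x = H M x * x ^ M := by
      rw [mul_inv_eq_iff_eq_mul] at h2
      exact h2
    have h4 := congrArg (fun g : GLn n => (g : Mat n)) h3
    simp only [Units.val_mul] at h4
    exact h4
  have hpow : ∀ M x t, 0 < M → x ∈ G → x ^ M ∈ UU n → P M x t ^ M = x ^ M := by
    intro M x t hM hx hu
    rw [hPconj, conj_pow]
    have h1 : Commute ((x ^ M : GLn n) : Mat n) (-(c t) • ℓ M x) :=
      (hcomm M x hM hx hu).smul_right _
    have h2 : ex (((x ^ M : GLn n) : Mat n) * (-(c t) • ℓ M x) *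
        (((x ^ M)⁻¹ : GLn n) : Mat n)) = ex (-(c t) • ℓ M x) := by
      congr 1
      rw [h1.eq, mul_assoc, ← Units.val_mul, mul_inv_cancel, Units.val_one, mul_one]
    rw [ex_conj] at h2
    rw [mul_inv_eq_iff_eq_mul] at h2 ⊢
    exact h2.symm
  refine ⟨fun x t i => P (N i) (x i) t, ?_, ?_⟩
  · -- continuity
    rw [continuousOn_pi]
    intro i
    set D : Set ((Fin r → GLn n) × ℝ) :=
      {x | x ∈ TT N G ∧ ∀ i, x i ^ N i ∈ UU n} ×ˢ Set.Icc 0 1 with hD
    have c0 : Continuous (fun p : (Fin r → GLn n) × ℝ => p.1 i) :=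
      (continuous_apply i).comp continuous_fst
    have c1 : Continuous (fun p : (Fin r → GLn n) × ℝ =>
        (st2A (N i) (p.1 i), st2B (N i) (p.1 i))) :=
      ((st2A_continuous (N i)).comp c0).prodMk ((st2B_continuous (N i)).comp c0)
    have c2 : Continuous (fun p : (Fin r → GLn n) × ℝ => H (N i) (p.1 i)) := by
      have := hm2.comp_continuous c1 (fun p => ⟨st2A_posDef (hN i) _, st2B_posDef (hN i) _⟩)
      exact this
    have c3 : Continuous (fun p : (Fin r → GLn n) × ℝ => ((H (N i) (p.1 i) : GLn n) : Mat n)) :=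
      Units.continuous_val.comp c2
    have c4 : Continuous (fun p : (Fin r → GLn n) × ℝ => ℓ (N i) (p.1 i)) := by
      have := hL3.comp_continuous c3 (fun p => (hHP (N i) (p.1 i) (hN i)).2)
      exact this
    have c5 : Continuous (fun p : (Fin r → GLn n) × ℝ => c p.2) := by
      simp only [hc]
      exact Complex.continuous_ofReal.comp (continuous_snd.div_const 2)
    have c6 : Continuous (fun p : (Fin r → GLn n) × ℝ => ex (c p.2 • ℓ (N i) (p.1 i))) :=
      continuous_ex.comp (c5.smul c4)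
    have c7 : Continuous (fun p : (Fin r → GLn n) × ℝ => ex (-(c p.2) • ℓ (N i) (p.1 i))) :=
      continuous_ex.comp (c5.neg.smul c4)
    exact ((c7.mul c0).mul c6).continuousOn
  · intro x hx hxu
    refine ⟨fun s => ⟨fun i => hPG _ _ _ (hN i) (hx.1 i), fun i j => ?_⟩, ?_, fun i => ?_, ?_, ?_⟩
    · show P (N i) (x i) s ^ N i = P (N j) (x j) s ^ N j
      rw [hpow _ _ _ (hN i) (hx.1 i) (hxu i), hpow _ _ _ (hN j) (hx.1 j) (hxu j)]
      exact hx.2 i j
    · funext i
      show P (N i) (x i) 0 = x i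
      simp only [hP, hc]
      simp
    · -- unitary at the end
      show P (N i) (x i) 1 ∈ UU n
      set M := N i
      set y := x i
      have hMpos : 0 < M := hN i
      rw [mem_UU]
      have hstar1 : ∀ t : ℝ, star (ex (c t • ℓ M y)) = ex (c t • ℓ M y) := by
        intro t
        rw [star_ex, conjTranspose_smul, hℓH M y hMpos]
        congr 2
        simp only [hc]
        exact Complex.conj_ofReal _
      have hstar2 : ∀ t : ℝ, star (ex (-(c t) • ℓ M y)) = ex (-(c t) • ℓ M y) := by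
        intro t
        rw [neg_smul, ← ex_inv, star_inv, hstar1]
      have e1 : ex (c 1 • ℓ M y) * ex (c 1 • ℓ M y) = H M y := by
        rw [← ex_add_smul, ← hexℓ M y hMpos]
        congr 1
        have : c 1 + c 1 = 1 := by
          simp only [hc]
          norm_num
        rw [this, one_smul]
      have e2 : P M y 1 * star (P M y 1) = 1 := by
        simp only [hP]
        rw [star_mul, star_mul, hstar1, hstar2]
        calc ex (-(c 1) • ℓ M y) * y * ex (c 1 • ℓ M y) *
              (ex (c 1 • ℓ M y) * (star y * ex (-(c 1) • ℓ M y)))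
            = ex (-(c 1) • ℓ M y) * (y * (ex (c 1 • ℓ M y) * ex (c 1 • ℓ M y)) * star y) *
              ex (-(c 1) • ℓ M y) := by
              simp only [mul_assoc]
          _ = ex (-(c 1) • ℓ M y) * (ex (c 1 • ℓ M y) * ex (c 1 • ℓ M y)) *
              ex (-(c 1) • ℓ M y) := by
              rw [e1, hfix M y hMpos (hx.1 i) (hxu i)]
          _ = 1 := by
              rw [neg_smul, ← ex_inv]
              group
      exact eq_inv_of_mul_eq_one_right e2
    · -- equivariance
      intro k hk s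
      funext i
      show P (N i) (k * x i * k⁻¹) s = k * P (N i) (x i) s * k⁻¹
      set M := N i
      set y := x i
      have hMpos : 0 < M := hN i
      have hkG : k ∈ G := (mem_KK.1 hk).1
      have hkU : k ∈ UU n := (mem_KK.1 hk).2
      have h1 : H M (k * y * k⁻¹) = k * H M y * k⁻¹ := by
        have h2 := hm3 _ _ (st2A_posDef hMpos y) (st2B_posDef hMpos y) k⁻¹ (G.inv_mem hkG)
        rw [inv_inv] at h2
        simp only [hH]
        rw [st2A_conj M y hkU, st2B_conj M y hkU, h2]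
        have h3 : (star k⁻¹)⁻¹ = k⁻¹ := by
          rw [star_inv, inv_inv]
          exact mem_UU.1 hkU
        rw [h3]
      have h2 : ℓ M (k * y * k⁻¹) = (k : Mat n) * ℓ M y * ((k⁻¹ : GLn n) : Mat n) := by
        have h3 : ((H M (k * y * k⁻¹) : GLn n) : Mat n) =
            NormedSpace.exp ((k : Mat n) * ℓ M y * ((k⁻¹ : GLn n) : Mat n)) := by
          have h4 := ex_conj k (ℓ M y)
          rw [hexℓ M y hMpos, ← h1] at h4
          exact (congrArg (fun g : GLn n => (g : Mat n)) h4).symm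
        show L (H M (k * y * k⁻¹) : Mat n) = _
        rw [h3]
        apply hL2
        show ((k : Mat n) * ℓ M y * ((k⁻¹ : GLn n) : Mat n))ᴴ = _
        have hkk := mem_UU'.1 hkU
        have hkk' : ((k⁻¹ : GLn n) : Mat n)ᴴ = (k : Mat n) := by
          rw [← hkk, conjTranspose_conjTranspose]
        rw [conjTranspose_mul, conjTranspose_mul, hℓH M y hMpos, hkk, hkk', mul_assoc]
      have h3 : ∀ z : ℂ, ex (z • ℓ M (k * y * k⁻¹)) = k * ex (z • ℓ M y) * k⁻¹ := by
        intro z
        rw [h2, ← ex_conj]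
        congr 1
        rw [mul_smul_comm, smul_mul_assoc]
      simp only [hP]
      rw [h3, h3]
      group
    · -- unitary tuples are fixed
      intro hU s
      funext i
      show P (N i) (x i) s = x i
      set M := N i
      set y := x i
      have hMpos : 0 < M := hN i
      have hyU : y ∈ UU n := hU i
      have hA : st2A M y = (M : ℂ) • (1 : Mat n) := by
        unfold st2A
        have : ∀ l ∈ Finset.range M, ((y⁻¹ ^ l : GLn n) : Mat n)ᴴ * ((y⁻¹ ^ l : GLn n) : Mat n) =
            1 := fun l _ => st2_UU_mul ((UU n).pow_mem ((UU n).inv_mem hyU) l)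
        rw [Finset.sum_congr rfl this, Finset.sum_const, Finset.card_range, Nat.cast_smul_eq_nsmul]
      have hB : st2B M y = (M : ℂ) • (1 : Mat n) := by
        unfold st2B
        have : ∀ l ∈ Finset.range M, ((y ^ l : GLn n) : Mat n) * ((y ^ l : GLn n) : Mat n)ᴴ =
            1 := fun l _ => st2_UU_mul' ((UU n).pow_mem hyU l)
        rw [Finset.sum_congr rfl this, Finset.sum_const, Finset.card_range, Nat.cast_smul_eq_nsmul]
      have hFF : ∀ h : GLn n, FF (st2A M y) (st2B M y) h = (M : ℝ) *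
          ((Matrix.trace (h : Mat n)).re + (Matrix.trace ((h⁻¹ : GLn n) : Mat n)).re) := by
        intro h
        unfold FF
        rw [hA, hB, mul_smul_comm, mul_smul_comm, mul_one, mul_one, Matrix.trace_smul,
          Matrix.trace_smul, smul_eq_mul, smul_eq_mul, ← Complex.ofReal_natCast,
          Complex.re_ofReal_mul, Complex.re_ofReal_mul]
        ring
      obtain ⟨a1, a2, a3, a4⟩ := hm1 _ _ (st2A_posDef hMpos y) (st2B_posDef hMpos y)
      have h1 : (1 : GLn n) = H M y := by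
        apply a4 1 G.one_mem
        · rw [Units.val_one]
          exact Matrix.PosDef.one
        · rw [hFF, hFF]
          apply mul_le_mul_of_nonneg_left _ (Nat.cast_nonneg M)
          refine le_trans (le_of_eq ?_) (st2_trace a2)
          simp only [inv_one, Units.val_one, Matrix.trace_one, Fintype.card_fin]
          rw [Complex.natCast_re]
          ring
      have h2 : ℓ M y = 0 := by
        show L (H M y : Mat n) = 0
        rw [← h1, Units.val_one, ← NormedSpace.exp_zero]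
        exact hL2 0 (by simp [Matrix.IsHermitian])
      simp only [hP]
      rw [h2]
      simp

end Flawed
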