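import Pool.Agent.Helper78.FL.Statements

open Matrix
open scoped ComplexOrder MatrixOrder

namespace Flawed

section

open scoped Matrix.Norms.L2Operator

set_option backward.isDefEq.respectTransparency false

theorem l2norm_sq_le_nm {n : ℕ} (x : Mat n) : ‖x‖ ^ 2 ≤ nm x := by
  have h0 : 0 ≤ nm x := nm_nonneg x
  have h1 : ‖x‖ ≤ Real.sqrt (nm x) := by
    rw [Matrix.l2_opNorm_def]
    refine ContinuousLinearMap.opNorm_le_bound _ (Real.sqrt_nonneg _) fun v => ?_
    refine (sq_le_sq₀ (norm_nonneg _) (by positivity)).1 ?_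
    rw [mul_pow, Real.sq_sqrt h0, EuclideanSpace.norm_sq_eq, EuclideanSpace.norm_sq_eq]
    simp only [nm, Finset.sum_mul]
    refine Finset.sum_le_sum fun a _ => ?_
    have h2 : ((toEuclideanLin (𝕜 := ℂ) (m := Fin n) (n := Fin n)).trans
        LinearMap.toContinuousLinearMap x v).ofLp a = ∑ b, x a b * v.ofLp b := by
      rfl
    rw [h2]
    have h3 : ‖∑ b, x a b * v.ofLp b‖ ≤ ∑ b, ‖x a b‖ * ‖v.ofLp b‖ := by
      refine (norm_sum_le _ _).trans (Finset.sum_le_sum fun b _ => ?_)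
      rw [norm_mul]
    refine (pow_le_pow_left₀ (norm_nonneg _) h3 2).trans ?_
    rw [← Finset.sum_mul]
    exact Finset.sum_mul_sq_le_sq_mul_sq _ _ _
  calc ‖x‖ ^ 2 ≤ Real.sqrt (nm x) ^ 2 := pow_le_pow_left₀ (norm_nonneg _) h1 2
    _ = nm x := Real.sq_sqrt h0

/-- FL04. -/
theorem ulog : StULog := by
  intro n δ hδ
  set d : ℝ := min δ 1 with hd
  have hd0 : 0 < d := lt_min hδ one_pos
  have hd1 : d ≤ 1 := min_le_right _ _
  have hdδ : d ≤ δ := min_le_left _ _
  have hcos : Real.cos d < 1 := by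
    have := Real.cos_lt_cos_of_nonneg_of_le_pi (x := 0) (y := d) le_rfl
      (hd1.trans (by linarith [Real.pi_gt_three])) hd0
    simpa using this
  refine ⟨min 1 (2 * (1 - Real.cos d)), lt_min one_pos (by linarith), fun u hu hnm => ?_⟩
  have hn1 : ‖((u : Mat n) - 1)‖ ^ 2 ≤ 1 :=
    (l2norm_sq_le_nm _).trans (hnm.trans (min_le_left _ _))
  have hn2 : ‖((u : Mat n) - 1)‖ ^ 2 ≤ 2 * (1 - Real.cos d) :=
    (l2norm_sq_le_nm _).trans (hnm.trans (min_le_right _ _))
  have hlt : ‖((u : Mat n) - 1)‖ < 2 := by nlinarith [norm_nonneg ((u : Mat n) - 1)]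
  have huu := mem_UU'.1 hu
  let U : unitary (Mat n) := ⟨(u : Mat n), by
    rw [Unitary.mem_iff]
    constructor
    · rw [Matrix.star_eq_conjTranspose, huu]; exact u.inv_mul
    · rw [Matrix.star_eq_conjTranspose, huu]; exact u.mul_inv⟩
  have hU : ‖((U : Mat n) - 1)‖ < 2 := hlt
  have hnorm := Unitary.norm_argSelfAdjoint hU
  have hH : ((Unitary.argSelfAdjoint U : selfAdjoint (Mat n)) : Mat n).IsHermitian :=
    isHermitian_iff_isSelfAdjoint.2 (Unitary.argSelfAdjoint U).2
  have hle : ‖((Unitary.argSelfAdjoint U : selfAdjoint (Mat n)) : Mat n)‖ ≤ d := by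
    have h1 : ‖((Unitary.argSelfAdjoint U : selfAdjoint (Mat n)) : Mat n)‖ =
      ‖(Unitary.argSelfAdjoint U : selfAdjoint (Mat n))‖ := rfl
    rw [h1, hnorm]
    have h2 : Real.arccos (Real.cos d) = d :=
      Real.arccos_cos hd0.le (hd1.trans (by linarith [Real.pi_gt_three]))
    rw [← h2]
    apply Real.arccos_le_arccos
    have : ‖((U : Mat n) - 1)‖ ^ 2 ≤ 2 * (1 - Real.cos d) := hn2
    linarith
  refine ⟨_, hH, fun i => ?_, ?_⟩
  · have : Nonempty (Fin n) := ⟨i⟩
    have : Nontrivial (Mat n) := inferInstance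
    have h3 := spectrum.norm_le_norm_mul_of_mem (hH.eigenvalues_mem_spectrum_real i)
    rw [CStarRing.norm_one, mul_one, Real.norm_eq_abs] at h3
    exact h3.trans (hle.trans hdδ)
  · have h4 := expUnitary_argSelfAdjoint hU
    apply Units.ext
    have h5 := congrArg (fun w : unitary (Mat n) => (w : Mat n)) h4
    simp only [selfAdjoint.expUnitary_coe] at h5
    exact h5.symm

end

end Flawed
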