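import Pool.Agent.Helper78.FL.Statements

/-!
FL26 for MP_1b2618_al: the unitary trick.
-/

open Matrix MeasureTheory
open scoped ComplexOrder

namespace Flawed

namespace UTrick

variable {n : ℕ}

theorem ae_mem {K : Subgroup (GLn n)} {μ : Measure (GLn n)} (hμ : IsHaar K μ) :
    ∀ᵐ k ∂μ, k ∈ K := by
  rw [ae_iff]
  exact hμ.supp

theorem integrable_of_cont {K : Subgroup (GLn n)} (hK : IsCompact (K : Set (GLn n)))
    {μ : Measure (GLn n)} (hμ : IsHaar K μ) {f : GLn n → ℂ} (hf : Continuous f) :
    Integrable f μ := by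
  have := hμ.prob
  obtain ⟨C, hC⟩ := hK.exists_bound_of_continuousOn hf.continuousOn
  refine Integrable.of_bound hf.aestronglyMeasurable C ?_
  filter_upwards [ae_mem hμ] with k hk
  exact hC k hk

/-- entrywise average -/
noncomputable def avg (μ : Measure (GLn n)) (f : GLn n → Mat n) : Mat n :=
  Matrix.of fun a b => ∫ k, f k a b ∂μ

theorem avg_apply (μ : Measure (GLn n)) (f : GLn n → Mat n) (a b : Fin n) :
    avg μ f a b = ∫ k, f k a b ∂μ := rfl

theorem cont_entry {f : GLn n → Mat n} (hf : Continuous f) (a b : Fin n) :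
    Continuous fun k => f k a b := hf.matrix_elem a b

theorem mul_avg {K : Subgroup (GLn n)} (hK : IsCompact (K : Set (GLn n)))
    {μ : Measure (GLn n)} (hμ : IsHaar K μ) {f : GLn n → Mat n} (hf : Continuous f)
    (C : Mat n) : C * avg μ f = avg μ (fun k => C * f k) := by
  ext a b
  rw [avg_apply, Matrix.mul_apply]
  simp only [Matrix.mul_apply, avg_apply]
  rw [integral_finsetSum _ fun i _ =>
    (integrable_of_cont hK hμ (cont_entry hf i b)).const_mul _]
  refine Finset.sum_congr rfl fun i _ => ?_
  rw [integral_const_mul]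

theorem avg_mul {K : Subgroup (GLn n)} (hK : IsCompact (K : Set (GLn n)))
    {μ : Measure (GLn n)} (hμ : IsHaar K μ) {f : GLn n → Mat n} (hf : Continuous f)
    (C : Mat n) : avg μ f * C = avg μ (fun k => f k * C) := by
  ext a b
  rw [avg_apply, Matrix.mul_apply]
  simp only [Matrix.mul_apply, avg_apply]
  rw [integral_finsetSum _ fun i _ =>
    (integrable_of_cont hK hμ (cont_entry hf a i)).mul_const _]
  refine Finset.sum_congr rfl fun i _ => ?_
  rw [integral_mul_const]

theorem avg_inv {K : Subgroup (GLn n)} {μ : Measure (GLn n)} (hμ : IsHaar K μ)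
    {f : GLn n → Mat n} (hf : Continuous f) {l : GLn n} (hl : l ∈ K) :
    avg μ (fun k => f (l * k)) = avg μ f := by
  ext a b
  rw [avg_apply, avg_apply]
  have h1 : Measurable (fun x : GLn n => l * x) := (continuous_const_mul l).measurable
  conv_rhs => rw [← hμ.inv l hl]
  rw [integral_map h1.aemeasurable (cont_entry hf a b).aestronglyMeasurable]

theorem dot_avg {K : Subgroup (GLn n)} (hK : IsCompact (K : Set (GLn n)))
    {μ : Measure (GLn n)} (hμ : IsHaar K μ) {f : GLn n → Mat n} (hf : Continuous f)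
    (x : Fin n → ℂ) :
    star x ⬝ᵥ (avg μ f *ᵥ x) = ∫ k, star x ⬝ᵥ (f k *ᵥ x) ∂μ := by
  simp only [dotProduct, Matrix.mulVec, avg_apply]
  have hint : ∀ a b, Integrable (fun k => f k a b * x b) μ := fun a b =>
    (integrable_of_cont hK hμ (cont_entry hf a b)).mul_const _
  rw [integral_finsetSum _ fun i _ =>
    (integrable_finsetSum _ fun j _ => hint i j).const_mul _]
  refine Finset.sum_congr rfl fun i _ => ?_
  rw [integral_const_mul, integral_finsetSum _ fun j _ => hint i j]
  congr 1
  refine Finset.sum_congr rfl fun j _ => ?_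
  rw [integral_mul_const]

/-- the average of `(g k)ᴴ (g k)` is positive definite, for `g` continuous with invertible
values -/
theorem posDef_avg {K : Subgroup (GLn n)} (hK : IsCompact (K : Set (GLn n)))
    {μ : Measure (GLn n)} (hμ : IsHaar K μ) {g : GLn n → GLn n} (hg : Continuous g) :
    (avg μ (fun k => ((g k : GLn n) : Mat n)ᴴ * (g k : Mat n))).PosDef := by
  have hprob := hμ.prob
  have hgc : Continuous fun k => ((g k : GLn n) : Mat n) := Units.continuous_val.comp hg
  have hf : Continuous fun k => ((g k : GLn n) : Mat n)ᴴ * (g k : Mat n) :=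
    hgc.matrix_conjTranspose.matrix_mul hgc
  refine Matrix.PosDef.of_dotProduct_mulVec_pos ?_ fun x hx => ?_
  · ext a b
    rw [Matrix.conjTranspose_apply, avg_apply, avg_apply]
    change (starRingEnd ℂ) (∫ k, _ ∂μ) = _
    rw [← integral_conj]
    congr 1
    funext k
    have h := (isHermitian_conjTranspose_mul_self ((g k : GLn n) : Mat n)).apply a b
    exact h
  · rw [dot_avg hK hμ hf]
    have h1 : ∀ k, star x ⬝ᵥ ((((g k : GLn n) : Mat n)ᴴ * (g k : Mat n)) *ᵥ x) =
        ((∑ i, ‖((g k : Mat n) *ᵥ x) i‖ ^ 2 : ℝ) : ℂ) := by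
      intro k
      rw [← mulVec_mulVec, dotProduct_mulVec, vecMul_conjTranspose, star_star]
      simp only [dotProduct, Pi.star_apply]
      push_cast
      refine Finset.sum_congr rfl fun i _ => ?_
      rw [mul_comm, RCLike.star_def, Complex.mul_conj, Complex.normSq_eq_norm_sq]
      push_cast
      rfl
    simp_rw [h1]
    rw [integral_complex_ofReal]
    have hcv : ∀ i, Continuous fun k => ((g k : Mat n) *ᵥ x) i := by
      intro i
      have := hgc.matrix_mulVec (continuous_const (y := x))
      exact (continuous_apply i).comp this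
    have hcs : Continuous fun k => ∑ i, ‖((g k : Mat n) *ᵥ x) i‖ ^ 2 :=
      continuous_finsetSum _ fun i _ => ((hcv i).norm.pow 2)
    have hint : Integrable (fun k => ∑ i, ‖((g k : Mat n) *ᵥ x) i‖ ^ 2) μ := by
      have := integrable_of_cont hK hμ (Complex.continuous_ofReal.comp hcs)
      have h5 := this.re
      exact h5.congr (Filter.Eventually.of_forall fun k => rfl)
    have hpos : 0 < ∫ k, ∑ i, ‖((g k : Mat n) *ᵥ x) i‖ ^ 2 ∂μ := by
      rw [integral_pos_iff_support_of_nonneg
        (fun k => Finset.sum_nonneg fun _ _ => by positivity) hint]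
      have hsupp : Function.support (fun k => ∑ i, ‖((g k : Mat n) *ᵥ x) i‖ ^ 2) =
          Set.univ := by
        ext k
        simp only [Function.mem_support, Set.mem_univ, iff_true, ne_eq]
        intro h0
        rw [Finset.sum_eq_zero_iff_of_nonneg (fun _ _ => by positivity)] at h0
        have h2 : (g k : Mat n) *ᵥ x = 0 := by
          funext i
          have := h0 i (Finset.mem_univ i)
          simpa using this
        apply hx
        have h3 : ((g k)⁻¹ : GLn n).val *ᵥ ((g k : Mat n) *ᵥ x) = x := by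
          rw [mulVec_mulVec, Units.inv_mul, one_mulVec]
        rw [← h3, h2, mulVec_zero]
      rw [hsupp, measure_univ]
      exact one_pos
    exact_mod_cast hpos

end UTrick

open UTrick in
theorem uTrick : StHaar → StUTrick := by
  intro hHaar n K hK
  obtain ⟨μ, hμ⟩ := hHaar n K hK
  set f : GLn n → Mat n := fun k => (((k⁻¹ : GLn n)) : Mat n)ᴴ * ((k⁻¹ : GLn n) : Mat n) with hf
  have hfc : Continuous f := by
    have h : Continuous fun k : GLn n => ((k⁻¹ : GLn n) : Mat n) :=
      Units.continuous_val.comp continuous_inv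
    exact h.matrix_conjTranspose.matrix_mul h
  have hA : (avg μ f).PosDef := posDef_avg hK hμ (g := fun k => k⁻¹) continuous_inv
  have hAl : ∀ l ∈ K, (l : Mat n)ᴴ * avg μ f * (l : Mat n) = avg μ f := by
    intro l hl
    rw [mul_avg hK hμ hfc, avg_mul hK hμ (continuous_const.matrix_mul hfc),
      ← avg_inv hμ hfc (K.inv_mem hl)]
    congr 1
    funext k
    simp only [hf]
    rw [_root_.mul_inv_rev, inv_inv, Units.val_mul, conjTranspose_mul]
    simp only [mul_assoc]
  obtain ⟨b, hb⟩ : ∃ b : Mat n, avg μ f = bᴴ * b := by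
    open scoped MatrixOrder in
    exact CStarAlgebra.nonneg_iff_eq_star_mul_self.mp hA.posSemidef.nonneg
  have hdet : IsUnit b.det := by
    have h1 : IsUnit (avg μ f).det := (Matrix.isUnit_iff_isUnit_det _).1 hA.isUnit
    rw [hb, det_mul] at h1
    exact isUnit_of_mul_isUnit_right h1
  obtain ⟨B, hB⟩ := (Matrix.isUnit_iff_isUnit_det _).2 hdet
  refine ⟨B, fun l hl => ?_⟩
  rw [mem_UU]
  rw [eq_inv_iff_mul_eq_one]
  apply Units.ext
  have hBb : (B : Mat n)ᴴ * (B : Mat n) = avg μ f := by rw [hB, ← hb]
  have e1 : ((star (B * l * B⁻¹) * (B * l * B⁻¹) : GLn n) : Mat n) =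
      (((B⁻¹ : GLn n) : Mat n))ᴴ * ((l : Mat n)ᴴ * ((B : Mat n)ᴴ * (B : Mat n)) * (l : Mat n)) *
        ((B⁻¹ : GLn n) : Mat n) := by
    rw [star_mul, star_mul]
    simp only [Units.val_mul, mul_assoc]
    rfl
  rw [e1, hBb, hAl l hl, ← hBb]
  rw [← mul_assoc, ← conjTranspose_mul, Units.mul_inv, conjTranspose_one, one_mul, Units.mul_inv]
  rfl

end Flawed
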