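import Pool.Agent.Helper78.FL.Statements

/-!
FL11: polynomial lower bound for the volume of the near-stabiliser (module for MP_1b2618_al).
-/

open Matrix MeasureTheory
open scoped ComplexConjugate ComplexOrder

namespace Flawed

theorem FL11_floor (x y h : ℝ) (hh : 0 < h) (hf : ⌊x / h⌋ = ⌊y / h⌋) : (x - y) ^ 2 ≤ h ^ 2 := by
  have h1 := Int.abs_sub_lt_one_of_floor_eq_floor hf
  have h2 : x / h - y / h = (x - y) / h := by ring
  rw [h2, abs_div, abs_of_pos hh, div_lt_one hh] at h1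
  rw [← sq_abs (x - y)]
  exact pow_le_pow_left₀ (abs_nonneg _) h1.le 2

theorem FL11_mem (x R h : ℝ) (hh : 0 < h) (hx : |x| ≤ R) :
    ⌊x / h⌋ ∈ Finset.Icc (-⌈R / h⌉) ⌈R / h⌉ := by
  rw [Finset.mem_Icc]
  have h1 := abs_le.mp hx
  have h2 : R / h ≤ ⌈R / h⌉ := Int.le_ceil _
  constructor
  · rw [Int.le_floor]
    push_cast
    have h3 : -(R / h) ≤ x / h := by
      rw [← neg_div]
      exact div_le_div_of_nonneg_right h1.1 hh.le
    linarith
  · have h3 : x / h ≤ R / h := div_le_div_of_nonneg_right h1.2 hh.le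
    have h4 : (⌊x / h⌋ : ℝ) ≤ ⌈R / h⌉ := (Int.floor_le _).trans (h3.trans h2)
    exact_mod_cast h4

theorem vol : StVol := by
  classical
  intro n ι _ K μ hK hμ v
  set R : ℝ := nsq v + 1 with hR
  have hR1 : 1 ≤ R := by have := nsq_nonneg v; rw [hR]; linarith
  set J := ι × Fin n × Fin n with hJ
  set c₀ : ℝ := 2 * (Fintype.card J : ℝ) + 1 with hc₀
  have hc₀1 : 1 ≤ c₀ := by rw [hc₀]; have : (0 : ℝ) ≤ Fintype.card J := by positivity
                           linarith
  set C : ℝ := 2 * R * c₀ + 3 with hC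
  have hC0 : 0 < C := by positivity
  refine ⟨((C ^ 2) ^ Fintype.card J)⁻¹, 2 * Fintype.card J, by positivity, ?_⟩
  intro ρ hρ hρ1
  set h : ℝ := ρ / c₀ with hh
  have hh0 : 0 < h := by positivity
  set T : Set (GLn n) := {k | nsq (act k⁻¹ v - v) ≤ ρ ^ 2} with hT
  -- the cells
  let f : GLn n → J → ℤ × ℤ := fun k j =>
    (⌊(act k v j.1 j.2.1 j.2.2).re / h⌋, ⌊(act k v j.1 j.2.1 j.2.2).im / h⌋)
  set m : ℤ := ⌈R / h⌉ with hm
  let Z : Finset (J → ℤ × ℤ) := Fintype.piFinset (fun _ => Finset.Icc (-m) m ×ˢ Finset.Icc (-m) m)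
  have hm0 : 0 ≤ m := Int.ceil_nonneg (by positivity)
  have hcardZ : (Z.card : ℝ) ≤ (C ^ 2) ^ Fintype.card J / ρ ^ (2 * Fintype.card J) := by
    have h1 : Z.card = ((2 * m + 1).toNat ^ 2) ^ Fintype.card J := by
      simp only [Z, Fintype.card_piFinset, Finset.card_product, Int.card_Icc, Finset.prod_const,
        Finset.card_univ]
      congr 1
      rw [sq]
      congr 2 <;> ring
    have h2 : (((2 * m + 1).toNat : ℕ) : ℝ) ≤ C / ρ := by
      have h3 : (((2 * m + 1).toNat : ℕ) : ℝ) = 2 * (m : ℝ) + 1 := by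
        have h4 : (((2 * m + 1).toNat : ℕ) : ℤ) = 2 * m + 1 := Int.toNat_of_nonneg (by omega)
        have h5 : ((((2 * m + 1).toNat : ℕ) : ℤ) : ℝ) = ((2 * m + 1 : ℤ) : ℝ) := by rw [h4]
        push_cast at h5
        exact h5
      rw [h3]
      have h4 : (m : ℝ) < R / h + 1 := Int.ceil_lt_add_one _
      have h5 : R / h = R * c₀ / ρ := by rw [hh]; field_simp
      rw [le_div_iff₀ hρ]
      rw [h5] at h4
      have h6 : (m : ℝ) * ρ ≤ R * c₀ + ρ := by
        have := mul_le_mul_of_nonneg_right h4.le hρ.le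
        rw [add_mul, div_mul_cancel₀ _ hρ.ne', one_mul] at this
        exact this
      rw [hC]
      nlinarith
    rw [h1]
    push_cast
    calc ((((2 * m + 1).toNat : ℕ) : ℝ) ^ 2) ^ Fintype.card J ≤ ((C / ρ) ^ 2) ^ Fintype.card J := by
          gcongr
      _ = (C ^ 2) ^ Fintype.card J / ρ ^ (2 * Fintype.card J) := by
          rw [div_pow, div_pow, ← pow_mul ρ]
  have hmem : ∀ k ∈ K, f k ∈ Z := by
    intro k hk
    rw [Fintype.mem_piFinset]
    intro j
    rw [Finset.mem_product]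
    have h1 : ‖act k v j.1 j.2.1 j.2.2‖ ≤ R := by
      have h2 : ‖act k v j.1 j.2.1 j.2.2‖ ^ 2 ≤ nsq v := by
        rw [← nsq_act (hK hk) v]
        exact (norm_sq_entry_le_nm _ _ _).trans (nm_le_nsq _ _)
      rw [hR]
      by_contra hc
      push Not at hc
      have := nsq_nonneg v
      nlinarith
    exact ⟨FL11_mem _ _ _ hh0 ((Complex.abs_re_le_norm _).trans h1),
      FL11_mem _ _ _ hh0 ((Complex.abs_im_le_norm _).trans h1)⟩
  -- two elements in the same cell
  have hcell : ∀ k k' : GLn n, f k = f k' → nsq (act k' v - act k v) ≤ ρ ^ 2 := by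
    intro k k' hkk
    have h1 : ∀ i a b, ‖(act k' v - act k v) i a b‖ ^ 2 ≤ 2 * h ^ 2 := by
      intro i a b
      have h2 := congrFun hkk (i, a, b)
      simp only [f, Prod.mk.injEq] at h2
      have h3 := FL11_floor _ _ _ hh0 h2.1
      have h4 := FL11_floor _ _ _ hh0 h2.2
      rw [← Complex.normSq_eq_norm_sq, Complex.normSq_apply]
      simp only [Pi.sub_apply, Matrix.sub_apply, Complex.sub_re, Complex.sub_im]
      nlinarith
    have h2 : nsq (act k' v - act k v) ≤ ∑ i : ι, ∑ a : Fin n, ∑ b : Fin n, 2 * h ^ 2 :=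
      Finset.sum_le_sum fun i _ => Finset.sum_le_sum fun a _ => Finset.sum_le_sum fun b _ => h1 i a b
    have h3 : ∑ i : ι, ∑ a : Fin n, ∑ b : Fin n, 2 * h ^ 2 = (Fintype.card J : ℝ) * (2 * h ^ 2) := by
      simp only [Finset.sum_const, Finset.card_univ, nsmul_eq_mul, hJ, Fintype.card_prod,
        Fintype.card_fin]
      push_cast
      ring
    rw [h3] at h2
    refine h2.trans ?_
    have h4 : ρ = h * c₀ := by rw [hh]; field_simp
    rw [h4]
    have h5 : (Fintype.card J : ℝ) * 2 ≤ c₀ ^ 2 := by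
      rw [hc₀]
      have : (0 : ℝ) ≤ Fintype.card J := by positivity
      nlinarith
    calc (Fintype.card J : ℝ) * (2 * h ^ 2) = h ^ 2 * ((Fintype.card J : ℝ) * 2) := by ring
      _ ≤ h ^ 2 * c₀ ^ 2 := mul_le_mul_of_nonneg_left h5 (by positivity)
      _ = (h * c₀) ^ 2 := by ring
  -- `T` is measurable
  have hTm : MeasurableSet T := by
    apply IsClosed.measurableSet
    have h1 : Continuous (fun k : GLn n => nsq (act k⁻¹ v - v)) := by
      have h2 : Continuous (fun k : GLn n => act k⁻¹ v) := by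
        have h3 := (continuous_act_left v).comp (continuous_inv (G := GLn n))
        exact h3
      exact continuous_nsq.comp (h2.sub continuous_const)
    exact isClosed_le h1 continuous_const
  have hcellT : ∀ z ∈ Z, μ ((K : Set (GLn n)) ∩ f ⁻¹' {z}) ≤ μ T := by
    intro z _
    rcases Set.eq_empty_or_nonempty ((K : Set (GLn n)) ∩ f ⁻¹' {z}) with he | ⟨k', hk', hfk'⟩
    · rw [he]; simp
    · have hinv := hμ.inv k'⁻¹ (K.inv_mem hk')
      have hmeas : Measurable (fun x : GLn n => k'⁻¹ * x) := by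
        have h3 : Continuous (fun x : GLn n => k'⁻¹ * x) := continuous_const.mul continuous_id
        exact h3.measurable
      have h1 : μ T = μ ((fun x => k'⁻¹ * x) ⁻¹' T) := by
        conv_lhs => rw [← hinv]
        exact Measure.map_apply hmeas hTm
      rw [h1]
      apply measure_mono
      rintro k ⟨hk, hfk⟩
      have hff : f k = f k' := by
        rw [Set.mem_preimage, Set.mem_singleton_iff] at hfk hfk'
        rw [hfk, hfk']
      have h2 := hcell k k' hff
      change nsq (act (k'⁻¹ * k)⁻¹ v - v) ≤ ρ ^ 2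
      rw [_root_.mul_inv_rev, inv_inv, act_mul]
      have h3 : act k (act k⁻¹ (act k' v) - v) = act k' v - act k v := by
        rw [act_sub, act_act_inv]
      rw [← nsq_act (hK hk), h3]
      exact h2
  have hKone : 1 ≤ μ (K : Set (GLn n)) := by
    have := hμ.prob
    have h1 : μ Set.univ ≤ μ (K : Set (GLn n)) + μ ((K : Set (GLn n))ᶜ) := by
      rw [← Set.union_compl_self (K : Set (GLn n))]
      exact measure_union_le _ _
    rwa [measure_univ, hμ.supp, add_zero] at h1
  have hcover : (K : Set (GLn n)) ⊆ ⋃ z ∈ Z, ((K : Set (GLn n)) ∩ f ⁻¹' {z}) := by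
    intro k hk
    rw [Set.mem_iUnion₂]
    exact ⟨f k, hmem k hk, hk, rfl⟩
  have hsum : 1 ≤ (Z.card : ENNReal) * μ T := by
    calc 1 ≤ μ (K : Set (GLn n)) := hKone
      _ ≤ μ (⋃ z ∈ Z, ((K : Set (GLn n)) ∩ f ⁻¹' {z})) := measure_mono hcover
      _ ≤ ∑ z ∈ Z, μ ((K : Set (GLn n)) ∩ f ⁻¹' {z}) := measure_biUnion_finset_le Z _
      _ ≤ ∑ z ∈ Z, μ T := Finset.sum_le_sum hcellT
      _ = (Z.card : ENNReal) * μ T := by rw [Finset.sum_const, nsmul_eq_mul]
  set q : ℝ := ((C ^ 2) ^ Fintype.card J)⁻¹ * ρ ^ (2 * Fintype.card J) with hq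
  have hq0 : 0 ≤ q := by positivity
  have hqZ : q * Z.card ≤ 1 := by
    calc q * Z.card ≤ q * ((C ^ 2) ^ Fintype.card J / ρ ^ (2 * Fintype.card J)) :=
          mul_le_mul_of_nonneg_left hcardZ hq0
      _ = 1 := by
          rw [hq]
          field_simp
  calc ENNReal.ofReal q = ENNReal.ofReal q * 1 := by rw [mul_one]
    _ ≤ ENNReal.ofReal q * ((Z.card : ENNReal) * μ T) := by gcongr
    _ = ENNReal.ofReal (q * Z.card) * μ T := by
        rw [← mul_assoc, ENNReal.ofReal_mul hq0, ENNReal.ofReal_natCast]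
    _ ≤ ENNReal.ofReal 1 * μ T := by gcongr
    _ = μ T := by rw [ENNReal.ofReal_one, one_mul]

end Flawed
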