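import Pool.Agent.Helper78.FL.Statements

open Matrix MeasureTheory
open scoped ComplexConjugate

namespace Flawed

variable {ι : Type} [Fintype ι] {n : ℕ}

theorem ex_diag_val (d : Fin n → ℂ) :
    (ex (Matrix.diagonal d) : Mat n) = Matrix.diagonal (fun a => Complex.exp (d a)) := by
  rw [ex_val, Matrix.exp_diagonal]
  congr 1
  ext a
  rw [Pi.coe_exp, Complex.exp_eq_exp_ℂ]

theorem ex_diag_inv_val (d : Fin n → ℂ) :
    (((ex (Matrix.diagonal d))⁻¹ : GLn n) : Mat n) =
      Matrix.diagonal (fun a => Complex.exp (-d a)) := by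
  have h : -Matrix.diagonal d = Matrix.diagonal (fun a => -d a) := by
    ext a b
    by_cases hab : a = b
    · subst hab; simp
    · simp [hab]
  rw [ex_inv, h, ex_diag_val]

omit [Fintype ι] in
theorem act_ex_diag (d : Fin n → ℂ) (v : ι → Mat n) (i : ι) (a b : Fin n) :
    act (ex (Matrix.diagonal d)) v i a b = Complex.exp (d a - d b) * v i a b := by
  simp only [act, ex_diag_val, ex_diag_inv_val, Matrix.mul_diagonal, Matrix.diagonal_mul]
  rw [sub_eq_add_neg, Complex.exp_add]
  ring

/-- FL05 -/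
theorem weights : StWeights := by
  intro n ι _ v ξ hξ
  -- the unitary
  obtain ⟨u, hu, hconj⟩ : ∃ u : GLn n, u ∈ UU n ∧
      ξ = (u : Mat n) * Matrix.diagonal (fun a => ((hξ.eigenvalues a : ℝ) : ℂ)) *
        ((u⁻¹ : GLn n) : Mat n) := by
    have h1 : (hξ.eigenvectorUnitary : Mat n) * star (hξ.eigenvectorUnitary : Mat n) = 1 :=
      Unitary.coe_mul_star_self _
    have h2 : star (hξ.eigenvectorUnitary : Mat n) * (hξ.eigenvectorUnitary : Mat n) = 1 :=
      Unitary.coe_star_mul_self _
    refine ⟨⟨(hξ.eigenvectorUnitary : Mat n), star (hξ.eigenvectorUnitary : Mat n), h1, h2⟩, ?_, ?_⟩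
    · rw [mem_UU']
      rfl
    · have h3 := hξ.spectral_theorem
      exact h3
  have hz : ∀ z : ℂ, ex (z • ξ) =
      u * ex (Matrix.diagonal (fun a => z * ((hξ.eigenvalues a : ℝ) : ℂ))) * u⁻¹ := by
    intro z
    rw [← ex_conj]
    congr 1
    conv_lhs => rw [hconj]
    rw [← Matrix.smul_mul, ← Matrix.mul_smul]
    congr 2
    ext a b
    by_cases hab : a = b
    · subst hab; simp
    · simp [hab]
  set v' : ι → Mat n := act u⁻¹ v with hv'
  have hact : ∀ z : ℂ, act (ex (z • ξ)) v =
      act u (act (ex (Matrix.diagonal (fun a => z * ((hξ.eigenvalues a : ℝ) : ℂ)))) v') := by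
    intro z
    rw [hz, act_mul, act_mul]
  have hvv : v = act u v' := by rw [hv', act_act_inv]
  have hent : ∀ (z : ℂ) (i : ι) (a b : Fin n),
      act (ex (Matrix.diagonal (fun a => z * ((hξ.eigenvalues a : ℝ) : ℂ)))) v' i a b =
      Complex.exp (z * ((hξ.eigenvalues a - hξ.eigenvalues b : ℝ) : ℂ)) * v' i a b := by
    intro z i a b
    rw [act_ex_diag]
    congr 2
    push_cast
    ring
  have hnorm : ∀ z : ℂ, ∀ x : ℝ, ‖Complex.exp (z * (x : ℂ))‖ ^ 2 = Real.exp (2 * z.re * x) := by
    intro z x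
    rw [Complex.norm_exp, ← Real.exp_nat_mul]
    congr 1
    simp
    ring
  refine ⟨fun j => hξ.eigenvalues j.2.1 - hξ.eigenvalues j.2.2, fun j => v' j.1 j.2.1 j.2.2,
    ?_, ?_, ?_, ?_⟩
  · intro z
    rw [hact]
    conv_lhs => rw [hvv]
    rw [ip_act hu]
    simp only [ip]
    rw [Fintype.sum_prod_type]
    refine Finset.sum_congr rfl fun i _ => ?_
    rw [Fintype.sum_prod_type]
    refine Finset.sum_congr rfl fun a _ => Finset.sum_congr rfl fun b _ => ?_
    rw [hent, mul_assoc, Complex.mul_conj, Complex.normSq_eq_norm_sq]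
  · intro z
    rw [hact, nsq_act hu]
    simp only [nsq, nm]
    rw [Fintype.sum_prod_type]
    refine Finset.sum_congr rfl fun i _ => ?_
    rw [Fintype.sum_prod_type]
    refine Finset.sum_congr rfl fun a _ => Finset.sum_congr rfl fun b _ => ?_
    rw [hent, norm_mul, mul_pow, hnorm]
  · intro z
    have h4 : act (ex (z • ξ)) v - v =
        act u (act (ex (Matrix.diagonal (fun a => z * ((hξ.eigenvalues a : ℝ) : ℂ)))) v' - v') := by
      rw [act_sub, ← hvv, ← hact]
    rw [h4, nsq_act hu]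
    simp only [nsq, nm]
    rw [Fintype.sum_prod_type]
    refine Finset.sum_congr rfl fun i _ => ?_
    rw [Fintype.sum_prod_type]
    refine Finset.sum_congr rfl fun a _ => Finset.sum_congr rfl fun b _ => ?_
    have h5 : (act (ex (Matrix.diagonal (fun a => z * ((hξ.eigenvalues a : ℝ) : ℂ)))) v' - v') i a b
        = (Complex.exp (z * ((hξ.eigenvalues a - hξ.eigenvalues b : ℝ) : ℂ)) - 1) * v' i a b := by
      rw [Pi.sub_apply, Matrix.sub_apply, hent]
      ring
    rw [h5, norm_mul, mul_pow]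
  · intro B hB j
    have h1 := abs_le.1 (hB j.2.1)
    have h2 := abs_le.1 (hB j.2.2)
    rw [abs_le]
    constructor <;> linarith [h1.1, h1.2, h2.1, h2.2]

end Flawed
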