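import Mathlib

/-!
Strong deformation retractions (MP_1b2618_al).
-/

namespace Flawed

/-- The injection `i : Y → X` is a strong deformation retraction: `i` is continuous, there is a
continuous `r : X → Y` with `r ∘ i = id`, and `id` is homotopic to `i ∘ r` through a homotopy
`H : X × [0, 1] → X` fixing the points of the image of `i`. -/
def IsSDR {Y X : Type} [TopologicalSpace Y] [TopologicalSpace X] (i : Y → X) : Prop :=
  Continuous i ∧ ∃ r : X → Y, Continuous r ∧ (∀ y, r (i y) = y) ∧
    ∃ H : X × unitInterval → X, Continuous H ∧ (∀ x, H (x, 0) = x) ∧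
      (∀ x, H (x, 1) = i (r x)) ∧ ∀ y t, H (i y, t) = i y

end Flawed
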